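import Pool.Agent.Lib_helper20.SRO.Model

/-!
# Access patterns, and avoiding affine subspaces

The number of access patterns of a nondeterministic branching program; the hard function: points of
even weight in none of the given affine subspaces of codimension about `2 log n`. The variables of
the second kind are the bits of the point.
-/

namespace Pool.Agent.Lib_helper20.SRO

open Finset

/-- Every accepted input has an accepting walk with at most `m` tests of variables of the second
kind. -/
def NBP.FewTests {W X N : Type} (G : NBP (W ⊕ X) N) (m : ℕ) : Prop :=
  ∀ b, G.Accepts b → ∃ l, Walk G G.source G.sink l ∧ Agrees b l ∧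
    l.countP (fun p => p.1.isRight) ≤ m

/-- At most `a` access patterns: for every input and any two nodes, the walks between them all of
whose tests the input passes have at most `a` different sets of tested variables of the second
kind. -/
def NBP.AccessPatterns {W X N : Type} (G : NBP (W ⊕ X) N) (a : ℕ) : Prop :=
  ∀ (b : W ⊕ X → Bool) (u v : N), {S : Set X | ∃ l, Walk G u v l ∧ Agrees b l ∧
    S = {x | ∃ c, (Sum.inr x, c) ∈ l}}.encard ≤ a

/-- The point `b` satisfies the `d` linear equations with coefficients `M` and right sides `s`. -/
def inSub {n d : ℕ} (M : Fin d → Fin n → Bool) (s : Fin d → Bool) (b : Fin n → Bool) : Bool :=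
  decide (∀ i, dot (M i) b = if s i then 1 else 0)

/-- The points of even weight in none of the `T` affine subspaces. -/
def avoid {n d T : ℕ} (M : Fin T → Fin d → Fin n → Bool) (s : Fin T → Fin d → Bool)
    (b : Fin n → Bool) : Bool :=
  evenWeight b && decide (∀ t, inSub (M t) (s t) b = false)

/-- the number of equations of each subspace -/
def codim (n : ℕ) : ℕ := 2 * (Nat.log 2 n + 1)

/-- the number of subspaces -/
def subs (n : ℕ) : ℕ := 5 * n ^ 2

/-- The input variables: coefficients and right sides of the equations, the point. -/
abbrev VarA (n : ℕ) : Type :=
  ((Fin (subs n) × Fin (codim n) × Fin n) ⊕ (Fin (subs n) × Fin (codim n))) ⊕ Fin n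

/-- The hard function: `avoid`, with the subspaces as inputs. -/
def avoidF (n : ℕ) (v : VarA n → Bool) : Bool :=
  avoid (fun t i j => v (Sum.inl (Sum.inl (t, i, j)))) (fun t i => v (Sum.inl (Sum.inr (t, i))))
    (fun j => v (Sum.inr j))

end Pool.Agent.Lib_helper20.SRO
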