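import Pool.Agent.Lib_helper20.LG.AvoidLB
import Pool.Agent.Lib_helper45.SRO.U3

/-!
The lower bounds for the majority and its complement.
-/

namespace Pool.Agent.Lib_helper20.LG

open Finset Pool.Agent.Lib_helper20.SRO Pool.Agent.Lib_helper45.SRO

/-- the coefficients: the given subspaces, the parity, trivial equations -/
def coM {n : ℕ} (M : Fin (subs n) → Fin (codim n) → Fin n → Bool) (t : Fin (2 * subs n + 1))
    (i : Fin (codim n)) (j : Fin n) : Bool :=
  if h : t.val < subs n then M ⟨t.val, h⟩ i j else decide (t.val = subs n ∧ i.val = 0)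

/-- the right sides -/
def coS {n : ℕ} (s : Fin (subs n) → Fin (codim n) → Bool) (t : Fin (2 * subs n + 1))
    (i : Fin (codim n)) : Bool :=
  if h : t.val < subs n then s ⟨t.val, h⟩ i else decide (t.val = subs n ∧ i.val = 0)

variable {n : ℕ} (M : Fin (subs n) → Fin (codim n) → Fin n → Bool)
  (s : Fin (subs n) → Fin (codim n) → Bool)

lemma in_lt (t : Fin (2 * subs n + 1)) (h : t.val < subs n) (b : Fin n → Bool) :
    inSub (coM M t) (coS s t) b = inSub (M ⟨t.val, h⟩) (s ⟨t.val, h⟩) b := by
  have h1 : coM M t = M ⟨t.val, h⟩ := by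
    funext i j
    simp [coM, h]
  have h2 : coS s t = s ⟨t.val, h⟩ := by
    funext i
    simp [coS, h]
  rw [h1, h2]

lemma in_gt (t : Fin (2 * subs n + 1)) (h : subs n < t.val) (b : Fin n → Bool) :
    inSub (coM M t) (coS s t) b = true := by
  unfold inSub
  rw [decide_eq_true_iff]
  intro i
  have h2 : ¬ t.val < subs n := by omega
  have h3 : t.val ≠ subs n := by omega
  have h1 : coM M t i = fun _ => false := by
    funext j
    simp [coM, h2, h3]
  rw [h1]
  simp [dot, coS, h2, h3]

lemma in_eq (t : Fin (2 * subs n + 1)) (h : t.val = subs n) (b : Fin n → Bool) :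
    inSub (coM M t) (coS s t) b = !evenWeight b := by
  have hd : 0 < codim n := by unfold codim; omega
  have h2 : ¬ t.val < subs n := by omega
  have h1 : ∀ i, coM M t i = fun _ => decide (i.val = 0) := by
    intro i
    funext j
    simp [coM, h]
  have h4 : ∀ i, coS s t i = decide (i.val = 0) := by
    intro i
    simp [coS, h]
  rw [Bool.eq_iff_iff]
  unfold inSub
  rw [decide_eq_true_iff, Bool.not_eq_true', ← Bool.not_eq_true, Pool.Agent.Lib_helper45.SRO.par_eq]
  have h5 : ∀ z : ZMod 2, ¬ z = 0 ↔ z = 1 := by decide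
  have h6 : dot (fun _ => true) b = Pool.Agent.Lib_helper45.SRO.par b := by
    simp [dot, Pool.Agent.Lib_helper45.SRO.par]
  rw [h5]
  constructor
  · intro h7
    have h8 := h7 ⟨0, hd⟩
    rw [h1, h4] at h8
    simp only [decide_true, if_true] at h8
    rwa [h6] at h8
  · intro h7 i
    rw [h1, h4]
    by_cases hi : i.val = 0
    · simp only [hi, decide_true, if_true]
      rw [h6]
      exact h7
    · simp [hi, dot]

/-- the conditions that fail -/
def miss (b : Fin n → Bool) : Finset (Fin (2 * subs n + 1)) :=
  univ.filter (fun t => inSub (coM M t) (coS s t) b = false)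

lemma card_mid : (univ.filter (fun t : Fin (2 * subs n + 1) => t.val ≤ subs n)).card =
    subs n + 1 := by
  have h : (univ.filter (fun t : Fin (2 * subs n + 1) => t.val ≤ subs n)) =
      Finset.Iic (⟨subs n, by omega⟩ : Fin (2 * subs n + 1)) := by
    ext t
    simp [Fin.le_def]
  rw [h, Fin.card_Iic]

lemma miss_iff (b : Fin n → Bool) :
    2 * subs n + 1 < 2 * (miss M s b).card ↔ avoid M s b = true := by
  have hsub : miss M s b ⊆ univ.filter (fun t : Fin (2 * subs n + 1) => t.val ≤ subs n) := by
    intro t ht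
    rw [miss, mem_filter] at ht
    rw [mem_filter]
    refine ⟨mem_univ _, ?_⟩
    by_contra hcon
    rw [in_gt M s t (by omega)] at ht
    exact Bool.true_eq_false_eq_False ht.2
  have hiff : 2 * subs n + 1 < 2 * (miss M s b).card ↔
      miss M s b = univ.filter (fun t : Fin (2 * subs n + 1) => t.val ≤ subs n) := by
    constructor
    · intro h
      apply Finset.eq_of_subset_of_card_le hsub
      rw [card_mid]
      omega
    · intro h
      rw [h, card_mid]
      omega
  rw [hiff]
  unfold avoid
  rw [Bool.and_eq_true, decide_eq_true_iff]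
  constructor
  · intro h
    constructor
    · have h1 : (⟨subs n, by omega⟩ : Fin (2 * subs n + 1)) ∈ miss M s b := by
        rw [h, mem_filter]
        exact ⟨mem_univ _, le_rfl⟩
      rw [miss, mem_filter, in_eq M s _ rfl] at h1
      simpa using h1.2
    · intro t
      have ht2 : t.val < 2 * subs n + 1 := by have := t.2; omega
      have h1 : (⟨t.val, ht2⟩ : Fin (2 * subs n + 1)) ∈ miss M s b := by
        rw [h, mem_filter]
        exact ⟨mem_univ _, t.2.le⟩
      rw [miss, mem_filter, in_lt M s _ t.2] at h1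
      exact h1.2
  · rintro ⟨hp, hq⟩
    apply Finset.Subset.antisymm hsub
    intro t ht
    rw [mem_filter] at ht
    rw [miss, mem_filter]
    refine ⟨mem_univ _, ?_⟩
    rcases Nat.lt_or_eq_of_le ht.2 with h1 | h1
    · rw [in_lt M s t h1, hq ⟨t.val, h1⟩]
    · rw [in_eq M s t h1, hp]
      rfl

/-- The lower bound for the majority and its complement. -/
theorem majA_lower (hA : StmtAvoid) {k n : ℕ} (hk : 1 ≤ k) (hn : (k + 1) ^ (1232 * k ^ 2) ≤ n)
    (N : Type) [Fintype N] (G : NBP (VarM n) N) (a : ℕ) (hacc : G.AccessPatterns a)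
    (htests : G.FewTests (k * n))
    (hcomp : G.Computes (majA n) ∨ G.Computes (fun v => !majA n v)) :
    (2 : ℝ) ^ ((n : ℝ) / (k + 1) ^ (1232 * k ^ 2)) ≤ a * Fintype.card N := by
  obtain ⟨M, s, h⟩ := avoid_lower hA hk hn
  let α : Bool → ((Fin (2 * subs n + 1) × Fin (codim n) × Fin n) ⊕
      (Fin (2 * subs n + 1) × Fin (codim n))) ⊕ Fin (2 * subs n + 1) → Bool := fun p =>
    Sum.elim (Sum.elim (fun q => coM M q.1 q.2.1 q.2.2) (fun q => coS s q.1 q.2)) (fun _ => p)
  have key : ∀ (p : Bool) (b : Fin n → Bool), majA n (Sum.elim (α p) b) =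
      decide (2 * subs n + 1 < 2 * (univ.filter (fun t : Fin (2 * subs n + 1) =>
        inSub (coM M t) (coS s t) b ≠ p)).card) := fun p b => rfl
  have key1 : ∀ b, majA n (Sum.elim (α true) b) = avoid M s b := by
    intro b
    rw [key, Bool.eq_iff_iff, decide_eq_true_iff, ← miss_iff]
    simp only [miss, ne_eq, Bool.not_eq_true]
  have key2 : ∀ b, (!majA n (Sum.elim (α false) b)) = avoid M s b := by
    intro b
    rw [key, Bool.eq_iff_iff, Bool.not_eq_true', decide_eq_false_iff_not, ← miss_iff]
    have h1 := Finset.card_filter_add_card_filter_not (s := (univ : Finset (Fin (2 * subs n + 1))))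
      (fun t => inSub (coM M t) (coS s t) b = false)
    rw [card_univ, Fintype.card_fin] at h1
    simp only [miss, ne_eq]
    omega
  rcases hcomp with hcomp | hcomp
  · refine h N (fixW G (α true)) a (fixW_access _ hacc) (fixW_few _ htests) ?_
    have h1 := fixW_computes (α true) hcomp
    simp only [key1] at h1
    exact h1
  · refine h N (fixW G (α false)) a (fixW_access _ hacc) (fixW_few _ htests) ?_
    have h1 := fixW_computes (α false) hcomp
    simp only [key2] at h1
    exact h1

end Pool.Agent.Lib_helper20.LG
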