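import Pool.Agent.Lib_helper20.LG.Model

/-!
# The majority of conditions
-/

namespace Pool.Agent.Lib_helper20.SRO

open Finset

/-- The input variables: coefficients and right sides of the equations, polarities, the point. -/
abbrev VarM (n : ℕ) : Type :=
  (((Fin (2 * subs n + 1) × Fin (codim n) × Fin n) ⊕ (Fin (2 * subs n + 1) × Fin (codim n))) ⊕
    Fin (2 * subs n + 1)) ⊕ Fin n

/-- More than half of the `2 subs n + 1` conditions hold at the point; a condition asks that the point
is in an affine subspace, or the negation of this (if the polarity bit is `true`). -/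
def majA (n : ℕ) (v : VarM n → Bool) : Bool :=
  decide (2 * subs n + 1 < 2 * (univ.filter (fun t : Fin (2 * subs n + 1) =>
    inSub (fun i j => v (Sum.inl (Sum.inl (Sum.inl (t, i, j)))))
      (fun i => v (Sum.inl (Sum.inl (Sum.inr (t, i))))) (fun j => v (Sum.inr j)) ≠
        v (Sum.inl (Sum.inr t)))).card)

end Pool.Agent.Lib_helper20.SRO
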