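import Pool.Agent.Lib_helper20.LG.Defs
import Pool.Agent.Lib_helper20.LG.ModelM

/-!
Interfaces of the modules on the functions that avoid affine subspaces.
-/

namespace Pool.Agent.Lib_helper20.LG

open Finset Pool.Agent.Lib_helper20.SRO

/-- Module Avoid: random subspaces. -/
def StmtAvoid : Prop := ∀ n : ℕ, 16 ≤ n → ∃ (M : Fin (subs n) → Fin (codim n) → Fin n → Bool)
    (s : Fin (subs n) → Fin (codim n) → Bool), RectFree (avoid M s) (2 ^ (Nat.log 2 n + 1)) ∧
      2 ^ n ≤ 2 ^ 12 * (univ.filter (fun b => avoid M s b = true)).card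

/-- Module ComplA: the complement of `avoidF n`, with one access pattern. -/
def StmtComplA : Prop := ∀ n : ℕ, 16 ≤ n → ∃ (N : Type) (_ : Fintype N) (G : NBP (VarA n) N),
    G.SyntacticReadOnce ∧ G.AccessPatterns 1 ∧ G.Computes (fun v => !avoidF n v) ∧
    Fintype.card N ≤ Fintype.card (VarA n) ^ 2

end Pool.Agent.Lib_helper20.LG
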