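import Pool.Agent.Lib_helper20.LG.Cls
import Pool.Agent.Lib_helper20.LG.Defs2
import Pool.Agent.Lib_helper45.SRO.R

/-!
Fixing the variables of the first kind.
-/

namespace Pool.Agent.Lib_helper20.LG

open Finset Pool.Agent.Lib_helper20.SRO Pool.Agent.Lib_helper45.SRO

variable {W : Type} {n : ℕ} {N : Type}

lemma agrees_proj {a : W → Bool} {b : Fin n → Bool} {l : List ((W ⊕ Fin n) × Bool)}
    (h : Agrees (Sum.elim a b) l) : Agrees b (proj l) := by
  rintro ⟨x, c⟩ hp
  exact h (Sum.inr x, c) (mem_proj.1 hp)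

lemma length_proj (l : List ((W ⊕ Fin n) × Bool)) :
    (proj l).length = l.countP (fun p => p.1.isRight) := by
  induction l with
  | nil => simp [proj]
  | cons p l ih =>
    obtain ⟨y | y, d⟩ := p
    · simp [proj, ih]
    · simp [proj, ih]

theorem fixW_accepts (G : NBP (W ⊕ Fin n) N) (a : W → Bool) (b : Fin n → Bool) :
    (fixW G a).Accepts b ↔ G.Accepts (Sum.elim a b) := by
  constructor
  · rintro ⟨l', hl', hb⟩
    obtain ⟨l, hl, hp, ha⟩ := walk_lift hl'
    refine ⟨l, hl, agrees_elim ?_ ha⟩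
    rw [hp]
    exact hb
  · rintro ⟨l, hl, hb⟩
    exact ⟨proj l, walk_fix hl (fun y c h => (hb (Sum.inl y, c) h).symm), agrees_proj hb⟩

theorem fixW_computes {G : NBP (W ⊕ Fin n) N} (a : W → Bool) {F : (W ⊕ Fin n → Bool) → Bool}
    (hF : G.Computes F) : (fixW G a).Computes (fun b => F (Sum.elim a b)) := by
  intro b
  rw [fixW_accepts, hF]

theorem fixW_access {G : NBP (W ⊕ Fin n) N} (a : W → Bool) {m : ℕ} (hG : G.AccessPatterns m)
    (b : Fin n → Bool) (u v : N) :
    {V | ∃ l, Walk (fixW G a) u v l ∧ Agrees b l ∧ vars l = V}.encard ≤ m := by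
  refine le_trans ?_ (hG (Sum.elim a b) u v)
  rw [← Function.Injective.encard_image (f := fun V : Finset (Fin n) => (V : Set (Fin n)))
    Finset.coe_injective]
  apply Set.encard_le_encard
  rintro _ ⟨V, ⟨l', hl', hb, hV⟩, rfl⟩
  obtain ⟨l, hl, hp, ha⟩ := walk_lift hl'
  refine ⟨l, hl, agrees_elim ?_ ha, ?_⟩
  · rw [hp]
    exact hb
  · ext x
    rw [← hV, Finset.mem_coe, mem_vars, ← hp]
    simp only [mem_proj, Set.mem_ofPred_eq]

theorem fixW_few {G : NBP (W ⊕ Fin n) N} (a : W → Bool) {m : ℕ} (hG : G.FewTests m) :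
    ∀ b, (fixW G a).Accepts b → ∃ l, Walk (fixW G a) (fixW G a).source (fixW G a).sink l ∧
      Agrees b l ∧ l.length ≤ m := by
  intro b hb
  rw [fixW_accepts] at hb
  obtain ⟨l, hl, hbl, hm⟩ := hG _ hb
  refine ⟨proj l, walk_fix hl (fun y c h => (hbl (Sum.inl y, c) h).symm), agrees_proj hbl, ?_⟩
  rw [length_proj]
  exact hm

end Pool.Agent.Lib_helper20.LG
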