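import Pool.Agent.Lib_helper20.LG.Defs2
import Pool.Agent.Lib_helper45.SRO.F

/-!
# Avoiding random affine subspaces
-/

namespace Pool.Agent.Lib_helper20.LG

open Finset Pool.Agent.Lib_helper20.SRO

namespace Av

/-- a linear equation: coefficients and right side -/
abbrev Q (n : ℕ) : Type := (Fin n → Bool) × Bool

/-- the point `z` satisfies the equation `q` -/
def row {n : ℕ} (z : Fin n → Bool) (q : Q n) : Bool := decide (dot q.1 z = if q.2 then 1 else 0)

/-- the point `z` is in the subspace `p` -/
def hit {n d : ℕ} (z : Fin n → Bool) (p : Fin d → Q n) : Bool :=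
  inSub (fun i => (p i).1) (fun i => (p i).2) z

lemma hit_iff {n d : ℕ} (z : Fin n → Bool) (p : Fin d → Q n) :
    hit z p = true ↔ ∀ i, row z (p i) = true := by
  simp [hit, inSub, row]

lemma zmod_two (x : ZMod 2) : x = 0 ∨ x = 1 := by
  revert x; decide

lemma row_iff {n : ℕ} (z : Fin n → Bool) (q : Q n) :
    row z q = true ↔ q.2 = decide (dot q.1 z = 1) := by
  unfold row
  rcases zmod_two (dot q.1 z) with h | h <;> rw [h] <;> cases q.2 <;> simp

lemma card_row {n : ℕ} (z : Fin n → Bool) :
    (univ.filter (fun q : Q n => row z q = true)).card = 2 ^ n := by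
  have h1 : univ.filter (fun q : Q n => row z q = true)
      = univ.image (fun a : Fin n → Bool => ((a, decide (dot a z = 1)) : Q n)) := by
    ext q
    simp only [mem_filter, mem_univ, true_and, mem_image, row_iff]
    constructor
    · intro h
      exact ⟨q.1, by rw [← h]⟩
    · rintro ⟨a, rfl⟩
      rfl
  rw [h1, card_image_of_injective]
  · simp
  · intro a b hab
    exact (Prod.mk.inj hab).1

lemma dot_flip {n : ℕ} (a z : Fin n → Bool) (x : Fin n) :
    dot (flipAt a x) z = dot a z + if z x then 1 else 0 := by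
  unfold dot
  rw [← Finset.add_sum_erase univ _ (mem_univ x),
    ← Finset.add_sum_erase univ (fun i => if a i && z i then (1 : ZMod 2) else 0) (mem_univ x)]
  have h : ∑ i ∈ univ.erase x, (if flipAt a x i && z i then (1 : ZMod 2) else 0)
      = ∑ i ∈ univ.erase x, (if a i && z i then (1 : ZMod 2) else 0) := by
    refine Finset.sum_congr rfl fun i hi => ?_
    rw [flipAt, Function.update_of_ne (Finset.ne_of_mem_erase hi)]
  rw [h]
  have h2 : (if flipAt a x x && z x then (1 : ZMod 2) else 0)
      = (if a x && z x then (1 : ZMod 2) else 0) + if z x then 1 else 0 := by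
    rw [flipAt, Function.update_self]
    cases a x <;> cases z x <;> decide
  rw [h2]
  ring

lemma card_agree {n : ℕ} (z z' : Fin n → Bool) (h : z ≠ z') :
    2 * (univ.filter (fun a : Fin n → Bool => dot a z = dot a z')).card = 2 ^ n := by
  obtain ⟨x, hx⟩ := Function.ne_iff.mp h
  have key : ∀ a : Fin n → Bool, dot (flipAt a x) z = dot (flipAt a x) z' ↔ ¬ dot a z = dot a z' := by
    intro a
    rw [dot_flip, dot_flip]
    rcases zmod_two (dot a z) with h1 | h1 <;> rcases zmod_two (dot a z') with h2 | h2 <;>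
      rw [h1, h2] <;> revert hx <;> cases z x <;> cases z' x <;> decide
  have h1 : (univ.filter (fun a : Fin n → Bool => dot a z = dot a z')).card =
      (univ.filter (fun a : Fin n → Bool => ¬ dot a z = dot a z')).card := by
    refine card_bij (fun a _ => flipAt a x) ?_ ?_ ?_
    · intro a ha
      rw [mem_filter] at ha ⊢
      refine ⟨mem_univ _, ?_⟩
      rw [key]
      exact not_not.mpr ha.2
    · intro b _ b' _ h
      have := congrArg (fun c => flipAt c x) h
      simpa [Pool.Agent.Lib_helper45.SRO.flipAt_flipAt] using this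
    · intro b hb
      rw [mem_filter] at hb
      refine ⟨flipAt b x, ?_, Pool.Agent.Lib_helper45.SRO.flipAt_flipAt _ _⟩
      rw [mem_filter, key]
      exact ⟨mem_univ _, hb.2⟩
  have h2 := card_filter_add_card_filter_not (s := (univ : Finset (Fin n → Bool)))
    (fun a : Fin n → Bool => dot a z = dot a z')
  rw [card_univ, Fintype.card_fun, Fintype.card_bool, Fintype.card_fin] at h2
  omega

lemma card_row2 {n : ℕ} (z z' : Fin n → Bool) (h : z ≠ z') :
    2 * (univ.filter (fun q : Q n => row z q = true ∧ row z' q = true)).card = 2 ^ n := by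
  have h1 : univ.filter (fun q : Q n => row z q = true ∧ row z' q = true)
      = (univ.filter (fun a : Fin n → Bool => dot a z = dot a z')).image
          (fun a : Fin n → Bool => ((a, decide (dot a z = 1)) : Q n)) := by
    ext q
    simp only [mem_filter, mem_univ, true_and, mem_image, row_iff]
    constructor
    · rintro ⟨h, h'⟩
      refine ⟨q.1, ?_, by rw [← h]⟩
      rw [h] at h'
      rcases zmod_two (dot q.1 z) with h1 | h1 <;> rcases zmod_two (dot q.1 z') with h2 | h2 <;>
        rw [h1, h2] at h' ⊢ <;> revert h' <;> decide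
    · rintro ⟨a, ha, rfl⟩
      simp [ha]
  rw [h1, card_image_of_injective, card_agree z z' h]
  intro a b hab
  exact (Prod.mk.inj hab).1

/-- number of functions with all values in `A` -/
lemma card_all {α : Type} [Fintype α] {d : ℕ} (f : α → Prop) [DecidablePred f] :
    (univ.filter (fun p : Fin d → α => ∀ i, f (p i))).card
      = (univ.filter (fun a : α => f a)).card ^ d := by
  have h1 : univ.filter (fun p : Fin d → α => ∀ i, f (p i))
      = Fintype.piFinset (fun _ : Fin d => univ.filter (fun a : α => f a)) := by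
    ext p
    simp [Fintype.mem_piFinset]
  rw [h1, Fintype.card_piFinset]
  simp

lemma card_hit {n d : ℕ} (z : Fin n → Bool) :
    (univ.filter (fun p : Fin d → Q n => hit z p = true)).card = (2 ^ n) ^ d := by
  simp only [hit_iff]
  rw [card_all (fun q : Q n => row z q = true), card_row]

lemma card_hit2 {n d : ℕ} (z z' : Fin n → Bool) (h : z ≠ z') :
    2 ^ d * (univ.filter (fun p : Fin d → Q n => hit z p = true ∧ hit z' p = true)).card
      = (2 ^ n) ^ d := by
  simp only [hit_iff, ← forall_and]
  rw [card_all (fun q : Q n => row z q = true ∧ row z' q = true), ← mul_pow, card_row2 z z' h]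

lemma card_P {n d : ℕ} : Fintype.card (Fin d → Q n) = 2 ^ d * (2 ^ n) ^ d := by
  rw [Fintype.card_fun, Fintype.card_prod, Fintype.card_fun, Fintype.card_bool, Fintype.card_fin,
    Fintype.card_fin, mul_pow, mul_comm]

/-- at most half of the subspaces miss a set of `2^d` points -/
lemma card_miss {n d : ℕ} (Z : Finset (Fin n → Bool)) (hZ : Z.card = 2 ^ d) :
    2 * (univ.filter (fun p : Fin d → Q n => ∀ z ∈ Z, hit z p = false)).card
      ≤ Fintype.card (Fin d → Q n) := by
  set H : (Fin d → Q n) → ℕ := fun p => (Z.filter (fun z => hit z p = true)).card with hH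
  have s1 : ∑ p, H p = Fintype.card (Fin d → Q n) := by
    have : ∀ p, H p = ∑ z ∈ Z, if hit z p = true then 1 else 0 := by
      intro p
      simp only [hH, card_filter]
    rw [Finset.sum_congr rfl (fun p _ => this p), Finset.sum_comm]
    have : ∀ z ∈ Z, ∑ p : Fin d → Q n, (if hit z p = true then 1 else 0) = (2 ^ n) ^ d := by
      intro z _
      rw [← card_filter, card_hit]
    rw [Finset.sum_congr rfl this, Finset.sum_const, smul_eq_mul, hZ, card_P]
  have s2 : ∑ p, H p ^ 2 ≤ 2 * Fintype.card (Fin d → Q n) := by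
    have e1 : ∀ p, H p ^ 2 = ∑ z ∈ Z, ∑ z' ∈ Z, if hit z p = true ∧ hit z' p = true then 1 else 0 := by
      intro p
      have : H p = ∑ z ∈ Z, if hit z p = true then 1 else 0 := by
        simp only [hH, card_filter]
      rw [this, sq, Finset.sum_mul_sum]
      refine Finset.sum_congr rfl fun z _ => Finset.sum_congr rfl fun z' _ => ?_
      by_cases h1 : hit z p = true <;> by_cases h2 : hit z' p = true <;> simp [h1, h2]
    rw [Finset.sum_congr rfl (fun p _ => e1 p), Finset.sum_comm]
    have e2 : ∀ z ∈ Z, ∑ p : Fin d → Q n, ∑ z' ∈ Z,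
        (if hit z p = true ∧ hit z' p = true then 1 else 0) ≤ 2 * (2 ^ n) ^ d := by
      intro z hz
      rw [Finset.sum_comm]
      have e3 : ∀ z' ∈ Z, ∑ p : Fin d → Q n,
          (if hit z p = true ∧ hit z' p = true then 1 else 0) =
          if z = z' then (2 ^ n) ^ d else
            (univ.filter (fun p : Fin d → Q n => hit z p = true ∧ hit z' p = true)).card := by
        intro z' _
        rw [← card_filter]
        by_cases h : z = z'
        · subst h
          rw [if_pos rfl]
          simp only [and_self]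
          exact card_hit z
        · rw [if_neg h]
      rw [Finset.sum_congr rfl e3, ← Finset.add_sum_erase Z _ hz, if_pos rfl, two_mul]
      refine Nat.add_le_add_left ?_ _
      have e4 : 2 ^ d * ∑ z' ∈ Z.erase z, (if z = z' then (2 ^ n) ^ d else
            (univ.filter (fun p : Fin d → Q n => hit z p = true ∧ hit z' p = true)).card)
          = (Z.erase z).card * (2 ^ n) ^ d := by
        rw [Finset.mul_sum]
        have : ∀ z' ∈ Z.erase z, 2 ^ d * (if z = z' then (2 ^ n) ^ d else
            (univ.filter (fun p : Fin d → Q n => hit z p = true ∧ hit z' p = true)).card)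
            = (2 ^ n) ^ d := by
          intro z' hz'
          have h : z ≠ z' := (Finset.ne_of_mem_erase hz').symm
          rw [if_neg h, card_hit2 z z' h]
        rw [Finset.sum_congr rfl this, Finset.sum_const, smul_eq_mul]
      have e5 : (Z.erase z).card ≤ 2 ^ d := by
        rw [← hZ]; exact card_le_card (Finset.erase_subset _ _)
      have e6 : (Z.erase z).card * (2 ^ n) ^ d ≤ 2 ^ d * (2 ^ n) ^ d := Nat.mul_le_mul_right _ e5
      rw [← e4] at e6
      exact Nat.le_of_mul_le_mul_left e6 (by positivity)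
    refine (Finset.sum_le_sum e2).trans ?_
    rw [Finset.sum_const, smul_eq_mul, hZ, card_P]
    apply le_of_eq
    ring
  have s3 : ∀ p, 4 * H p ≤ H p ^ 2 + 4 * (if H p ≠ 0 then 1 else 0) := by
    intro p
    by_cases h : H p = 0
    · simp [h]
    · rw [if_pos h]
      have : 1 ≤ H p := Nat.one_le_iff_ne_zero.mpr h
      nlinarith [sq_nonneg ((H p : ℤ) - 2)]
  have s4 := Finset.sum_le_sum (s := univ) (fun p _ => s3 p)
  rw [← Finset.mul_sum, Finset.sum_add_distrib, ← Finset.mul_sum, ← card_filter, s1] at s4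
  have s5 := card_filter_add_card_filter_not (s := (univ : Finset (Fin d → Q n)))
    (fun p => H p ≠ 0)
  rw [card_univ] at s5
  have s6 : univ.filter (fun p : Fin d → Q n => ∀ z ∈ Z, hit z p = false)
      = univ.filter (fun p => ¬ H p ≠ 0) := by
    ext p
    simp only [mem_filter, mem_univ, true_and, not_not, hH, card_eq_zero, filter_eq_empty_iff]
    refine forall_congr' fun z => forall_congr' fun _ => ?_
    simp
  rw [s6]
  omega

/-- few families miss a set of `2^d` points -/
lemma card_missT {n d T : ℕ} (Z : Finset (Fin n → Bool)) (hZ : Z.card = 2 ^ d) :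
    2 ^ T * (univ.filter (fun P : Fin T → Fin d → Q n => ∀ t, ∀ z ∈ Z, hit z (P t) = false)).card
      ≤ Fintype.card (Fin T → Fin d → Q n) := by
  rw [card_all (fun p : Fin d → Q n => ∀ z ∈ Z, hit z p = false), ← mul_pow,
    Fintype.card_fun (α := Fin T), Fintype.card_fin]
  exact Nat.pow_le_pow_left (card_miss Z hZ) T

lemma card_offT {n d T : ℕ} (z : Fin n → Bool) :
    (univ.filter (fun P : Fin T → Fin d → Q n => ∀ t, hit z (P t) = false)).card
      = ((2 ^ d - 1) * (2 ^ n) ^ d) ^ T := by
  rw [card_all (fun p : Fin d → Q n => hit z p = false)]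
  congr 1
  have h1 := card_filter_add_card_filter_not (s := (univ : Finset (Fin d → Q n)))
    (fun p => hit z p = true)
  rw [card_univ, card_hit, card_P] at h1
  have h2 : univ.filter (fun p : Fin d → Q n => hit z p = false)
      = univ.filter (fun p => ¬ hit z p = true) := by
    ext p; simp
  rw [h2, Nat.sub_mul, one_mul]
  omega

lemma frac {D T E : ℕ} (hD : D = 2 * E) (hE : 0 < E) (hT : T ≤ 5 * D) :
    D ^ T ≤ 2 ^ 10 * (D - 1) ^ T := by
  have hE' : (0 : ℝ) < E := by exact_mod_cast hE
  have hE1 : (1 : ℝ) ≤ E := by exact_mod_cast hE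
  have hD' : (D : ℝ) = 2 * E := by exact_mod_cast hD
  have hD0 : (0 : ℝ) < D := by rw [hD']; positivity
  set r : ℝ := 1 - 1 / D with hr
  have hr2 : 1 / (D : ℝ) ≤ 1 / 2 := by
    apply one_div_le_one_div_of_le (by norm_num)
    rw [hD']; linarith
  have hr0 : 0 < r := by rw [hr]; linarith
  have hr1 : r ≤ 1 := by
    have : 0 < 1 / (D : ℝ) := by positivity
    rw [hr]; linarith
  have b1 : 1 / 2 ≤ r ^ E := by
    have h := one_add_mul_le_pow (a := -(1 / (D : ℝ))) (by linarith) E
    have e : 1 + (E : ℝ) * -(1 / (D : ℝ)) = 1 / 2 := by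
      rw [hD']; field_simp; ring
    rw [e] at h
    have e2 : 1 + -(1 / (D : ℝ)) = r := by rw [hr]; ring
    rwa [e2] at h
  have b2 : (1 / 2 : ℝ) ^ 10 ≤ r ^ (5 * D) := by
    have : r ^ (5 * D) = (r ^ E) ^ 10 := by
      rw [← pow_mul]; congr 1; omega
    rw [this]
    exact pow_le_pow_left₀ (by norm_num) b1 10
  have b3 : (1 / 2 : ℝ) ^ 10 ≤ r ^ T := b2.trans (pow_le_pow_of_le_one hr0.le hr1 hT)
  have hDn : 1 ≤ D := by omega
  have b4 : (D : ℝ) ^ T ≤ 2 ^ 10 * ((D - 1 : ℕ) : ℝ) ^ T := by
    have e : ((D - 1 : ℕ) : ℝ) = D * r := by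
      push_cast [hDn]
      rw [hr]; field_simp
    rw [e, mul_pow]
    have : (D : ℝ) ^ T * 1 ≤ (D : ℝ) ^ T * (2 ^ 10 * r ^ T) := by
      refine mul_le_mul_of_nonneg_left ?_ (by positivity)
      have := mul_le_mul_of_nonneg_left b3 (show (0 : ℝ) ≤ 2 ^ 10 by positivity)
      refine le_trans ?_ this
      norm_num
    linarith
  exact_mod_cast b4

/-- the combination of two points -/
def mix {n : ℕ} (U : Finset (Fin n)) (a a' : Fin n → Bool) : Fin n → Bool :=
  fun x => if x ∈ U then a x else a' x

/-- the points of a rectangle -/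
def Zof {n m : ℕ} (i : Finset (Fin n) × (Fin m → Fin n → Bool) × (Fin m → Fin n → Bool)) :
    Finset (Fin n → Bool) :=
  (univ : Finset (Fin m × Fin m)).image (fun j => mix i.1 (i.2.1 j.1) (i.2.2 j.2))

lemma rect {n m d T : ℕ} (hm : m * m = 2 ^ d) (P : Fin T → Fin d → Q n)
    (hP : ¬ RectFree (avoid (fun t i => (P t i).1) (fun t i => (P t i).2)) m) :
    ∃ i : Finset (Fin n) × (Fin m → Fin n → Bool) × (Fin m → Fin n → Bool),
      (Zof i).card = 2 ^ d ∧ ∀ t, ∀ z ∈ Zof i, hit z (P t) = false := by
  unfold RectFree at hP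
  push Not at hP
  obtain ⟨U, X, Y, hX, hY, hmX, hmY, h⟩ := hP
  obtain ⟨X', hX', hX'c⟩ := Finset.exists_subset_card_eq hmX
  obtain ⟨Y', hY', hY'c⟩ := Finset.exists_subset_card_eq hmY
  set x : Fin m → Fin n → Bool := fun i => ((X'.equivFinOfCardEq hX'c).symm i : Fin n → Bool)
    with hx
  set y : Fin m → Fin n → Bool := fun i => ((Y'.equivFinOfCardEq hY'c).symm i : Fin n → Bool)
    with hy
  have hxi : Function.Injective x := by
    intro i j hij
    exact (X'.equivFinOfCardEq hX'c).symm.injective (Subtype.ext hij)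
  have hyi : Function.Injective y := by
    intro i j hij
    exact (Y'.equivFinOfCardEq hY'c).symm.injective (Subtype.ext hij)
  have hxX : ∀ i, x i ∈ X := fun i => hX' ((X'.equivFinOfCardEq hX'c).symm i).2
  have hyY : ∀ i, y i ∈ Y := fun i => hY' ((Y'.equivFinOfCardEq hY'c).symm i).2
  refine ⟨(U, x, y), ?_, ?_⟩
  · rw [Zof, card_image_of_injective]
    · rw [card_univ, Fintype.card_prod, Fintype.card_fin, hm]
    · rintro ⟨i, j⟩ ⟨i', j'⟩ hij
      simp only at hij
      have e1 : x i = x i' := by
        funext c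
        by_cases hc : c ∈ U
        · have := congrFun hij c
          simpa [mix, hc] using this
        · rw [hX _ (hxX i) c hc, hX _ (hxX i') c hc]
      have e2 : y j = y j' := by
        funext c
        by_cases hc : c ∈ U
        · rw [hY _ (hyY j) c hc, hY _ (hyY j') c hc]
        · have := congrFun hij c
          simpa [mix, hc] using this
      rw [hxi e1, hyi e2]
  · intro t z hz
    rw [Zof, mem_image] at hz
    obtain ⟨j, -, rfl⟩ := hz
    have h1 := h (x j.1) (hxX _) (y j.2) (hyY _)
    have h2 : avoid (fun t i => (P t i).1) (fun t i => (P t i).2) (mix U (x j.1) (y j.2)) = true :=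
      Bool.eq_true_of_not_eq_false h1
    rw [avoid, Bool.and_eq_true, decide_eq_true_eq] at h2
    exact h2.2 t

end Av

/-- Module Avoid. -/
theorem stmtAvoid : StmtAvoid := by
  classical
  intro n hn
  set L := Nat.log 2 n + 1 with hL
  set m := 2 ^ L with hm
  have hm1 : n < m := Nat.lt_pow_succ_log_self (by norm_num) n
  have hm2 : m ≤ 2 * n := by
    rw [hm, hL, pow_succ]
    have := Nat.pow_log_le_self 2 (show n ≠ 0 by omega)
    omega
  have hd : codim n = 2 * L := rfl
  have hmm : m * m = 2 ^ codim n := by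
    rw [hd, hm, ← pow_add, two_mul]
  have hn2 : n ^ 2 ≤ 2 ^ codim n := by
    rw [← hmm, sq]
    exact Nat.mul_le_mul hm1.le hm1.le
  set d := codim n with hdd
  set T := subs n with hT
  have hTn : T = 5 * n ^ 2 := rfl
  by_contra hcon
  push Not at hcon
  set Ω := Fintype.card (Fin T → Fin d → Av.Q n) with hΩ
  have hΩ0 : 0 < Ω := Fintype.card_pos
  -- the bad families
  set B : Finset (Fin T → Fin d → Av.Q n) := univ.filter (fun P =>
    ¬ RectFree (avoid (fun t i => (P t i).1) (fun t i => (P t i).2)) m) with hB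
  have hBcard : 2 ^ T * B.card ≤ 2 ^ (4 * n ^ 2 + n) * Ω := by
    set I := (univ : Finset (Finset (Fin n) × (Fin m → Fin n → Bool) × (Fin m → Fin n → Bool))).filter
      (fun i => (Av.Zof i).card = 2 ^ d) with hI
    have h1 : B ⊆ I.biUnion (fun i => univ.filter
        (fun P : Fin T → Fin d → Av.Q n => ∀ t, ∀ z ∈ Av.Zof i, Av.hit z (P t) = false)) := by
      intro P hP
      rw [hB, mem_filter] at hP
      obtain ⟨i, hi1, hi2⟩ := Av.rect hmm P hP.2
      rw [mem_biUnion]
      refine ⟨i, ?_, ?_⟩
      · rw [hI, mem_filter]; exact ⟨mem_univ _, hi1⟩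
      · rw [mem_filter]; exact ⟨mem_univ _, hi2⟩
    have h2 : 2 ^ T * B.card ≤ ∑ i ∈ I, Ω := by
      refine (Nat.mul_le_mul_left _ ((card_le_card h1).trans card_biUnion_le)).trans ?_
      rw [Finset.mul_sum]
      refine Finset.sum_le_sum fun i hi => ?_
      exact Av.card_missT _ (mem_filter.mp hi).2
    rw [Finset.sum_const, smul_eq_mul] at h2
    refine h2.trans (Nat.mul_le_mul_right _ ?_)
    refine (card_filter_le _ _).trans ?_
    rw [card_univ]
    simp only [Fintype.card_prod, Fintype.card_finset, Fintype.card_fin, Fintype.card_fun,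
      Fintype.card_bool]
    rw [← pow_mul, ← pow_add, ← pow_add]
    refine Nat.pow_le_pow_right (by norm_num) ?_
    nlinarith
  -- the sum of the numbers of accepted points
  set acc : (Fin T → Fin d → Av.Q n) → ℕ := fun P =>
    (univ.filter (fun b => avoid (fun t i => (P t i).1) (fun t i => (P t i).2) b = true)).card
    with hacc
  have hup : ∀ P, 2 ^ 12 * acc P ≤ (if P ∈ B then 2 ^ 12 * 2 ^ n else 0) + 2 ^ n := by
    intro P
    by_cases hP : P ∈ B
    · rw [if_pos hP]
      have : acc P ≤ 2 ^ n := by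
        refine (card_filter_le _ _).trans ?_
        rw [card_univ]; simp
      have := Nat.mul_le_mul_left (2 ^ 12) this
      omega
    · rw [if_neg hP, zero_add]
      rw [hB, mem_filter, not_and, not_not] at hP
      exact (hcon _ _ (hP (mem_univ _))).le
  have hsum1 : 2 ^ 12 * ∑ P, acc P ≤ B.card * (2 ^ 12 * 2 ^ n) + Ω * 2 ^ n := by
    rw [Finset.mul_sum]
    refine (Finset.sum_le_sum (fun P _ => hup P)).trans ?_
    rw [Finset.sum_add_distrib, Finset.sum_ite_mem, Finset.univ_inter, Finset.sum_const,
      Finset.sum_const, smul_eq_mul, smul_eq_mul, card_univ]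
  have hoff : ∀ b : Fin n → Bool, Ω ≤ 2 ^ 10 *
      (univ.filter (fun P : Fin T → Fin d → Av.Q n => ∀ t, Av.hit b (P t) = false)).card := by
    intro b
    rw [Av.card_offT, hΩ, Fintype.card_fun (α := Fin T), Fintype.card_fin, Av.card_P, mul_pow,
      mul_pow, ← mul_assoc]
    refine Nat.mul_le_mul_right _ ?_
    refine Av.frac (E := 2 ^ (2 * Nat.log 2 n + 1)) ?_ (by positivity) ?_
    · rw [hd, hL, ← pow_succ']
      congr 1
    · rw [hTn]; omega
  have hsum2 : 2 ^ n * Ω ≤ 2 ^ 11 * ∑ P, acc P := by
    have e1 : ∑ P, acc P = ∑ b ∈ univ.filter (fun b : Fin n → Bool => evenWeight b = true),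
        (univ.filter (fun P : Fin T → Fin d → Av.Q n => ∀ t, Av.hit b (P t) = false)).card := by
      have e2 : ∀ P, acc P = ∑ b ∈ univ.filter (fun b : Fin n → Bool => evenWeight b = true),
          if (∀ t, Av.hit b (P t) = false) then 1 else 0 := by
        intro P
        rw [← card_filter, filter_filter]
        simp only [hacc]
        refine congrArg Finset.card (Finset.filter_congr fun b _ => ?_)
        simp only [avoid, Bool.and_eq_true, decide_eq_true_eq]
        rfl
      rw [Finset.sum_congr rfl (fun P _ => e2 P), Finset.sum_comm]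
      refine Finset.sum_congr rfl fun b _ => ?_
      rw [← card_filter]
    have e3 : (univ.filter (fun b : Fin n → Bool => evenWeight b = true)).card * Ω
        ≤ 2 ^ 10 * ∑ P, acc P := by
      rw [e1, Finset.mul_sum, ← smul_eq_mul, ← Finset.sum_const]
      exact Finset.sum_le_sum (fun b _ => hoff b)
    have e4 := Pool.Agent.Lib_helper45.SRO.card_even (n := n) (by omega)
    rw [← e4]
    calc 2 * (univ.filter (fun b : Fin n → Bool => evenWeight b = true)).card * Ω
        = 2 * ((univ.filter (fun b : Fin n → Bool => evenWeight b = true)).card * Ω) := by ring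
      _ ≤ 2 * (2 ^ 10 * ∑ P, acc P) := Nat.mul_le_mul_left _ e3
      _ = 2 ^ 11 * ∑ P, acc P := by ring
  -- conclusion
  have f1 : 2 ^ n * Ω ≤ 2 ^ n * (2 ^ 12 * B.card) := by
    have : 2 ^ 12 * ∑ P, acc P = 2 * (2 ^ 11 * ∑ P, acc P) := by ring
    rw [this] at hsum1
    have h3 : B.card * (2 ^ 12 * 2 ^ n) = 2 ^ n * (2 ^ 12 * B.card) := by ring
    have h4 : Ω * 2 ^ n = 2 ^ n * Ω := by ring
    rw [h3, h4] at hsum1
    omega
  have f2 : Ω ≤ 2 ^ 12 * B.card := Nat.le_of_mul_le_mul_left f1 (by positivity)
  have f3 : 2 ^ (4 * n ^ 2 + n) * (2 ^ 13 * B.card) ≤ 2 ^ (4 * n ^ 2 + n) * Ω := by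
    refine le_trans ?_ hBcard
    rw [← mul_assoc, ← pow_add]
    refine Nat.mul_le_mul_right _ (Nat.pow_le_pow_right (by norm_num) ?_)
    rw [hTn]
    nlinarith
  have f4 : 2 ^ 13 * B.card ≤ Ω := Nat.le_of_mul_le_mul_left f3 (by positivity)
  omega

end Pool.Agent.Lib_helper20.LG
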