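import Pool.Agent.Lib_helper20.LG.Core
import Pool.Agent.Lib_helper20.LG.Restrict
import Pool.Agent.Lib_helper45.SRO.F

/-!
The lower bounds for the functions that avoid affine subspaces.
-/

namespace Pool.Agent.Lib_helper20.LG

open Finset Pool.Agent.Lib_helper20.SRO Pool.Agent.Lib_helper45.SRO

/-- the numbers -/
lemma numbers {k n : ℕ} (hk : 1 ≤ k) (hn : (k + 1) ^ (1232 * k ^ 2) ≤ n) :
    16 ≤ n ∧ bd k ≤ n ∧ ((Nat.log 2 n + 1 : ℕ) : ℝ) ≤ (n : ℝ) / bd k ∧
    (12 : ℝ) ≤ (n : ℝ) / bd k ∧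
    (n : ℝ) / (k + 1) ^ (1232 * k ^ 2) ≤ (n : ℝ) / bd k := by
  have hk2 : 1 ≤ k ^ 2 := Nat.one_le_pow _ _ hk
  have hb0 : 1 ≤ bd k := Nat.one_le_pow _ _ (Nat.succ_pos k)
  have hb1 : 2 ^ 100 ≤ bd k := by
    calc 2 ^ 100 ≤ (k + 1) ^ 100 := Nat.pow_le_pow_left (by omega) _
      _ ≤ bd k := Nat.pow_le_pow_right (Nat.succ_pos k) (by omega)
  have hb2 : bd k * bd k = (k + 1) ^ (1232 * k ^ 2) := by
    rw [bd, ← pow_add]
    congr 1
    ring
  have hbn : bd k * bd k ≤ n := by rw [hb2]; exact hn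
  have hbn1 : bd k ≤ n := le_trans (Nat.le_mul_of_pos_left _ hb0) hbn
  have h2n : 2 ^ 100 ≤ n := hb1.trans hbn1
  have hbr : (0 : ℝ) < bd k := by exact_mod_cast hb0
  have key : ∀ c : ℕ, c ^ 2 ≤ n → (c : ℝ) ≤ (n : ℝ) / bd k := by
    intro c hc
    rw [le_div_iff₀ hbr]
    have h1 : (c * bd k) ^ 2 ≤ n ^ 2 := by
      calc (c * bd k) ^ 2 = c ^ 2 * (bd k * bd k) := by ring
        _ ≤ n * n := Nat.mul_le_mul hc hbn
        _ = n ^ 2 := by ring
    have h2 : c * bd k ≤ n := (Nat.pow_le_pow_iff_left (by norm_num)).1 h1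
    exact_mod_cast h2
  have hn0 : n ≠ 0 := by omega
  have hl : 100 ≤ Nat.log 2 n := Nat.le_log_of_pow_le (by norm_num) h2n
  have hp : ∀ p : ℕ, 6 ≤ p → (p + 1) ^ 2 ≤ 2 ^ p := by
    intro p hp
    induction p, hp using Nat.le_induction with
    | base => norm_num
    | succ p hp ih =>
      rw [pow_succ 2 p]
      nlinarith
  have h144 : 2 ^ 8 ≤ n := le_trans (Nat.pow_le_pow_right (by norm_num) (by norm_num)) h2n
  refine ⟨by omega, hbn1, key _ ?_, ?_, ?_⟩
  · exact (hp _ (by omega)).trans (Nat.pow_log_le_self 2 hn0)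
  · have := key 12 (by omega)
    exact_mod_cast this
  · apply div_le_div_of_nonneg_left (Nat.cast_nonneg _) hbr
    have h3 : (bd k : ℝ) ≤ ((k + 1) ^ (1232 * k ^ 2) : ℕ) := by
      rw [← hb2]
      exact_mod_cast Nat.le_mul_of_pos_left _ hb0
    refine h3.trans (le_of_eq ?_)
    push_cast
    rfl

/-- The lower bound for suitable subspaces. -/
theorem avoid_lower (hA : StmtAvoid) {k n : ℕ} (hk : 1 ≤ k) (hn : (k + 1) ^ (1232 * k ^ 2) ≤ n) :
    ∃ (M : Fin (subs n) → Fin (codim n) → Fin n → Bool) (s : Fin (subs n) → Fin (codim n) → Bool),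
      ∀ (N : Type) [Fintype N] (G : NBP (Fin n) N) (a : ℕ),
        (∀ (b : Fin n → Bool) (u v : N),
          {V | ∃ l, Walk G u v l ∧ Agrees b l ∧ vars l = V}.encard ≤ a) →
        (∀ b, G.Accepts b → ∃ l, Walk G G.source G.sink l ∧ Agrees b l ∧ l.length ≤ k * n) →
        G.Computes (avoid M s) →
        (2 : ℝ) ^ ((n : ℝ) / (k + 1) ^ (1232 * k ^ 2)) ≤ a * Fintype.card N := by
  obtain ⟨h16, hn1, h1, h2, h3⟩ := numbers hk hn
  obtain ⟨M, s, hrect, hdense⟩ := hA n h16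
  refine ⟨M, s, ?_⟩
  intro N _ G a hamb htests hcomp
  refine le_trans (Real.rpow_le_rpow_of_exponent_le one_le_two h3)
    (core hk hn1 hamb htests hcomp ?_ ?_ hrect ?_)
  · intro b x hb
    unfold avoid at hb ⊢
    rw [Bool.and_eq_true] at hb
    have h4 := Pool.Agent.Lib_helper45.SRO.evenWeight_flip b x
    unfold flipAt at h4
    rw [h4, hb.1, Bool.not_true, Bool.false_and]
  · push_cast
    rw [← Real.rpow_natCast]
    exact Real.rpow_le_rpow_of_exponent_le one_le_two h1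
  · have h4 : (2 : ℝ) ^ n ≤ 2 ^ 12 * (univ.filter (fun b => avoid M s b = true)).card := by
      exact_mod_cast hdense
    refine h4.trans (mul_le_mul_of_nonneg_right ?_ (Nat.cast_nonneg _))
    rw [← Real.rpow_natCast]
    apply Real.rpow_le_rpow_of_exponent_le one_le_two
    exact_mod_cast h2

/-- The lower bound for `avoidF`. -/
theorem avoidF_lower (hA : StmtAvoid) {k n : ℕ} (hk : 1 ≤ k) (hn : (k + 1) ^ (1232 * k ^ 2) ≤ n)
    (N : Type) [Fintype N] (G : NBP (VarA n) N) (a : ℕ) (hacc : G.AccessPatterns a)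
    (htests : G.FewTests (k * n)) (hcomp : G.Computes (avoidF n)) :
    (2 : ℝ) ^ ((n : ℝ) / (k + 1) ^ (1232 * k ^ 2)) ≤ a * Fintype.card N := by
  obtain ⟨M, s, h⟩ := avoid_lower hA hk hn
  let α : (Fin (subs n) × Fin (codim n) × Fin n) ⊕ (Fin (subs n) × Fin (codim n)) → Bool :=
    Sum.elim (fun q => M q.1 q.2.1 q.2.2) (fun q => s q.1 q.2)
  exact h N (fixW G α) a (fixW_access α hacc) (fixW_few α htests) (fixW_computes α hcomp)

end Pool.Agent.Lib_helper20.LG
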