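import Pool.Agent.Lib_helper20.LG.Defs

/-!
# A random assignment of the segments to groups
-/

namespace Pool.Agent.Lib_helper20.LG

open Finset

namespace Rnd

/-- number of assignments with all of `S` in the groups `A` -/
lemma card_pi {r s : ℕ} (hs : 0 < s) (S : Finset (Fin r)) (A : Finset (Fin s)) :
    (((univ : Finset (Fin r → Fin s)).filter (fun g => ∀ j ∈ S, g j ∈ A)).card : ℝ)
      = (s : ℝ) ^ r * ((A.card : ℝ) / s) ^ S.card := by
  have h1 : (univ : Finset (Fin r → Fin s)).filter (fun g => ∀ j ∈ S, g j ∈ A)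
      = Fintype.piFinset (fun j => if j ∈ S then A else univ) := by
    ext g
    simp only [mem_filter, mem_univ, true_and, Fintype.mem_piFinset]
    constructor
    · intro h j
      by_cases hj : j ∈ S
      · simpa [hj] using h j hj
      · simp [hj]
    · intro h j hj
      simpa [hj] using h j
  rw [h1, Fintype.card_piFinset]
  have h2 : ∀ j : Fin r, ((if j ∈ S then A else (univ : Finset (Fin s))).card : ℝ)
      = (s : ℝ) * (if j ∈ S then (A.card : ℝ) / s else 1) := by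
    intro j
    have hs' : (s : ℝ) ≠ 0 := by exact_mod_cast hs.ne'
    by_cases hj : j ∈ S
    · simp [hj]; field_simp
    · simp [hj]
  push_cast
  rw [Finset.prod_congr rfl (fun j _ => h2 j), Finset.prod_mul_distrib]
  simp only [prod_const, card_univ, Fintype.card_fin, Finset.prod_ite_mem, Finset.univ_inter]

/-- the group of the value `c` -/
def Fg {r s : ℕ} (g : Fin r → Fin s) (c : Fin s) : Finset (Fin r) := univ.filter (fun j => g j = c)

lemma sub_Fg {r s : ℕ} (g : Fin r → Fin s) (c : Fin s) (S : Finset (Fin r)) :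
    S ⊆ Fg g c ↔ ∀ j ∈ S, g j ∈ ({c} : Finset (Fin s)) := by
  constructor
  · intro h j hj
    have := h hj
    simpa [Fg] using this
  · intro h j hj
    have := h j hj
    simpa [Fg] using this

lemma sub_Fg2 {r s : ℕ} (g : Fin r → Fin s) (c d : Fin s) (S : Finset (Fin r)) :
    S ⊆ Fg g c ∪ Fg g d ↔ ∀ j ∈ S, g j ∈ ({c, d} : Finset (Fin s)) := by
  constructor
  · intro h j hj
    have := h hj
    simpa [Fg] using this
  · intro h j hj
    have := h j hj
    simpa [Fg] using this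

lemma sum_ind {r s : ℕ} (hs : 0 < s) (c : Fin s) (S : Finset (Fin r)) :
    ∑ g : Fin r → Fin s, (if S ⊆ Fg g c then (1 : ℝ) else 0)
      = (s : ℝ) ^ r * (1 / (s : ℝ)) ^ S.card := by
  rw [Finset.sum_boole]
  have := card_pi hs S ({c} : Finset (Fin s))
  simp only [card_singleton, Nat.cast_one] at this
  rw [← this]
  simp only [sub_Fg]

lemma sum_ind2 {r s : ℕ} (hs : 0 < s) (c d : Fin s) (hcd : c ≠ d) (S : Finset (Fin r)) :
    ∑ g : Fin r → Fin s, (if S ⊆ Fg g c ∪ Fg g d then (1 : ℝ) else 0)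
      = (s : ℝ) ^ r * (2 / (s : ℝ)) ^ S.card := by
  rw [Finset.sum_boole]
  have := card_pi hs S ({c, d} : Finset (Fin s))
  rw [card_pair hcd] at this
  push_cast at this
  rw [← this]
  simp only [sub_Fg2]

section moments

variable {n r s h ℓ : ℕ} {R : Fin n → Finset (Fin r)} {x : ℝ}

lemma lv_card (F : Finset (Fin r)) : ((Lv R ℓ F).card : ℝ)
    = ∑ i ∈ univ.filter (fun i => (R i).card = ℓ), (if R i ⊆ F then (1 : ℝ) else 0) := by
  rw [Finset.sum_boole, Finset.filter_filter]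
  rfl

lemma ex_card (F : Finset (Fin r)) : ((Ex R ℓ F).card : ℝ)
    = ∑ i ∈ univ.filter (fun i => (R i).card ≠ ℓ), (if R i ⊆ F then (1 : ℝ) else 0) := by
  rw [Finset.sum_boole, Finset.filter_filter]
  rfl

lemma first (hs : 0 < s) (c : Fin s)
    (hx : ((univ.filter (fun i => (R i).card = ℓ)).card : ℝ) / (s : ℝ) ^ ℓ = x) :
    ∑ g : Fin r → Fin s, ((Lv R ℓ (Fg g c)).card : ℝ) = (s : ℝ) ^ r * x := by
  simp only [lv_card]
  rw [Finset.sum_comm]
  rw [Finset.sum_congr rfl (fun i hi => by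
    rw [sum_ind hs c (R i), (mem_filter.mp hi).2])]
  rw [Finset.sum_const, nsmul_eq_mul, ← hx, one_div, inv_pow]
  ring

/-- partners of a coordinate -/
lemma partners (hh : ∀ j, (univ.filter (fun i => j ∈ R i)).card ≤ h) (i : Fin n)
    (hi : (R i).card = ℓ) :
    (univ.filter (fun i' => ¬ Disjoint (R i) (R i'))).card ≤ ℓ * h := by
  have h1 : (univ.filter (fun i' => ¬ Disjoint (R i) (R i')))
      ⊆ (R i).biUnion (fun j => univ.filter (fun i' => j ∈ R i')) := by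
    intro i' hi'
    rw [mem_filter] at hi'
    obtain ⟨j, hj, hj'⟩ := Finset.not_disjoint_iff.mp hi'.2
    rw [mem_biUnion]
    exact ⟨j, hj, by simp [hj']⟩
  refine (card_le_card h1).trans ?_
  rw [← hi]
  exact card_biUnion_le_card_mul _ _ _ (fun j _ => hh j)

lemma second (hs : 0 < s) (c : Fin s)
    (hh : ∀ j, (univ.filter (fun i => j ∈ R i)).card ≤ h)
    (hx : ((univ.filter (fun i => (R i).card = ℓ)).card : ℝ) / (s : ℝ) ^ ℓ = x) :
    ∑ g : Fin r → Fin s, ((Lv R ℓ (Fg g c)).card : ℝ) ^ 2 ≤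
      (s : ℝ) ^ r * (x ^ 2 + ℓ * h * x) := by
  have hs' : (0 : ℝ) < s := by exact_mod_cast hs
  have hs1 : (1 : ℝ) ≤ s := by exact_mod_cast hs
  set M := univ.filter (fun i => (R i).card = ℓ) with hM
  have e1 : ∀ g : Fin r → Fin s, ((Lv R ℓ (Fg g c)).card : ℝ) ^ 2
      = ∑ i ∈ M, ∑ i' ∈ M, (if R i ∪ R i' ⊆ Fg g c then (1 : ℝ) else 0) := by
    intro g
    rw [lv_card, sq, Finset.sum_mul_sum]
    refine Finset.sum_congr rfl fun i _ => Finset.sum_congr rfl fun i' _ => ?_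
    by_cases h1 : R i ⊆ Fg g c <;> by_cases h2 : R i' ⊆ Fg g c <;>
      simp [h1, h2, Finset.union_subset_iff]
  simp only [e1]
  rw [Finset.sum_comm]
  have e2 : ∀ i ∈ M, ∑ g : Fin r → Fin s, ∑ i' ∈ M, (if R i ∪ R i' ⊆ Fg g c then (1 : ℝ) else 0)
      ≤ (s : ℝ) ^ r * (M.card * (1 / (s : ℝ)) ^ (2 * ℓ) + ℓ * h * (1 / (s : ℝ)) ^ ℓ) := by
    intro i hi
    have hi' : (R i).card = ℓ := (mem_filter.mp hi).2
    rw [Finset.sum_comm]
    have e3 : ∀ i' ∈ M, ∑ g : Fin r → Fin s, (if R i ∪ R i' ⊆ Fg g c then (1 : ℝ) else 0)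
        ≤ (s : ℝ) ^ r * ((1 / (s : ℝ)) ^ (2 * ℓ)
          + (if ¬ Disjoint (R i) (R i') then (1 / (s : ℝ)) ^ ℓ else 0)) := by
      intro i' hi2
      have hi2' : (R i').card = ℓ := (mem_filter.mp hi2).2
      rw [sum_ind hs c]
      refine mul_le_mul_of_nonneg_left ?_ (by positivity)
      by_cases hd : Disjoint (R i) (R i')
      · rw [card_union_of_disjoint hd, hi', hi2']
        simp [hd, two_mul]
      · have : ℓ ≤ (R i ∪ R i').card := by
          rw [← hi']; exact card_le_card subset_union_left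
        have h3 : (1 / (s : ℝ)) ^ (R i ∪ R i').card ≤ (1 / (s : ℝ)) ^ ℓ :=
          pow_le_pow_of_le_one (by positivity) (by rw [div_le_one hs']; exact hs1) this
        rw [if_pos hd]
        have : 0 ≤ (1 / (s : ℝ)) ^ (2 * ℓ) := by positivity
        linarith
    refine (Finset.sum_le_sum e3).trans ?_
    rw [← Finset.mul_sum, Finset.sum_add_distrib, Finset.sum_const, nsmul_eq_mul]
    refine mul_le_mul_of_nonneg_left ?_ (by positivity)
    have e4 : ∑ i' ∈ M, (if ¬ Disjoint (R i) (R i') then (1 / (s : ℝ)) ^ ℓ else 0)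
        ≤ ℓ * h * (1 / (s : ℝ)) ^ ℓ := by
      rw [← Finset.sum_filter, Finset.sum_const, nsmul_eq_mul]
      refine mul_le_mul_of_nonneg_right ?_ (by positivity)
      have h5 : (M.filter (fun i' => ¬ Disjoint (R i) (R i'))).card ≤ ℓ * h :=
        (card_le_card (Finset.filter_subset_filter _ (Finset.subset_univ M))).trans
          (partners hh i hi')
      exact_mod_cast h5
    linarith
  refine (Finset.sum_le_sum e2).trans ?_
  rw [Finset.sum_const, nsmul_eq_mul]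
  have hx2 : (M.card : ℝ) * (1 / (s : ℝ)) ^ ℓ = x := by
    rw [← hx, one_div, inv_pow]; ring
  have : (M.card : ℝ) * ((s : ℝ) ^ r * (M.card * (1 / (s : ℝ)) ^ (2 * ℓ)
      + ℓ * h * (1 / (s : ℝ)) ^ ℓ))
      = (s : ℝ) ^ r * ((M.card * (1 / (s : ℝ)) ^ ℓ) ^ 2
        + ℓ * h * (M.card * (1 / (s : ℝ)) ^ ℓ)) := by
    rw [two_mul, pow_add]; ring
  rw [this, hx2]

lemma variance (hs : 0 < s) (c : Fin s)
    (hh : ∀ j, (univ.filter (fun i => j ∈ R i)).card ≤ h)
    (hx : ((univ.filter (fun i => (R i).card = ℓ)).card : ℝ) / (s : ℝ) ^ ℓ = x) :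
    ∑ g : Fin r → Fin s, (((Lv R ℓ (Fg g c)).card : ℝ) - x) ^ 2 ≤
      (s : ℝ) ^ r * (ℓ * h * x) := by
  have h1 := first (R := R) hs c hx
  have h2 := second (R := R) hs c hh hx
  have e : ∑ g : Fin r → Fin s, (((Lv R ℓ (Fg g c)).card : ℝ) - x) ^ 2
      = ∑ g : Fin r → Fin s, ((Lv R ℓ (Fg g c)).card : ℝ) ^ 2
        - 2 * x * ∑ g : Fin r → Fin s, ((Lv R ℓ (Fg g c)).card : ℝ)
        + (s : ℝ) ^ r * x ^ 2 := by
    have : ∀ g : Fin r → Fin s, (((Lv R ℓ (Fg g c)).card : ℝ) - x) ^ 2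
        = ((Lv R ℓ (Fg g c)).card : ℝ) ^ 2 - 2 * x * ((Lv R ℓ (Fg g c)).card : ℝ) + x ^ 2 := by
      intro g; ring
    simp only [this]
    rw [Finset.sum_add_distrib, Finset.sum_sub_distrib, ← Finset.mul_sum, Finset.sum_const]
    simp
  rw [e, h1]
  nlinarith

lemma exmean (hs : 0 < s) (c d : Fin s) (hcd : c ≠ d) :
    ∑ g : Fin r → Fin s, ((Ex R ℓ (Fg g c ∪ Fg g d)).card : ℝ)
      = (s : ℝ) ^ r * ∑ i ∈ univ.filter (fun i => (R i).card ≠ ℓ), (2 / (s : ℝ)) ^ (R i).card := by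
  simp only [ex_card]
  rw [Finset.sum_comm, Finset.mul_sum]
  exact Finset.sum_congr rfl (fun i _ => sum_ind2 hs c d hcd (R i))

end moments

end Rnd

/-- Module Random. -/
theorem stmtRandom : StmtRandom := by
  intro n r s h ℓ R x y hs2 hℓ hh hx0 hy0 hx hy hbig
  have hs : 0 < s := by omega
  have hs' : (0 : ℝ) < s := by exact_mod_cast hs
  set c : Fin s := ⟨0, by omega⟩ with hc
  set d : Fin s := ⟨1, by omega⟩ with hd
  have hcd : c ≠ d := by simp [hc, hd]
  by_contra hcon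
  push Not at hcon
  have hbad : ∀ g : Fin r → Fin s,
      1 < 4 / x ^ 2 * (((Lv R ℓ (Rnd.Fg g c)).card : ℝ) - x) ^ 2
        + 4 / x ^ 2 * (((Lv R ℓ (Rnd.Fg g d)).card : ℝ) - x) ^ 2
        + 1 / (4 * y) * ((Ex R ℓ (Rnd.Fg g c ∪ Rnd.Fg g d)).card : ℝ) := by
    intro g
    have hdis : Disjoint (Rnd.Fg g c) (Rnd.Fg g d) := by
      rw [Finset.disjoint_left]
      intro j hj hj'
      simp only [Rnd.Fg, mem_filter, mem_univ, true_and] at hj hj'
      exact hcd (hj.symm.trans hj')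
    have key : ∀ z : ℝ, z < x / 2 → 1 < 4 / x ^ 2 * (z - x) ^ 2 := by
      intro z hz
      have : x ^ 2 < 4 * (z - x) ^ 2 := by nlinarith
      rw [div_mul_eq_mul_div, lt_div_iff₀ (by positivity)]
      linarith
    have p1 : 0 ≤ 4 / x ^ 2 * (((Lv R ℓ (Rnd.Fg g c)).card : ℝ) - x) ^ 2 := by positivity
    have p2 : 0 ≤ 4 / x ^ 2 * (((Lv R ℓ (Rnd.Fg g d)).card : ℝ) - x) ^ 2 := by positivity
    have p3 : 0 ≤ 1 / (4 * y) * ((Ex R ℓ (Rnd.Fg g c ∪ Rnd.Fg g d)).card : ℝ) := by positivity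
    by_cases a1 : x / 2 ≤ ((Lv R ℓ (Rnd.Fg g c)).card : ℝ)
    · by_cases a2 : x / 2 ≤ ((Lv R ℓ (Rnd.Fg g d)).card : ℝ)
      · have a3 := hcon _ _ hdis a1 a2
        have : 1 < 1 / (4 * y) * ((Ex R ℓ (Rnd.Fg g c ∪ Rnd.Fg g d)).card : ℝ) := by
          rw [div_mul_eq_mul_div, one_mul, lt_div_iff₀ (by positivity)]
          linarith
        linarith
      · have := key _ (not_le.mp a2)
        linarith
    · have := key _ (not_le.mp a1)
      linarith
  have : Nonempty (Fin r → Fin s) := ⟨fun _ => c⟩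
  have hsum := Finset.sum_lt_sum_of_nonempty (s := (univ : Finset (Fin r → Fin s)))
    Finset.univ_nonempty (fun g _ => hbad g)
  rw [Finset.sum_add_distrib, Finset.sum_add_distrib, ← Finset.mul_sum, ← Finset.mul_sum,
    ← Finset.mul_sum, Rnd.exmean hs c d hcd] at hsum
  have v1 := Rnd.variance (R := R) hs c hh hx
  have v2 := Rnd.variance (R := R) hs d hh hx
  simp only [sum_const, card_univ, Fintype.card_fun, Fintype.card_fin, nsmul_eq_mul,
    mul_one] at hsum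
  push_cast at hsum
  have hS : (0 : ℝ) < (s : ℝ) ^ r := by positivity
  have w1 : 4 / x ^ 2 * ((s : ℝ) ^ r * (ℓ * h * x)) ≤ (s : ℝ) ^ r * (1 / 8) := by
    have : 4 / x ^ 2 * ((s : ℝ) ^ r * (ℓ * h * x)) = (s : ℝ) ^ r * (4 * (ℓ * h) / x) := by
      field_simp
    rw [this]
    refine mul_le_mul_of_nonneg_left ?_ hS.le
    rw [div_le_iff₀ hx0]
    linarith
  have w2 : 1 / (4 * y) * ((s : ℝ) ^ r * ∑ i ∈ univ.filter (fun i => (R i).card ≠ ℓ),
      (2 / (s : ℝ)) ^ (R i).card) ≤ (s : ℝ) ^ r * (1 / 4) := by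
    have : 1 / (4 * y) * ((s : ℝ) ^ r * ∑ i ∈ univ.filter (fun i => (R i).card ≠ ℓ),
      (2 / (s : ℝ)) ^ (R i).card) = (s : ℝ) ^ r * ((∑ i ∈ univ.filter (fun i => (R i).card ≠ ℓ),
      (2 / (s : ℝ)) ^ (R i).card) / (4 * y)) := by
      ring
    rw [this]
    refine mul_le_mul_of_nonneg_left ?_ hS.le
    rw [div_le_iff₀ (by positivity)]
    linarith
  have q : 0 ≤ 4 / x ^ 2 := by positivity
  have v1' := mul_le_mul_of_nonneg_left v1 q
  have v2' := mul_le_mul_of_nonneg_left v2 q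
  linarith

end Pool.Agent.Lib_helper20.LG
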