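import Pool.Agent.Lib_helper20.LG.Defs4
import Pool.Agent.Lib_helper20.LG.Random

/-!
# A random assignment of the segments to groups, with the sharper exceptional set
-/

namespace Pool.Agent.Lib_helper20.LG

open Finset

namespace Rnd

/-- number of assignments with `A` in the group `c` and `B` in the group `d` -/
lemma card_pair' {r s : ℕ} (hs : 0 < s) (c d : Fin s) (A B : Finset (Fin r))
    (hAB : Disjoint A B) :
    ∑ g : Fin r → Fin s, (if A ⊆ Fg g c ∧ B ⊆ Fg g d then (1 : ℝ) else 0)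
      = (s : ℝ) ^ r * (1 / (s : ℝ)) ^ (A.card + B.card) := by
  rw [Finset.sum_boole]
  have hs' : (s : ℝ) ≠ 0 := by exact_mod_cast hs.ne'
  have h1 : (univ : Finset (Fin r → Fin s)).filter (fun g => A ⊆ Fg g c ∧ B ⊆ Fg g d)
      = Fintype.piFinset (fun j => if j ∈ A then {c} else if j ∈ B then {d} else univ) := by
    ext g
    simp only [mem_filter, mem_univ, true_and, Fintype.mem_piFinset, sub_Fg, mem_singleton]
    constructor
    · intro h j
      by_cases hj : j ∈ A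
      · simpa [hj] using h.1 j hj
      · by_cases hj' : j ∈ B
        · simpa [hj, hj'] using h.2 j hj'
        · simp [hj, hj']
    · intro h
      refine ⟨fun j hj => by simpa [hj] using h j, fun j hj => ?_⟩
      have hj' : j ∉ A := fun hA => (Finset.disjoint_left.mp hAB) hA hj
      simpa [hj, hj'] using h j
  rw [h1, Fintype.card_piFinset]
  have h2 : ∀ j : Fin r, ((if j ∈ A then {c} else if j ∈ B then {d}
      else (univ : Finset (Fin s))).card : ℝ)
      = (s : ℝ) * (if j ∈ A ∪ B then 1 / (s : ℝ) else 1) := by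
    intro j
    by_cases hj : j ∈ A
    · simp [hj, hs']
    · by_cases hj' : j ∈ B
      · simp [hj, hj', hs']
      · simp [hj, hj']
  push_cast
  rw [Finset.prod_congr rfl (fun j _ => h2 j), Finset.prod_mul_distrib]
  rw [← card_union_of_disjoint hAB]
  simp only [prod_const, card_univ, Fintype.card_fin, Finset.prod_ite_mem, Finset.univ_inter]

section moments

variable {n r s h ℓ : ℕ} {R : Fin n → Finset (Fin r)} {x : ℝ}

/-- subsets of the union with exactly `ℓ` elements in the first group -/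
lemma ind_le (F1 F2 S : Finset (Fin r)) :
    (if S ⊆ F1 ∪ F2 ∧ (S ∩ F1).card = ℓ then (1 : ℝ) else 0) ≤
      ∑ A ∈ S.powersetCard ℓ, (if A ⊆ F1 ∧ S \ A ⊆ F2 then (1 : ℝ) else 0) := by
  by_cases hc : S ⊆ F1 ∪ F2 ∧ (S ∩ F1).card = ℓ
  · rw [if_pos hc]
    have hm : S ∩ F1 ∈ S.powersetCard ℓ := mem_powersetCard.2 ⟨inter_subset_left, hc.2⟩
    have h1 : S ∩ F1 ⊆ F1 ∧ S \ (S ∩ F1) ⊆ F2 := by
      refine ⟨inter_subset_right, fun j hj => ?_⟩
      rw [mem_sdiff, mem_inter] at hj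
      rcases mem_union.1 (hc.1 hj.1) with h | h
      · exact absurd ⟨hj.1, h⟩ hj.2
      · exact h
    calc (1 : ℝ) = (if S ∩ F1 ⊆ F1 ∧ S \ (S ∩ F1) ⊆ F2 then (1 : ℝ) else 0) := by
          rw [if_pos h1]
      _ ≤ _ := Finset.single_le_sum
          (f := fun A => (if A ⊆ F1 ∧ S \ A ⊆ F2 then (1 : ℝ) else 0))
          (fun A _ => by split_ifs <;> norm_num) hm
  · rw [if_neg hc]
    exact Finset.sum_nonneg fun A _ => by split_ifs <;> norm_num

lemma sum_ind_le (hs : 0 < s) (c d : Fin s) (S : Finset (Fin r)) :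
    ∑ g : Fin r → Fin s,
      (if S ⊆ Fg g c ∪ Fg g d ∧ (S ∩ Fg g c).card = ℓ then (1 : ℝ) else 0) ≤
      (s : ℝ) ^ r * (1 / (s : ℝ)) ^ S.card * (S.card.choose ℓ : ℝ) := by
  refine (Finset.sum_le_sum fun g _ => ind_le (Fg g c) (Fg g d) S).trans ?_
  rw [Finset.sum_comm]
  have h1 : ∀ A ∈ S.powersetCard ℓ, ∑ g : Fin r → Fin s,
      (if A ⊆ Fg g c ∧ S \ A ⊆ Fg g d then (1 : ℝ) else 0) =
      (s : ℝ) ^ r * (1 / (s : ℝ)) ^ S.card := by
    intro A hA
    have hAS := (mem_powersetCard.1 hA).1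
    rw [card_pair' hs c d A (S \ A) disjoint_sdiff]
    congr 2
    rw [card_sdiff_of_subset hAS]
    have := card_le_card hAS
    omega
  rw [Finset.sum_congr rfl h1, Finset.sum_const, card_powersetCard, nsmul_eq_mul]
  apply le_of_eq
  ring

/-- the indicator of the exceptional set -/
lemma ex2_ind (F1 F2 : Finset (Fin r)) (i : Fin n) :
    (if i ∈ Ex2 R ℓ F1 F2 then (1 : ℝ) else 0) ≤
      if (R i).card ≠ ℓ then
        (if R i ⊆ F1 then (1 : ℝ) else 0) + (if R i ⊆ F2 then (1 : ℝ) else 0)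
        + (if R i ⊆ F1 ∪ F2 ∧ (R i ∩ F1).card = ℓ then (1 : ℝ) else 0)
        + (if R i ⊆ F2 ∪ F1 ∧ (R i ∩ F2).card = ℓ then (1 : ℝ) else 0)
      else 0 := by
  have n1 : (0 : ℝ) ≤ (if R i ⊆ F1 then (1 : ℝ) else 0) := by split_ifs <;> norm_num
  have n2 : (0 : ℝ) ≤ (if R i ⊆ F2 then (1 : ℝ) else 0) := by split_ifs <;> norm_num
  have n3 : (0 : ℝ) ≤ (if R i ⊆ F1 ∪ F2 ∧ (R i ∩ F1).card = ℓ then (1 : ℝ) else 0) := by
    split_ifs <;> norm_num
  have n4 : (0 : ℝ) ≤ (if R i ⊆ F2 ∪ F1 ∧ (R i ∩ F2).card = ℓ then (1 : ℝ) else 0) := by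
    split_ifs <;> norm_num
  by_cases hi : i ∈ Ex2 R ℓ F1 F2
  · rw [if_pos hi]
    simp only [Ex2, mem_filter, mem_univ, true_and] at hi
    rcases hi with ⟨hl, h | h⟩ | ⟨hu, h1, h2, h | h⟩
    · rw [if_pos hl, if_pos h]
      linarith
    · rw [if_pos hl, if_pos h]
      linarith
    · by_cases hl : (R i).card = ℓ
      · exfalso
        apply h1
        have : R i ∩ F1 = R i := eq_of_subset_of_card_le inter_subset_left (by rw [h, hl])
        exact inter_eq_left.1 this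
      · rw [if_pos hl, if_pos (show R i ⊆ F1 ∪ F2 ∧ (R i ∩ F1).card = ℓ from ⟨hu, h⟩)]
        linarith
    · by_cases hl : (R i).card = ℓ
      · exfalso
        apply h2
        have : R i ∩ F2 = R i := eq_of_subset_of_card_le inter_subset_left (by rw [h, hl])
        exact inter_eq_left.1 this
      · rw [if_pos hl, if_pos (show R i ⊆ F2 ∪ F1 ∧ (R i ∩ F2).card = ℓ from
          ⟨by rw [union_comm]; exact hu, h⟩)]
        linarith
  · rw [if_neg hi]
    split_ifs <;> linarith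

lemma ex2mean (hs : 0 < s) (c d : Fin s) :
    ∑ g : Fin r → Fin s, ((Ex2 R ℓ (Fg g c) (Fg g d)).card : ℝ)
      ≤ (s : ℝ) ^ r * ∑ i ∈ univ.filter (fun i => (R i).card ≠ ℓ),
        2 * (1 + ((R i).card.choose ℓ : ℝ)) / (s : ℝ) ^ (R i).card := by
  have e1 : ∀ g : Fin r → Fin s, ((Ex2 R ℓ (Fg g c) (Fg g d)).card : ℝ) ≤
      ∑ i ∈ univ.filter (fun i => (R i).card ≠ ℓ),
        ((if R i ⊆ Fg g c then (1 : ℝ) else 0) + (if R i ⊆ Fg g d then (1 : ℝ) else 0)
        + (if R i ⊆ Fg g c ∪ Fg g d ∧ (R i ∩ Fg g c).card = ℓ then (1 : ℝ) else 0)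
        + (if R i ⊆ Fg g d ∪ Fg g c ∧ (R i ∩ Fg g d).card = ℓ then (1 : ℝ) else 0)) := by
    intro g
    have : ((Ex2 R ℓ (Fg g c) (Fg g d)).card : ℝ) =
        ∑ i : Fin n, (if i ∈ Ex2 R ℓ (Fg g c) (Fg g d) then (1 : ℝ) else 0) := by
      rw [Finset.sum_boole]
      congr 2
      ext i
      simp
    rw [this, Finset.sum_filter]
    exact Finset.sum_le_sum fun i _ => ex2_ind _ _ i
  refine (Finset.sum_le_sum fun g _ => e1 g).trans ?_
  rw [Finset.sum_comm, Finset.mul_sum]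
  refine Finset.sum_le_sum fun i _ => ?_
  rw [Finset.sum_add_distrib, Finset.sum_add_distrib, Finset.sum_add_distrib,
    sum_ind hs c, sum_ind hs d]
  have h1 := sum_ind_le (ℓ := ℓ) hs c d (R i)
  have h2 := sum_ind_le (ℓ := ℓ) hs d c (R i)
  have h3 : (s : ℝ) ^ r * (2 * (1 + ((R i).card.choose ℓ : ℝ)) / (s : ℝ) ^ (R i).card) =
      (s : ℝ) ^ r * (1 / (s : ℝ)) ^ (R i).card + (s : ℝ) ^ r * (1 / (s : ℝ)) ^ (R i).card
      + (s : ℝ) ^ r * (1 / (s : ℝ)) ^ (R i).card * ((R i).card.choose ℓ : ℝ)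
      + (s : ℝ) ^ r * (1 / (s : ℝ)) ^ (R i).card * ((R i).card.choose ℓ : ℝ) := by
    rw [one_div, inv_pow]
    ring
  rw [h3]
  linarith

end moments

end Rnd

/-- Module Random2. -/
theorem stmtRandom2 : StmtRandom2 := by
  intro n r s h ℓ R x y hs2 hℓ hh hx0 hy0 hx hy hbig
  have hs : 0 < s := by omega
  have hs' : (0 : ℝ) < s := by exact_mod_cast hs
  set c : Fin s := ⟨0, by omega⟩ with hc
  set d : Fin s := ⟨1, by omega⟩ with hd
  have hcd : c ≠ d := by simp [hc, hd]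
  by_contra hcon
  push Not at hcon
  have hbad : ∀ g : Fin r → Fin s,
      1 < 4 / x ^ 2 * (((Lv R ℓ (Rnd.Fg g c)).card : ℝ) - x) ^ 2
        + 4 / x ^ 2 * (((Lv R ℓ (Rnd.Fg g d)).card : ℝ) - x) ^ 2
        + 1 / (4 * y) * ((Ex2 R ℓ (Rnd.Fg g c) (Rnd.Fg g d)).card : ℝ) := by
    intro g
    have hdis : Disjoint (Rnd.Fg g c) (Rnd.Fg g d) := by
      rw [Finset.disjoint_left]
      intro j hj hj'
      simp only [Rnd.Fg, mem_filter, mem_univ, true_and] at hj hj'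
      exact hcd (hj.symm.trans hj')
    have key : ∀ z : ℝ, z < x / 2 → 1 < 4 / x ^ 2 * (z - x) ^ 2 := by
      intro z hz
      have : x ^ 2 < 4 * (z - x) ^ 2 := by nlinarith
      rw [div_mul_eq_mul_div, lt_div_iff₀ (by positivity)]
      linarith
    have p1 : 0 ≤ 4 / x ^ 2 * (((Lv R ℓ (Rnd.Fg g c)).card : ℝ) - x) ^ 2 := by positivity
    have p2 : 0 ≤ 4 / x ^ 2 * (((Lv R ℓ (Rnd.Fg g d)).card : ℝ) - x) ^ 2 := by positivity
    have p3 : 0 ≤ 1 / (4 * y) * ((Ex2 R ℓ (Rnd.Fg g c) (Rnd.Fg g d)).card : ℝ) := by positivity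
    by_cases a1 : x / 2 ≤ ((Lv R ℓ (Rnd.Fg g c)).card : ℝ)
    · by_cases a2 : x / 2 ≤ ((Lv R ℓ (Rnd.Fg g d)).card : ℝ)
      · have a3 := hcon _ _ hdis a1 a2
        have : 1 < 1 / (4 * y) * ((Ex2 R ℓ (Rnd.Fg g c) (Rnd.Fg g d)).card : ℝ) := by
          rw [div_mul_eq_mul_div, one_mul, lt_div_iff₀ (by positivity)]
          linarith
        linarith
      · have := key _ (not_le.mp a2)
        linarith
    · have := key _ (not_le.mp a1)
      linarith
  have : Nonempty (Fin r → Fin s) := ⟨fun _ => c⟩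
  have hsum := Finset.sum_lt_sum_of_nonempty (s := (univ : Finset (Fin r → Fin s)))
    Finset.univ_nonempty (fun g _ => hbad g)
  rw [Finset.sum_add_distrib, Finset.sum_add_distrib, ← Finset.mul_sum, ← Finset.mul_sum,
    ← Finset.mul_sum] at hsum
  have v1 := Rnd.variance (R := R) hs c hh hx
  have v2 := Rnd.variance (R := R) hs d hh hx
  have v3 := Rnd.ex2mean (R := R) (ℓ := ℓ) hs c d
  simp only [sum_const, card_univ, Fintype.card_fun, Fintype.card_fin, nsmul_eq_mul,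
    mul_one] at hsum
  push_cast at hsum
  have hS : (0 : ℝ) < (s : ℝ) ^ r := by positivity
  have w1 : 4 / x ^ 2 * ((s : ℝ) ^ r * (ℓ * h * x)) ≤ (s : ℝ) ^ r * (1 / 8) := by
    have : 4 / x ^ 2 * ((s : ℝ) ^ r * (ℓ * h * x)) = (s : ℝ) ^ r * (4 * (ℓ * h) / x) := by
      field_simp
    rw [this]
    refine mul_le_mul_of_nonneg_left ?_ hS.le
    rw [div_le_iff₀ hx0]
    linarith
  have w2 : 1 / (4 * y) * ∑ g : Fin r → Fin s, ((Ex2 R ℓ (Rnd.Fg g c) (Rnd.Fg g d)).card : ℝ) ≤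
      (s : ℝ) ^ r * (1 / 4) := by
    have h1 : ∑ g : Fin r → Fin s, ((Ex2 R ℓ (Rnd.Fg g c) (Rnd.Fg g d)).card : ℝ) ≤
        (s : ℝ) ^ r * y := v3.trans (mul_le_mul_of_nonneg_left hy hS.le)
    rw [div_mul_eq_mul_div, one_mul, div_le_iff₀ (by positivity)]
    linarith
  have q : 0 ≤ 4 / x ^ 2 := by positivity
  have v1' := mul_le_mul_of_nonneg_left v1 q
  have v2' := mul_le_mul_of_nonneg_left v2 q
  linarith

end Pool.Agent.Lib_helper20.LG
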