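import Pool.Agent.Lib_helper20.LG.Level
import Pool.Agent.Lib_helper20.LG.Random2

/-!
The choice of the level and of the two groups of segments.
-/

namespace Pool.Agent.Lib_helper20.LG

open Finset Pool.Agent.Lib_helper20.SRO

/-- the number of binary digits -/
def dig (K : ℕ) : ℕ := Nat.log 2 K + 1

lemma dig_lt (K : ℕ) : K < 2 ^ dig K := Nat.lt_pow_succ_log_self (by norm_num) K

/-- the sizes of the constants -/
lemma constants {K : ℕ} (hK2 : 2 ≤ K) :
    4 * K * (320 * K * (128 * K ^ 2 * dig K)) ^ ((2 * K + 1) * K) ≤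
      2 ^ (37 * (K ^ 2 * dig K)) := by
  set t : ℕ := dig K with ht
  have hKK : K ≤ 2 ^ t := (dig_lt K).le
  have ht2 : 2 ≤ t := by
    have : 1 ≤ Nat.log 2 K := Nat.le_log_of_pow_le (by norm_num) (by omega)
    rw [ht, dig]
    omega
  have htt : t ≤ 2 ^ t := Nat.lt_two_pow_self.le
  have hK4 : 4 ≤ K ^ 2 := by
    calc 4 = 2 ^ 2 := by norm_num
      _ ≤ K ^ 2 := Nat.pow_le_pow_left hK2 2
  have h1 : 320 * K * (128 * K ^ 2 * t) ≤ 2 ^ (12 * t) := by
    calc 320 * K * (128 * K ^ 2 * t) ≤ 2 ^ 9 * 2 ^ t * (2 ^ 7 * (2 ^ t) ^ 2 * 2 ^ t) := by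
          gcongr
          · norm_num
          · norm_num
      _ = 2 ^ (9 + t + (7 + t * 2 + t)) := by
          rw [← pow_mul, ← pow_add, ← pow_add, ← pow_add, ← pow_add]
      _ ≤ 2 ^ (12 * t) := Nat.pow_le_pow_right (by norm_num) (by omega)
  calc 4 * K * (320 * K * (128 * K ^ 2 * t)) ^ ((2 * K + 1) * K) ≤
      2 ^ 2 * 2 ^ t * (2 ^ (12 * t)) ^ ((2 * K + 1) * K) := by
        gcongr
        norm_num
    _ = 2 ^ (2 + t + 12 * t * ((2 * K + 1) * K)) := by rw [← pow_mul, ← pow_add, ← pow_add]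
    _ ≤ 2 ^ (37 * (K ^ 2 * t)) := by
        apply Nat.pow_le_pow_right (by norm_num)
        have h2 : 12 * t * ((2 * K + 1) * K) ≤ 12 * t * ((3 * K) * K) := by
          gcongr
          omega
        have h3 : 12 * t * ((3 * K) * K) = 36 * (K ^ 2 * t) := by ring
        have h4 : 4 * t ≤ K ^ 2 * t := Nat.mul_le_mul_right _ hK4
        omega

/-- most coordinates have at most `2 k` segments -/
lemma many_small {n r k : ℕ} (R : Fin n → Finset (Fin r)) (hne : ∀ i, (R i).Nonempty)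
    (hsum : ∑ i, (R i).card ≤ k * n) :
    n ≤ 2 * ∑ j ∈ Finset.Icc 1 (2 * k), (univ.filter (fun i => (R i).card = j)).card := by
  set B := univ.filter (fun i => 2 * k < (R i).card) with hB
  have h1 : (2 * k + 1) * B.card ≤ k * n := by
    calc (2 * k + 1) * B.card = ∑ _i ∈ B, (2 * k + 1) := by
          rw [Finset.sum_const, smul_eq_mul, mul_comm]
      _ ≤ ∑ i ∈ B, (R i).card := Finset.sum_le_sum (fun i hi => (mem_filter.1 hi).2)
      _ ≤ ∑ i, (R i).card := Finset.sum_le_univ_sum_of_nonneg (fun _ => Nat.zero_le _)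
      _ ≤ _ := hsum
  have h2 : n ≤ B.card + ∑ j ∈ Finset.Icc 1 (2 * k), (univ.filter
      (fun i => (R i).card = j)).card := by
    rw [← Finset.card_biUnion]
    · calc n = (univ : Finset (Fin n)).card := by rw [card_univ, Fintype.card_fin]
        _ ≤ (B ∪ (Finset.Icc 1 (2 * k)).biUnion
            (fun j => univ.filter (fun i => (R i).card = j))).card := by
            apply Finset.card_le_card
            intro i _
            rw [mem_union, mem_biUnion]
            by_cases h : 2 * k < (R i).card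
            · exact Or.inl (mem_filter.2 ⟨mem_univ _, h⟩)
            · refine Or.inr ⟨(R i).card, mem_Icc.2 ⟨(hne i).card_pos, not_lt.1 h⟩, ?_⟩
              exact mem_filter.2 ⟨mem_univ _, rfl⟩
        _ ≤ _ := Finset.card_union_le _ _
    · intro a _ b _ hab
      rw [Function.onFun, Finset.disjoint_left]
      intro i h3 h4
      exact hab (((mem_filter.1 h3).2).symm.trans (mem_filter.1 h4).2)
  nlinarith

lemma choose_le (ℓ d : ℕ) : (ℓ + d).choose ℓ ≤ (ℓ + 1) ^ d := by
  induction d with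
  | zero => simp
  | succ d ih =>
    have h1 : (ℓ + d + 1) * (ℓ + d).choose d = (ℓ + d + 1).choose (d + 1) * (d + 1) :=
      Nat.add_one_mul_choose_eq _ _
    have h2 : (ℓ + d).choose d = (ℓ + d).choose ℓ := by
      rw [← Nat.choose_symm_of_eq_add (n := ℓ + d) (a := ℓ) (b := d) rfl]
    have h3 : (ℓ + d + 1).choose (d + 1) = (ℓ + (d + 1)).choose ℓ :=
      (Nat.choose_symm_of_eq_add (n := ℓ + (d + 1)) (a := ℓ) (b := d + 1) rfl).symm
    rw [h2, h3] at h1
    have h4 : ℓ + d + 1 ≤ (ℓ + 1) * (d + 1) := by nlinarith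
    have h5 : (ℓ + (d + 1)).choose ℓ * (d + 1) ≤ (ℓ + 1) ^ (d + 1) * (d + 1) := by
      rw [← h1]
      calc (ℓ + d + 1) * (ℓ + d).choose ℓ ≤ ((ℓ + 1) * (d + 1)) * (ℓ + 1) ^ d :=
            Nat.mul_le_mul h4 ih
        _ = _ := by ring
    exact Nat.le_of_mul_le_mul_right h5 (Nat.succ_pos d)

/-- the geometric sums -/
lemma geo {r ℓ w K : ℕ} {x : ℝ} (hx : 0 ≤ x) (hw : 4 * K ≤ w) (hℓ1 : 1 ≤ ℓ) (hℓ : ℓ ≤ K)
    (φ : ℕ → ℝ) (hφ : ∀ j, 0 ≤ φ j) (hup : ∀ j, ℓ < j → j ≤ r → φ j ≤ x / (w : ℝ) ^ (j - ℓ))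
    (hlow : ∀ j, 1 ≤ j → j < ℓ → φ j ≤ x / (w : ℝ) ^ (ℓ - j)) :
    ∑ j ∈ (Finset.Icc 1 r).erase ℓ, 2 * (1 + (j.choose ℓ : ℝ)) * φ j ≤ 20 * K / w * x := by
  have hK1 : 1 ≤ K := hℓ1.trans hℓ
  have hK' : (1 : ℝ) ≤ K := by exact_mod_cast hK1
  have hw' : 4 * (K : ℝ) ≤ w := by exact_mod_cast hw
  have hw0 : (0 : ℝ) < w := by linarith
  have hℓ' : ((ℓ : ℝ) + 1) ≤ 2 * K := by
    have : (ℓ : ℝ) ≤ K := by exact_mod_cast hℓ
    linarith
  have hℓ0 : (0 : ℝ) ≤ ℓ := Nat.cast_nonneg ℓ
  -- split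
  set g : ℕ → ℝ := fun j => if ℓ < j then 4 * ((ℓ : ℝ) + 1) ^ (j - ℓ) * (x / (w : ℝ) ^ (j - ℓ))
    else 2 * (x / (w : ℝ) ^ (ℓ - j)) with hg
  have hg0 : ∀ j, 0 ≤ g j := by
    intro j
    simp only [hg]
    split_ifs <;> positivity
  have h1 : ∑ j ∈ (Finset.Icc 1 r).erase ℓ, 2 * (1 + (j.choose ℓ : ℝ)) * φ j ≤
      ∑ j ∈ Finset.Ico (ℓ + 1) (r + 1) ∪ Finset.range ℓ, g j := by
    calc ∑ j ∈ (Finset.Icc 1 r).erase ℓ, 2 * (1 + (j.choose ℓ : ℝ)) * φ j ≤
        ∑ j ∈ (Finset.Icc 1 r).erase ℓ, g j := by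
          apply Finset.sum_le_sum
          intro j hj
          rw [mem_erase, mem_Icc] at hj
          simp only [hg]
          split_ifs with h
          · have e1 : (j.choose ℓ : ℝ) ≤ ((ℓ : ℝ) + 1) ^ (j - ℓ) := by
              have e2 := choose_le ℓ (j - ℓ)
              rw [Nat.add_sub_cancel' h.le] at e2
              exact_mod_cast e2
            have e3 : (1 : ℝ) ≤ ((ℓ : ℝ) + 1) ^ (j - ℓ) := one_le_pow₀ (by linarith)
            apply mul_le_mul _ (hup j h hj.2.2) (hφ j) (by positivity)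
            linarith
          · have e1 : j.choose ℓ = 0 := Nat.choose_eq_zero_of_lt (by omega)
            rw [e1]
            push_cast
            rw [add_zero, mul_one]
            exact mul_le_mul_of_nonneg_left (hlow j hj.2.1 (by omega)) (by positivity)
      _ ≤ _ := by
          apply Finset.sum_le_sum_of_subset_of_nonneg
          · intro j hj
            rw [mem_erase, mem_Icc] at hj
            rw [mem_union, mem_Ico, mem_range]
            omega
          · intro j _ _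
            exact hg0 j
  have h2 : ∑ j ∈ Finset.Ico (ℓ + 1) (r + 1) ∪ Finset.range ℓ, g j =
      ∑ j ∈ Finset.Ico (ℓ + 1) (r + 1), g j + ∑ j ∈ Finset.range ℓ, g j := by
    apply Finset.sum_union
    rw [Finset.disjoint_left]
    intro j h3 h4
    rw [mem_Ico] at h3
    rw [mem_range] at h4
    omega
  have h3 : ∑ j ∈ Finset.Ico (ℓ + 1) (r + 1), g j ≤ 16 * K / w * x := by
    rw [Finset.sum_Ico_eq_sum_range]
    calc ∑ d ∈ Finset.range (r + 1 - (ℓ + 1)), g (ℓ + 1 + d) ≤
        ∑ d ∈ Finset.range (r + 1 - (ℓ + 1)), (8 * K / w * x) * (1 / 2) ^ d := by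
          apply Finset.sum_le_sum
          intro d _
          have e1 : ℓ < ℓ + 1 + d := by omega
          have e2 : ℓ + 1 + d - ℓ = d + 1 := by omega
          simp only [hg, e1, if_true, e2]
          have e3 : 4 * ((ℓ : ℝ) + 1) ^ (d + 1) * (x / (w : ℝ) ^ (d + 1)) =
              4 * (ℓ + 1) / w * x * ((ℓ + 1) / w) ^ d := by
            rw [pow_succ, pow_succ, div_pow]
            field_simp
          rw [e3]
          apply mul_le_mul
          · apply mul_le_mul_of_nonneg_right _ hx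
            apply div_le_div_of_nonneg_right _ hw0.le
            linarith
          · apply pow_le_pow_left₀ (by positivity)
            rw [div_le_div_iff₀ hw0 (by norm_num)]
            linarith
          · positivity
          · positivity
      _ = (8 * K / w * x) * ∑ d ∈ Finset.range (r + 1 - (ℓ + 1)), (1 / 2 : ℝ) ^ d := by
          rw [Finset.mul_sum]
      _ ≤ (8 * K / w * x) * 2 :=
          mul_le_mul_of_nonneg_left (sum_geometric_two_le _) (by positivity)
      _ = _ := by ring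
  have h4 : ∑ j ∈ Finset.range ℓ, g j ≤ 2 * K / w * x := by
    calc ∑ j ∈ Finset.range ℓ, g j ≤ ∑ j ∈ Finset.range ℓ, 2 * (x / w) := by
          apply Finset.sum_le_sum
          intro j hj
          rw [mem_range] at hj
          have e1 : ¬ ℓ < j := by omega
          simp only [hg, e1, if_false]
          apply mul_le_mul_of_nonneg_left _ (by positivity)
          apply div_le_div_of_nonneg_left hx hw0
          calc (w : ℝ) = (w : ℝ) ^ 1 := (pow_one _).symm
            _ ≤ (w : ℝ) ^ (ℓ - j) := pow_le_pow_right₀ (by linarith) (by omega)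
      _ = ℓ * (2 * (x / w)) := by rw [Finset.sum_const, card_range, nsmul_eq_mul]
      _ ≤ K * (2 * (x / w)) := by
          apply mul_le_mul_of_nonneg_right _ (by positivity)
          exact_mod_cast hℓ
      _ = _ := by ring
  calc _ ≤ _ := h1
    _ = _ := h2
    _ ≤ 16 * K / w * x + 2 * K / w * x := add_le_add h3 h4
    _ ≤ 20 * K / w * x := by
        have : 0 ≤ 2 * K / w * x := by positivity
        have e : 20 * K / w * x = 10 * (2 * K / w * x) := by ring
        have e' : 16 * K / w * x = 8 * (2 * K / w * x) := by ring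
        rw [e, e']
        linarith

/-- the bound for the constants -/
def bd (k : ℕ) : ℕ := (k + 1) ^ (616 * k ^ 2)

lemma bd_ge {k : ℕ} (hk : 1 ≤ k) : 2 ^ (77 * ((2 * k) ^ 2 * dig (2 * k))) ≤ bd k := by
  have h1 : 2 ^ dig (2 * k) ≤ (k + 1) ^ 2 := by
    have h2 : 2 ^ Nat.log 2 (2 * k) ≤ 2 * k := Nat.pow_log_le_self 2 (by omega)
    calc 2 ^ dig (2 * k) = 2 * 2 ^ Nat.log 2 (2 * k) := by rw [dig, pow_succ, mul_comm]
      _ ≤ 2 * (2 * k) := Nat.mul_le_mul_left _ h2
      _ = 4 * k * 1 := by ring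
      _ ≤ (k + 1) ^ 2 := four_mul_le_sq_add k 1
  calc 2 ^ (77 * ((2 * k) ^ 2 * dig (2 * k))) = (2 ^ dig (2 * k)) ^ (308 * k ^ 2) := by
        rw [← pow_mul]
        congr 1
        ring
    _ ≤ ((k + 1) ^ 2) ^ (308 * k ^ 2) := Nat.pow_le_pow_left h1 _
    _ = bd k := by
        rw [← pow_mul, bd]
        congr 1
        ring

theorem choice {k : ℕ} (hk : 1 ≤ k) : ∃ q r L : ℕ, 0 < q ∧ 0 < r ∧ 16 * q ≤ 2 ^ L ∧
    32 * q * r ≤ bd k ∧
    ∀ n ≥ 1, ∀ h : ℕ, h * r ≤ (k + 1) * n → ∀ R : Fin n → Finset (Fin r),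
      (∀ i, (R i).Nonempty) → ∑ i, (R i).card ≤ k * n →
      (∀ j, (univ.filter (fun i => j ∈ R i)).card ≤ h) →
      ∃ (ℓ : ℕ) (F1 F2 : Finset (Fin r)), ℓ ≤ r ∧ Disjoint F1 F2 ∧
        n ≤ q * (Lv R ℓ F1).card ∧ n ≤ q * (Lv R ℓ F2).card ∧
        2 * L * (Ex2 R ℓ F1 F2).card ≤ (Lv R ℓ F1).card ∧
        2 * L * (Ex2 R ℓ F1 F2).card ≤ (Lv R ℓ F2).card := by
  have hbd := bd_ge hk
  set K : ℕ := 2 * k with hK
  have hK2 : 2 ≤ K := by omega
  have hconst := constants hK2
  have hKd : K ≤ 2 ^ dig K := (dig_lt K).le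
  have hd2 : 2 ≤ dig K := by
    have : 1 ≤ Nat.log 2 K := Nat.le_log_of_pow_le (by norm_num) (by omega)
    rw [dig]
    omega
  set L : ℕ := 128 * K ^ 2 * dig K with hLdef
  set w : ℕ := 320 * K * L with hw
  set D : ℕ := (2 * K + 1) * K with hD
  set q : ℕ := 4 * K * w ^ D with hq
  set r : ℕ := 16 * K * (k + 1) * q with hr
  have hK4 : 4 ≤ K ^ 2 := by
    calc 4 = 2 ^ 2 := by norm_num
      _ ≤ K ^ 2 := Nat.pow_le_pow_left hK2 2
  have h4d : 4 * dig K ≤ K ^ 2 * dig K := Nat.mul_le_mul_right _ hK4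
  have hL1 : 1 ≤ L := by
    rw [hLdef, mul_assoc]
    omega
  have hw1 : 320 * K ≤ w := by
    rw [hw]
    exact Nat.le_mul_of_pos_right _ hL1
  have hw4 : 4 * K ≤ w := by omega
  have hwK : 2 * K < w := by omega
  have hwD : 0 < w ^ D := Nat.pow_pos (by omega)
  have hq0 : 0 < q := by positivity
  have hr0 : 0 < r := by positivity
  have hKr : K ≤ r := by
    rw [hr]
    calc K = K * 1 := (mul_one K).symm
      _ ≤ K * (16 * (k + 1) * q) := Nat.mul_le_mul_left _ (Nat.succ_le_of_lt (by positivity))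
      _ = _ := by ring
  have hrb : r ≤ 2 ^ (39 * (K ^ 2 * dig K)) := by
    calc r = 2 ^ 4 * K * (k + 1) * q := by rw [hr]; norm_num
      _ ≤ 2 ^ 4 * 2 ^ dig K * 2 ^ dig K * 2 ^ (37 * (K ^ 2 * dig K)) := by
          gcongr
          omega
      _ = 2 ^ (4 + dig K + dig K + 37 * (K ^ 2 * dig K)) := by
          rw [← pow_add, ← pow_add, ← pow_add]
      _ ≤ 2 ^ (39 * (K ^ 2 * dig K)) := Nat.pow_le_pow_right (by norm_num) (by omega)
  refine ⟨q, r, L, hq0, hr0, ?_, ?_, ?_⟩
  · calc 16 * q ≤ 2 ^ 4 * 2 ^ (37 * (K ^ 2 * dig K)) := by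
          gcongr
          norm_num
      _ = 2 ^ (4 + 37 * (K ^ 2 * dig K)) := by rw [← pow_add]
      _ ≤ 2 ^ L := by
          apply Nat.pow_le_pow_right (by norm_num)
          rw [hLdef, mul_assoc]
          omega
  · refine le_trans ?_ hbd
    calc 32 * q * r ≤ 2 ^ 5 * 2 ^ (37 * (K ^ 2 * dig K)) * 2 ^ (39 * (K ^ 2 * dig K)) := by
          gcongr
          norm_num
      _ = 2 ^ (5 + 37 * (K ^ 2 * dig K) + 39 * (K ^ 2 * dig K)) := by rw [← pow_add, ← pow_add]
      _ ≤ 2 ^ (77 * (K ^ 2 * dig K)) := Nat.pow_le_pow_right (by norm_num) (by omega)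
  intro n hn h hh R hne hsum hload
  have hn0 : (0 : ℝ) < n := by exact_mod_cast hn
  obtain ⟨t, ℓ, ht1, htK, hℓ1, hℓK, hx, hup, hlow⟩ := stmtLevel r K w n
    (fun j => ((univ.filter (fun i => (R i).card = j)).card : ℝ)) (by omega) hKr hwK hn0
    (fun j => Nat.cast_nonneg _) (fun j => by
      have : (univ.filter (fun i => (R i).card = j)).card ≤ n := by
        calc _ ≤ (univ : Finset (Fin n)).card := Finset.card_filter_le _ _
          _ = n := by rw [card_univ, Fintype.card_fin]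
      exact_mod_cast this) (by
      have h1 := many_small R hne hsum
      rw [← hK] at h1
      have h2 : (n : ℝ) ≤ 2 * ∑ j ∈ Finset.Icc 1 K,
          ((univ.filter (fun i => (R i).card = j)).card : ℝ) := by exact_mod_cast h1
      linarith)
  set s : ℕ := w ^ (2 * t + 1) with hs
  have hsr : (w : ℝ) ^ (2 * t + 1) = s := by rw [hs]; push_cast; rfl
  rw [hsr] at hx hup hlow
  set x : ℝ := ((univ.filter (fun i => (R i).card = ℓ)).card : ℝ) / (s : ℝ) ^ ℓ with hxdef
  have hw0 : (0 : ℝ) < w := by exact_mod_cast (by omega : 0 < w)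
  have hs1 : 2 ≤ s := by
    calc 2 ≤ w := by omega
      _ = w ^ 1 := (pow_one w).symm
      _ ≤ w ^ (2 * t + 1) := Nat.pow_le_pow_right (by omega) (by omega)
  have hs0 : (0 : ℝ) < s := by exact_mod_cast (by omega : 0 < s)
  have hK0 : (0 : ℝ) < K := by exact_mod_cast (by omega : 0 < K)
  have hq0' : (0 : ℝ) < q := by exact_mod_cast hq0
  have hL0 : (0 : ℝ) < L := by exact_mod_cast hL1
  have hℓr : ℓ ≤ r := hℓK.trans hKr
  -- the size of `x`
  have hxq : 2 * (n : ℝ) / q ≤ x := by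
    refine le_trans ?_ hx
    have e1 : (s : ℝ) ^ K ≤ (w : ℝ) ^ D := by
      rw [← hsr, ← pow_mul]
      apply pow_le_pow_right₀ (by exact_mod_cast (by omega : 1 ≤ w))
      rw [hD]
      exact Nat.mul_le_mul_right _ (by omega)
    have e2 : (q : ℝ) = 4 * K * (w : ℝ) ^ D := by rw [hq]; push_cast; rfl
    have e3 : 2 * (n : ℝ) / q = n / (2 * K) / (w : ℝ) ^ D := by
      rw [e2]
      have : (0 : ℝ) < (w : ℝ) ^ D := by positivity
      field_simp
      norm_num
    rw [e3]
    apply div_le_div_of_nonneg_left (by positivity) (by positivity) e1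
  have hx0 : 0 < x := lt_of_lt_of_le (by positivity) hxq
  -- the exceptional sets
  have hy : ∑ i ∈ univ.filter (fun i => (R i).card ≠ ℓ),
      2 * (1 + ((R i).card.choose ℓ : ℝ)) / (s : ℝ) ^ (R i).card ≤ x / (16 * L) := by
    have e1 : ∑ i ∈ univ.filter (fun i => (R i).card ≠ ℓ),
        2 * (1 + ((R i).card.choose ℓ : ℝ)) / (s : ℝ) ^ (R i).card =
        ∑ j ∈ (Finset.Icc 1 r).erase ℓ, 2 * (1 + (j.choose ℓ : ℝ)) *
          (((univ.filter (fun i => (R i).card = j)).card : ℝ) / (s : ℝ) ^ j) := by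
      rw [← Finset.sum_fiberwise_of_maps_to (g := fun i => (R i).card)
        (t := (Finset.Icc 1 r).erase ℓ)]
      · apply Finset.sum_congr rfl
        intro j hj
        rw [mem_erase] at hj
        rw [Finset.filter_filter]
        have e2 : (univ.filter (fun i => (R i).card ≠ ℓ ∧ (R i).card = j)) =
            univ.filter (fun i => (R i).card = j) := by
          ext i
          simp only [mem_filter, mem_univ, true_and]
          constructor
          · exact fun h => h.2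
          · intro h
            refine ⟨?_, h⟩
            rw [h]
            exact hj.1
        rw [e2, Finset.sum_congr rfl
          (g := fun _ => 2 * (1 + (j.choose ℓ : ℝ)) / (s : ℝ) ^ j) (fun i hi => by
          rw [(mem_filter.1 hi).2]), Finset.sum_const, nsmul_eq_mul]
        ring
      · intro i hi
        rw [mem_filter] at hi
        rw [mem_erase, mem_Icc]
        refine ⟨hi.2, (hne i).card_pos, ?_⟩
        calc (R i).card ≤ (univ : Finset (Fin r)).card := Finset.card_le_univ _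
          _ = r := by rw [card_univ, Fintype.card_fin]
    rw [e1]
    refine (geo hx0.le hw4 hℓ1 hℓK
      (fun j => ((univ.filter (fun i => (R i).card = j)).card : ℝ) / (s : ℝ) ^ j)
      (fun j => by positivity) hup hlow).trans (le_of_eq ?_)
    have e3 : (w : ℝ) = 320 * K * L := by rw [hw]; push_cast; rfl
    rw [e3]
    field_simp
    norm_num
  have hload2 : 32 * (ℓ : ℝ) * h ≤ x := by
    refine le_trans ?_ hxq
    have e1 : (h : ℝ) * r ≤ (k + 1) * n := by exact_mod_cast hh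
    have e2 : (r : ℝ) = 16 * K * (k + 1) * q := by rw [hr]; push_cast; rfl
    rw [le_div_iff₀ hq0']
    have e3 : (h : ℝ) * (16 * K * q) ≤ n := by
      have e4 : (h : ℝ) * (16 * K * q) * (k + 1) ≤ n * (k + 1) := by
        rw [e2] at e1
        linarith
      exact le_of_mul_le_mul_right e4 (by positivity)
    have e5 : (ℓ : ℝ) ≤ K := by exact_mod_cast hℓK
    calc 32 * (ℓ : ℝ) * h * q ≤ 32 * (K : ℝ) * h * q := by
          apply mul_le_mul_of_nonneg_right _ hq0'.le
          apply mul_le_mul_of_nonneg_right _ (Nat.cast_nonneg _)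
          linarith
      _ = 2 * ((h : ℝ) * (16 * K * q)) := by ring
      _ ≤ 2 * n := by linarith
  obtain ⟨F1, F2, hdisj, hF1, hF2, hE⟩ := stmtRandom2 n r s h ℓ R x (x / (16 * L)) hs1 hℓ1 hload hx0
    (by positivity) rfl hy hload2
  have hfin : ∀ F : Finset (Fin r), x / 2 ≤ ((Lv R ℓ F).card : ℝ) →
      n ≤ q * (Lv R ℓ F).card ∧ 2 * L * (Ex2 R ℓ F1 F2).card ≤ (Lv R ℓ F).card := by
    intro F hF
    refine ⟨?_, ?_⟩
    · have e1 : (n : ℝ) ≤ q * (Lv R ℓ F).card := by
        have e2 : (n : ℝ) / q ≤ (Lv R ℓ F).card := by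
          have e3 : 2 * (n : ℝ) / q = 2 * (n / q) := by ring
          linarith
        rw [div_le_iff₀ hq0'] at e2
        linarith
      exact_mod_cast e1
    · have e1 : 2 * (L : ℝ) * (Ex2 R ℓ F1 F2).card ≤ (Lv R ℓ F).card := by
        have e2 : 2 * (L : ℝ) * (4 * (x / (16 * L))) = x / 2 := by
          field_simp
          norm_num
        calc 2 * (L : ℝ) * (Ex2 R ℓ F1 F2).card ≤ 2 * (L : ℝ) * (4 * (x / (16 * L))) :=
              mul_le_mul_of_nonneg_left hE (by positivity)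
          _ = x / 2 := e2
          _ ≤ _ := hF
      exact_mod_cast e1
  exact ⟨ℓ, F1, F2, hℓr, hdisj, (hfin F1 hF1).1, (hfin F2 hF2).1, (hfin F1 hF1).2,
    (hfin F2 hF2).2⟩

end Pool.Agent.Lib_helper20.LG
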