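import Pool.Agent.Lib_helper20.LG.Defs4

/-!
Classes of inputs with the same walk outside a group of segments.
-/

namespace Pool.Agent.Lib_helper20.LG

open Finset Pool.Agent.Lib_helper20.SRO

variable {n r : ℕ}

/-- the variables of a list of tests -/
def vars (l : List (Fin n × Bool)) : Finset (Fin n) := (l.map Prod.fst).toFinset

lemma mem_vars {l : List (Fin n × Bool)} {i : Fin n} : i ∈ vars l ↔ ∃ c, (i, c) ∈ l := by
  simp [vars]

lemma agrees_eq {b b' : Fin n → Bool} {l : List (Fin n × Bool)} (h : Agrees b l)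
    (h' : Agrees b' l) {i : Fin n} (hi : i ∈ vars l) : b i = b' i := by
  obtain ⟨c, hc⟩ := mem_vars.1 hi
  have h1 := h _ hc
  have h2 := h' _ hc
  simp only at h1 h2
  rw [h1, h2]

lemma agrees_congr {b b' : Fin n → Bool} {l : List (Fin n × Bool)} (h : Agrees b l)
    (he : ∀ i ∈ vars l, b' i = b i) : Agrees b' l := by
  intro p hp
  rw [he p.1 (mem_vars.2 ⟨p.2, hp⟩)]
  exact h p hp

/-- the segments in which a coordinate is tested -/
def seg (w : Fin r → List (Fin n × Bool)) (i : Fin n) : Finset (Fin r) :=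
  univ.filter (fun j => i ∈ vars (w j))

lemma mem_seg {w : Fin r → List (Fin n × Bool)} {i : Fin n} {j : Fin r} :
    j ∈ seg w i ↔ i ∈ vars (w j) := by simp [seg]

lemma mem_Lv {R : Fin n → Finset (Fin r)} {ℓ : ℕ} {F : Finset (Fin r)} {i : Fin n} :
    i ∈ Lv R ℓ F ↔ (R i).card = ℓ ∧ R i ⊆ F := by simp [Lv]

lemma mem_Ex {R : Fin n → Finset (Fin r)} {ℓ : ℕ} {F1 F2 : Finset (Fin r)} {i : Fin n} :
    i ∈ Ex2 R ℓ F1 F2 ↔ ((R i).card ≠ ℓ ∧ (R i ⊆ F1 ∨ R i ⊆ F2)) ∨
    (R i ⊆ F1 ∪ F2 ∧ ¬ R i ⊆ F1 ∧ ¬ R i ⊆ F2 ∧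
      ((R i ∩ F1).card = ℓ ∨ (R i ∩ F2).card = ℓ)) := by simp [Ex2]

lemma Ex_symm (R : Fin n → Finset (Fin r)) (ℓ : ℕ) (F1 F2 : Finset (Fin r)) :
    Ex2 R ℓ F2 F1 = Ex2 R ℓ F1 F2 := by
  ext i
  rw [mem_Ex, mem_Ex, union_comm F2 F1]
  tauto

/-- exceptional coordinates are not in the levels -/
lemma Ex_Lv {R : Fin n → Finset (Fin r)} {ℓ : ℕ} {F1 F2 : Finset (Fin r)} {i : Fin n}
    (h : i ∈ Ex2 R ℓ F1 F2) (h' : i ∈ Lv R ℓ F1) : False := by
  rw [mem_Ex] at h
  rw [mem_Lv] at h'
  rcases h with h | h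
  · exact h.1 h'.1
  · exact h.2.1 h'.2

/-- The data: a set `P` of accepted inputs with walks `w` between fixed nodes, cut in `r` segments
(`S j` are the possible lists of tests of segment `j`), and the same exceptional set `E`. -/
structure Dat (P : Finset (Fin n → Bool)) (w : (Fin n → Bool) → Fin r → List (Fin n × Bool))
    (S : Fin r → Set (List (Fin n × Bool))) (ℓ : ℕ) (F1 F2 : Finset (Fin r))
    (E : Finset (Fin n)) : Prop where
  ag : ∀ x ∈ P, ∀ j, Agrees x (w x j)
  disj : Disjoint F1 F2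
  ex : ∀ x ∈ P, Ex2 (seg (w x)) ℓ F1 F2 = E
  ne : ∀ x ∈ P, ∀ i, (seg (w x) i).Nonempty
  mem : ∀ x ∈ P, ∀ j, w x j ∈ S j

/-- what is known outside the group `F` -/
def key (w : (Fin n → Bool) → Fin r → List (Fin n × Bool)) (F : Finset (Fin r))
    (E : Finset (Fin n)) (x : Fin n → Bool) : (Fin r → Finset (Fin n)) × (Fin n → Bool) :=
  (fun j => if j ∈ F then ∅ else vars (w x j),
    fun i => if i ∈ E ∨ ∃ j, j ∉ F ∧ i ∈ vars (w x j) then x i else false)

/-- the class of `x` -/
def cl (P : Finset (Fin n → Bool)) (w : (Fin n → Bool) → Fin r → List (Fin n × Bool))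
    (F : Finset (Fin r)) (E : Finset (Fin n)) (x : Fin n → Bool) : Finset (Fin n → Bool) :=
  P.filter (fun y => key w F E y = key w F E x)

section

variable {P : Finset (Fin n → Bool)} {w : (Fin n → Bool) → Fin r → List (Fin n × Bool)}
  {S : Fin r → Set (List (Fin n × Bool))} {ℓ : ℕ} {F1 F2 : Finset (Fin r)} {E : Finset (Fin n)}

lemma Dat.symm (h : Dat P w S ℓ F1 F2 E) : Dat P w S ℓ F2 F1 E :=
  ⟨h.ag, h.disj.symm, fun x hx => by rw [Ex_symm]; exact h.ex x hx, h.ne, h.mem⟩

lemma key_w {F : Finset (Fin r)} {x y : Fin n → Bool} (h : key w F E y = key w F E x) {j : Fin r}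
    (hj : j ∉ F) : vars (w y j) = vars (w x j) := by
  have h1 := congrFun (congrArg Prod.fst h) j
  simpa [key, hj] using h1

lemma key_E {F : Finset (Fin r)} {x y : Fin n → Bool} (h : key w F E y = key w F E x) {i : Fin n}
    (hi : i ∈ E) : y i = x i := by
  have h1 := congrFun (congrArg Prod.snd h) i
  simpa [key, hi] using h1

lemma key_V {F : Finset (Fin r)} {x y : Fin n → Bool} (h : key w F E y = key w F E x) {i : Fin n}
    {j : Fin r} (hj : j ∉ F) (hi : i ∈ vars (w x j)) : y i = x i := by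
  have h1 := congrFun (congrArg Prod.snd h) i
  have h2 : i ∈ E ∨ ∃ j, j ∉ F ∧ i ∈ vars (w x j) := Or.inr ⟨j, hj, hi⟩
  have h3 : i ∈ E ∨ ∃ j, j ∉ F ∧ i ∈ vars (w y j) := Or.inr ⟨j, hj, by rw [key_w h hj]; exact hi⟩
  simp only [key] at h1
  rwa [if_pos h2, if_pos h3] at h1

lemma key_seg {F : Finset (Fin r)} {x y : Fin n → Bool} (h : key w F E y = key w F E x) {i : Fin n}
    {j : Fin r} (hj : j ∉ F) : j ∈ seg (w y) i ↔ j ∈ seg (w x) i := by
  rw [mem_seg, mem_seg, key_w h hj]

/-- outside the level in `F1` the values are the same -/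
lemma key_off (hD : Dat P w S ℓ F1 F2 E) {x y : Fin n → Bool} (hx : x ∈ P)
    (h : key w F1 E y = key w F1 E x) {i : Fin n} (hi : i ∉ Lv (seg (w x)) ℓ F1) : y i = x i := by
  by_cases hc : seg (w x) i ⊆ F1
  · apply key_E h
    rw [← hD.ex x hx, mem_Ex]
    exact Or.inl ⟨fun h1 => hi (mem_Lv.2 ⟨h1, hc⟩), Or.inl hc⟩
  · obtain ⟨j, hj, hjF⟩ := not_subset.1 hc
    exact key_V h hjF (mem_seg.1 hj)

/-- in the level in `F2` the segments are the same -/
lemma key_seg2 (hD : Dat P w S ℓ F1 F2 E) {x y : Fin n → Bool} (hx : x ∈ P) (hy : y ∈ P)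
    (h : key w F1 E y = key w F1 E x) {i : Fin n} (hi : i ∈ Lv (seg (w x)) ℓ F2) :
    seg (w y) i = seg (w x) i := by
  have hi' := mem_Lv.1 hi
  have hd := Finset.disjoint_left.1 hD.disj
  have hsub : seg (w x) i ⊆ seg (w y) i := by
    intro j hj
    have hjF : j ∉ F1 := fun h1 => hd h1 (hi'.2 hj)
    exact (key_seg h hjF).2 hj
  have hsub2 : seg (w y) i ⊆ F1 ∪ F2 := by
    intro j hj
    by_cases hjF : j ∈ F1
    · exact mem_union_left _ hjF
    · exact mem_union_right _ (hi'.2 ((key_seg h hjF).1 hj))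
  have hint : seg (w y) i ∩ F2 = seg (w x) i := by
    ext j
    rw [mem_inter]
    constructor
    · rintro ⟨h1, h2⟩
      exact (key_seg h (fun h3 => hd h3 h2)).1 h1
    · intro h1
      exact ⟨hsub h1, hi'.2 h1⟩
  by_contra hne
  have h1 : i ∈ Ex2 (seg (w y)) ℓ F1 F2 := by
    rw [mem_Ex]
    refine Or.inr ⟨hsub2, ?_, ?_, Or.inr ?_⟩
    · intro h2
      obtain ⟨j, hj⟩ := hD.ne x hx i
      exact hd (h2 (hsub hj)) (hi'.2 hj)
    · intro h2
      apply hne
      rw [← hint]
      exact (Finset.inter_eq_left.2 h2).symm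
    · rw [hint]
      exact hi'.1
  rw [hD.ex y hy, ← hD.ex x hx, Ex_symm] at h1
  exact Ex_Lv h1 hi

/-- the two levels are disjoint -/
lemma Lv_disj (hD : Dat P w S ℓ F1 F2 E) {x : Fin n → Bool} {i : Fin n}
    (hne : (seg (w x) i).Nonempty) (h1 : i ∈ Lv (seg (w x)) ℓ F1) :
    i ∉ Lv (seg (w x)) ℓ F2 := by
  intro h2
  obtain ⟨j, hj⟩ := hne
  exact (Finset.disjoint_left.1 hD.disj ((mem_Lv.1 h1).2 hj)) ((mem_Lv.1 h2).2 hj)

/-- The hybrid of two members of the two classes is accepted. -/
lemma hybrid (hD : Dat P w S ℓ F1 F2 E) {f : (Fin n → Bool) → Bool}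
    (hsound : ∀ z, (∀ j, ∃ l ∈ S j, Agrees z l) → f z = true)
    {x y y' : Fin n → Bool} (hx : x ∈ P) (hy : y ∈ P) (hy' : y' ∈ P)
    (h : key w F1 E y = key w F1 E x) (h' : key w F2 E y' = key w F2 E x) :
    f (fun i => if i ∈ Lv (seg (w x)) ℓ F1 then y i else y' i) = true := by
  apply hsound
  intro j
  by_cases h1 : j ∈ F1
  · refine ⟨w y j, hD.mem y hy j, agrees_congr (hD.ag y hy j) (fun i hi => ?_)⟩
    by_cases hA : i ∈ Lv (seg (w x)) ℓ F1
    · simp only [hA, if_true]
    · simp only [hA, if_false]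
      rw [key_off hD hx h hA]
      apply key_off hD.symm hx h'
      intro hB
      have h2 := key_seg2 hD hx hy h hB
      have h3 : j ∈ seg (w y) i := mem_seg.2 hi
      rw [h2] at h3
      exact (Finset.disjoint_left.1 hD.disj h1) ((mem_Lv.1 hB).2 h3)
  by_cases h2 : j ∈ F2
  · refine ⟨w y' j, hD.mem y' hy' j, agrees_congr (hD.ag y' hy' j) (fun i hi => ?_)⟩
    have hA : i ∉ Lv (seg (w x)) ℓ F1 := by
      intro hA
      have h3 := key_seg2 hD.symm hx hy' h' hA
      have h4 : j ∈ seg (w y') i := mem_seg.2 hi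
      rw [h3] at h4
      exact h1 ((mem_Lv.1 hA).2 h4)
    simp only [hA, if_false]
  · refine ⟨w x j, hD.mem x hx j, agrees_congr (hD.ag x hx j) (fun i hi => ?_)⟩
    have hA : i ∉ Lv (seg (w x)) ℓ F1 := fun hA => h1 ((mem_Lv.1 hA).2 (mem_seg.2 hi))
    have hB : i ∉ Lv (seg (w x)) ℓ F2 := fun hB => h2 ((mem_Lv.1 hB).2 (mem_seg.2 hi))
    simp only [hA, if_false]
    exact key_off hD.symm hx h' hB

/-- One of the two classes is small. -/
lemma cl_small (hD : Dat P w S ℓ F1 F2 E)
    {f : (Fin n → Bool) → Bool} (hsound : ∀ z, (∀ j, ∃ l ∈ S j, Agrees z l) → f z = true)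
    {m : ℕ} (hf : RectFree f m) {x : Fin n → Bool} (hx : x ∈ P) :
    (cl P w F1 E x).card < m ∨ (cl P w F2 E x).card < m := by
  by_contra hcon
  rw [not_or, not_lt, not_lt] at hcon
  obtain ⟨hc1, hc2⟩ := hcon
  set A := Lv (seg (w x)) ℓ F1 with hA
  have hmem : ∀ {F : Finset (Fin r)} {y : Fin n → Bool}, y ∈ cl P w F E x →
      y ∈ P ∧ key w F E y = key w F E x := by
    intro F y hy
    rw [cl, mem_filter] at hy
    exact hy
  have i1 : ((cl P w F1 E x).image (fun y i => if i ∈ A then y i else false)).card =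
      (cl P w F1 E x).card := by
    apply Finset.card_image_of_injOn
    intro y1 h1 y2 h2 he
    obtain ⟨h1P, h1k⟩ := hmem (mem_coe.1 h1)
    obtain ⟨h2P, h2k⟩ := hmem (mem_coe.1 h2)
    funext i
    by_cases hi : i ∈ A
    · have := congrFun he i
      simpa [hi] using this
    · rw [key_off hD hx h1k hi, key_off hD hx h2k hi]
  have i2 : ((cl P w F2 E x).image (fun y i => if i ∈ A then false else y i)).card =
      (cl P w F2 E x).card := by
    apply Finset.card_image_of_injOn
    intro y1 h1 y2 h2 he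
    obtain ⟨h1P, h1k⟩ := hmem (mem_coe.1 h1)
    obtain ⟨h2P, h2k⟩ := hmem (mem_coe.1 h2)
    funext i
    by_cases hi : i ∈ A
    · have hB : i ∉ Lv (seg (w x)) ℓ F2 := Lv_disj hD (hD.ne x hx i) hi
      rw [key_off hD.symm hx h1k hB, key_off hD.symm hx h2k hB]
    · have := congrFun he i
      simpa [hi] using this
  obtain ⟨a, ha, a', ha', hfa⟩ := hf A
    ((cl P w F1 E x).image (fun y i => if i ∈ A then y i else false))
    ((cl P w F2 E x).image (fun y i => if i ∈ A then false else y i)) (by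
      intro a ha i hi
      obtain ⟨y, _, rfl⟩ := Finset.mem_image.1 ha
      simp [hi]) (by
      intro a ha i hi
      obtain ⟨y, _, rfl⟩ := Finset.mem_image.1 ha
      simp [hi]) (by rw [i1]; exact hc1) (by rw [i2]; exact hc2)
  obtain ⟨y, hy, rfl⟩ := Finset.mem_image.1 ha
  obtain ⟨y', hy', rfl⟩ := Finset.mem_image.1 ha'
  obtain ⟨hyP, hyk⟩ := hmem hy
  obtain ⟨hyP', hyk'⟩ := hmem hy'
  have h1 := hybrid hD hsound hx hyP hyP' hyk hyk'
  rw [← hA] at h1
  have h2 : (fun i => if i ∈ A then (fun i => if i ∈ A then y i else false) i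
      else (fun i => if i ∈ A then false else y' i) i) = fun i => if i ∈ A then y i else y' i := by
    funext i
    by_cases hi : i ∈ A
    · simp [hi]
    · simp [hi]
  rw [h2, h1] at hfa
  exact Bool.true_eq_false_eq_False hfa

/-- the number of points that agree with `x` outside `A` -/
lemma card_cube (A : Finset (Fin n)) (x : Fin n → Bool) :
    (univ.filter (fun z : Fin n → Bool => ∀ i, i ∉ A → z i = x i)).card = 2 ^ A.card := by
  have h : (univ.filter (fun z : Fin n → Bool => ∀ i, i ∉ A → z i = x i)) =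
      Fintype.piFinset (fun i => if i ∈ A then univ else {x i}) := by
    ext z
    rw [mem_filter, Fintype.mem_piFinset]
    simp only [mem_univ, true_and]
    refine forall_congr' (fun i => ?_)
    by_cases hi : i ∈ A
    · simp [hi]
    · simp [hi]
  rw [h, Fintype.card_piFinset]
  have h2 : ∀ i : Fin n, (if i ∈ A then (univ : Finset Bool) else {x i}).card =
      if i ∈ A then 2 else 1 := by
    intro i
    split_ifs <;> simp
  simp only [h2]
  rw [Finset.prod_ite]
  simp

open Classical in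
/-- Few inputs have a small class. -/
lemma card_small (hD : Dat P w S ℓ F1 F2 E) {a m u : ℕ} (ha : 1 ≤ a)
    (hamb : ∀ (z : Fin n → Bool) (j : Fin r),
      {V | ∃ l ∈ S j, Agrees z l ∧ vars l = V}.encard ≤ a)
    (hu : ∀ x ∈ P, u ≤ (Lv (seg (w x)) ℓ F1).card) :
    (P.filter (fun x => (cl P w F1 E x).card < m)).card * 2 ^ u ≤ m * (2 ^ n * a ^ r) := by
  set Q := P.filter (fun x => (cl P w F1 E x).card < m) with hQ
  set K := Q.image (key w F1 E) with hK
  have hQP : ∀ x ∈ Q, x ∈ P := fun x hx => (mem_filter.1 hx).1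
  -- fibres
  have h1 : Q.card ≤ m * K.card := by
    apply Finset.card_le_mul_card_image
    intro κ hκ
    obtain ⟨x, hx, rfl⟩ := mem_image.1 hκ
    have h2 := (mem_filter.1 hx).2
    refine le_trans (Finset.card_le_card ?_) h2.le
    intro y hy
    rw [mem_filter] at hy
    rw [cl, mem_filter]
    exact ⟨hQP y hy.1, hy.2⟩
  -- double counting
  have hfin : ∀ (z : Fin n → Bool) (j : Fin r),
      {V | ∃ l ∈ S j, Agrees z l ∧ vars l = V}.Finite := fun z j => Set.toFinite _
  have h2 : K.card * 2 ^ u ≤ (univ : Finset (Fin n → Bool)).card * a ^ r := by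
    apply Finset.card_mul_le_card_mul (fun (κ : (Fin r → Finset (Fin n)) × (Fin n → Bool))
      (z : Fin n → Bool) => ∃ x ∈ Q, key w F1 E x = κ ∧
        ∀ i, i ∉ Lv (seg (w x)) ℓ F1 → z i = x i)
    · intro κ hκ
      obtain ⟨x, hx, rfl⟩ := mem_image.1 hκ
      calc 2 ^ u ≤ 2 ^ (Lv (seg (w x)) ℓ F1).card :=
            Nat.pow_le_pow_right (by norm_num) (hu x (hQP x hx))
        _ = (univ.filter (fun z : Fin n → Bool => ∀ i, i ∉ Lv (seg (w x)) ℓ F1 → z i = x i)).card :=
            (card_cube _ x).symm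
        _ ≤ _ := by
            apply Finset.card_le_card
            intro z hz
            rw [mem_filter] at hz
            rw [Finset.mem_bipartiteAbove]
            exact ⟨mem_univ _, x, hx, rfl, hz.2⟩
    · intro z _
      let T : Fin r → Finset (Finset (Fin n)) := fun j =>
        if j ∈ F1 then {∅} else (hfin z j).toFinset
      have hT : ∀ j, (T j).card ≤ a := by
        intro j
        by_cases hj : j ∈ F1
        · simp only [T, hj, if_true, card_singleton]
          exact ha
        · simp only [T, hj, if_false]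
          have := hamb z j
          rw [(hfin z j).encard_eq_coe_toFinset_card] at this
          exact_mod_cast this
      calc _ ≤ (Fintype.piFinset T).card := by
            apply Finset.card_le_card_of_injOn Prod.fst
            · intro κ hκ
              rw [mem_coe, Finset.mem_bipartiteBelow] at hκ
              obtain ⟨_, x, hx, rfl, hz⟩ := hκ
              rw [mem_coe, Fintype.mem_piFinset]
              intro j
              by_cases hj : j ∈ F1
              · simp [T, key, hj]
              · simp only [T, key, hj, if_false, Set.Finite.mem_toFinset, Set.mem_ofPred_eq]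
                refine ⟨w x j, hD.mem x (hQP x hx) j,
                  agrees_congr (hD.ag x (hQP x hx) j) ?_, rfl⟩
                intro i hi
                apply hz
                intro hA
                exact hj ((mem_Lv.1 hA).2 (mem_seg.2 hi))
            · intro κ hκ κ' hκ' he
              rw [mem_coe, Finset.mem_bipartiteBelow] at hκ hκ'
              obtain ⟨_, x, hx, rfl, hz⟩ := hκ
              obtain ⟨_, x', hx', rfl, hz'⟩ := hκ'
              have hV : ∀ j, j ∉ F1 → vars (w x j) = vars (w x' j) := by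
                intro j hj
                have h3 := congrFun he j
                simpa [key, hj] using h3
              apply Prod.ext he
              funext i
              by_cases hi : i ∈ E ∨ ∃ j, j ∉ F1 ∧ i ∈ vars (w x j)
              · have hi' : i ∈ E ∨ ∃ j, j ∉ F1 ∧ i ∈ vars (w x' j) := by
                  rcases hi with hi | ⟨j, hj, hi⟩
                  · exact Or.inl hi
                  · exact Or.inr ⟨j, hj, by rw [← hV j hj]; exact hi⟩
                have e0 : ∀ x ∈ Q, (i ∈ E ∨ ∃ j, j ∉ F1 ∧ i ∈ vars (w x j)) →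
                    i ∉ Lv (seg (w x)) ℓ F1 := by
                  intro x hx h hA
                  rcases h with h | ⟨j, hj, h⟩
                  · rw [← hD.ex x (hQP x hx)] at h
                    exact Ex_Lv h hA
                  · exact hj ((mem_Lv.1 hA).2 (mem_seg.2 h))
                simp only [key]
                rw [if_pos hi, if_pos hi', ← hz i (e0 x hx hi), ← hz' i (e0 x' hx' hi')]
              · have hi' : ¬ (i ∈ E ∨ ∃ j, j ∉ F1 ∧ i ∈ vars (w x' j)) := by
                  rintro (h | ⟨j, hj, h⟩)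
                  · exact hi (Or.inl h)
                  · exact hi (Or.inr ⟨j, hj, by rw [hV j hj]; exact h⟩)
                simp only [key]
                rw [if_neg hi, if_neg hi']
        _ = ∏ j, (T j).card := Fintype.card_piFinset T
        _ ≤ ∏ _j : Fin r, a := Finset.prod_le_prod' (fun j _ => hT j)
        _ = a ^ r := by simp
  calc Q.card * 2 ^ u ≤ m * K.card * 2 ^ u := Nat.mul_le_mul_right _ h1
    _ = m * (K.card * 2 ^ u) := by ring
    _ ≤ m * ((univ : Finset (Fin n → Bool)).card * a ^ r) := Nat.mul_le_mul_left _ h2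
    _ = m * (2 ^ n * a ^ r) := by
        rw [card_univ, Fintype.card_fun, Fintype.card_bool, Fintype.card_fin]

/-- The size of `P`. -/
theorem card_P (hD : Dat P w S ℓ F1 F2 E)
    {f : (Fin n → Bool) → Bool} (hsound : ∀ z, (∀ j, ∃ l ∈ S j, Agrees z l) → f z = true)
    {a m u : ℕ} (hf : RectFree f m) (ha : 1 ≤ a)
    (hamb : ∀ (z : Fin n → Bool) (j : Fin r),
      {V | ∃ l ∈ S j, Agrees z l ∧ vars l = V}.encard ≤ a)
    (hu1 : ∀ x ∈ P, u ≤ (Lv (seg (w x)) ℓ F1).card)
    (hu2 : ∀ x ∈ P, u ≤ (Lv (seg (w x)) ℓ F2).card) :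
    P.card * 2 ^ u ≤ 2 * (m * (2 ^ n * a ^ r)) := by
  classical
  have h1 := card_small hD (m := m) ha hamb hu1
  have h2 := card_small hD.symm (m := m) ha hamb hu2
  have h3 : P.card ≤ (P.filter (fun x => (cl P w F1 E x).card < m)).card +
      (P.filter (fun x => (cl P w F2 E x).card < m)).card := by
    refine le_trans (Finset.card_le_card ?_) (Finset.card_union_le _ _)
    intro x hx
    rw [mem_union, mem_filter, mem_filter]
    rcases cl_small hD hsound hf hx with h | h
    · exact Or.inl ⟨hx, h⟩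
    · exact Or.inr ⟨hx, h⟩
  calc P.card * 2 ^ u ≤ _ := Nat.mul_le_mul_right _ h3
    _ ≤ _ := by
        rw [add_mul]
        omega

end

end Pool.Agent.Lib_helper20.LG
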