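import Pool.Agent.Lib_helper20.LG.Defs
import Pool.Agent.Lib_helper45.SRO.U2

/-!
Module Compl: small syntactic read-once programs of small ambiguity for the complement of the hard
function.
-/

namespace Pool.Agent.Lib_helper20.LG

open Finset Pool.Agent.Lib_helper20.SRO Pool.Agent.Lib_helper45.SRO

section uni

variable {V Q : Type} {T M : ℕ} {ord : Fin T → Fin M → V} {init : Fin T → Q}
    {step : Fin T → Fin M → Q → Bool → Q} {acc : Fin T → Q → Prop}

/-- the number of tests before a node -/
def enNode : ((Fin T × Fin (M + 1) × Q) ⊕ Bool) → ℕ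
  | Sum.inl (_, j, _) => j.val
  | Sum.inr true => M
  | Sum.inr false => 0

/-- the tests of the automaton `t` on the input `b` -/
def full (ord : Fin T → Fin M → V) (b : V → Bool) (t : Fin T) : List (V × Bool) :=
  List.ofFn (fun i : Fin M => (ord t i, b (ord t i)))

theorem full_drop (b : V → Bool) (t : Fin T) (j : Fin M) {e : ℕ} (he : j.val + 1 ≤ e) :
    ((full ord b t).take e).drop j.val =
      (ord t j, b (ord t j)) :: ((full ord b t).take e).drop (j.val + 1) := by
  have hlen : j.val < ((full ord b t).take e).length := by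
    rw [List.length_take, full, List.length_ofFn]
    have := j.2
    omega
  rw [List.drop_eq_getElem_cons hlen]
  congr 1
  rw [List.getElem_take]
  simp [full]

theorem uni_forced {b : V → Bool} {u v : (Fin T × Fin (M + 1) × Q) ⊕ Bool}
    {l : List (V × Bool)} (h : Walk (uni ord init step acc) u v l) : Agrees b l →
    (∀ t (j : Fin (M + 1)) q, u = Sum.inl (t, j, q) → j.val ≤ enNode v ∧
      l = ((full ord b t).take (enNode v)).drop j.val) ∧
    (u = Sum.inr true → v = Sum.inr true ∧ l = []) := by
  induction h with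
  | nil u =>
    intro _
    refine ⟨?_, fun h => ⟨h, rfl⟩⟩
    intro t j q h
    subst h
    refine ⟨le_rfl, ?_⟩
    rw [eq_comm, List.drop_eq_nil_iff, List.length_take]
    exact min_le_left _ _
  | free he _ ih =>
    intro hb
    rcases he with ⟨t, h1, h2, _⟩ | ⟨t, j, q, c, _, _, h3⟩ | ⟨t, q, _, h1, h2, _⟩
    · subst h1
      exact ⟨fun t j q h => by simp at h, fun h => by simp at h⟩
    · simp at h3
    · obtain ⟨h4, h5⟩ := (ih hb).2 h2
      subst h1 h4 h5
      refine ⟨?_, fun h => by simp at h⟩
      intro t' j' q' h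
      simp only [Sum.inl.injEq, Prod.mk.injEq] at h
      obtain ⟨h6, h7, _⟩ := h
      subst h6 h7
      refine ⟨by simp [enNode], ?_⟩
      rw [eq_comm, List.drop_eq_nil_iff, List.length_take]
      simp [enNode]
  | @test u' v' w' l' x c he _ ih =>
    intro hb
    rcases he with ⟨t, _, _, h3⟩ | ⟨t, j, q, c', h1, h2, h3⟩ | ⟨t, q, _, _, _, h3⟩
    · simp at h3
    · subst h1
      simp only [Option.some.injEq, Prod.mk.injEq] at h3
      obtain ⟨h4, h5⟩ := h3
      subst h4 h5
      have hc : b (ord t j) = c := hb (ord t j, c) List.mem_cons_self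
      obtain ⟨i1, i2⟩ := (ih (fun p hp => hb p (List.mem_cons_of_mem _ hp))).1 t j.succ _ h2
      refine ⟨?_, fun h => by simp at h⟩
      intro t' j' q' h
      simp only [Sum.inl.injEq, Prod.mk.injEq] at h
      obtain ⟨h6, h7, _⟩ := h
      subst h6 h7
      rw [Fin.val_succ] at i1 i2
      rw [Fin.val_castSucc]
      refine ⟨by omega, ?_⟩
      rw [full_drop b t j i1, ← i2, hc]
    · simp at h3

theorem uni_ambiguity (hT : 0 < T) : (uni ord init step acc).Ambiguity T := by
  intro b u v
  have key : ∃ g : Fin T → List (V × Bool), {l | Walk (uni ord init step acc) u v l ∧ Agrees b l} ⊆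
      Set.range g := by
    rcases u with ⟨t, j, q⟩ | c
    · refine ⟨fun _ => ((full ord b t).take (enNode v)).drop j.val, ?_⟩
      rintro l ⟨hl, hb⟩
      exact ⟨⟨0, hT⟩, (((uni_forced hl hb).1 t j q rfl).2).symm⟩
    · cases c
      · refine ⟨fun t => (full ord b t).take (enNode v), ?_⟩
        rintro l ⟨hl, hb⟩
        cases hl with
        | nil => exact ⟨⟨0, hT⟩, rfl⟩
        | free he hw =>
          rcases he with ⟨t, _, h2, _⟩ | ⟨t, j, q, c, _, _, h3⟩ | ⟨t, q, _, h1, _, _⟩
          · refine ⟨t, ?_⟩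
            have := ((uni_forced hw hb).1 t 0 _ h2).2
            rw [this]
            simp
          · simp at h3
          · simp at h1
        | test x c he hw =>
          rcases he with ⟨t, _, _, h3⟩ | ⟨t, j, q, c', h1, _, _⟩ | ⟨t, q, _, _, _, h3⟩
          · simp at h3
          · simp at h1
          · simp at h3
      · refine ⟨fun _ => [], ?_⟩
        rintro l ⟨hl, hb⟩
        exact ⟨⟨0, hT⟩, (((uni_forced hl hb).2 rfl).2).symm⟩
  obtain ⟨g, hg⟩ := key
  calc {l | Walk (uni ord init step acc) u v l ∧ Agrees b l}.encard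
      ≤ (Set.range g).encard := Set.encard_le_encard hg
    _ ≤ (Set.univ : Set (Fin T)).encard := by
        rw [← Set.image_univ]
        exact Set.encard_image_le _ _
    _ = T := by simp

theorem uni_accepts (b : V → Bool) : (uni ord init step acc).Accepts b ↔
    ∃ t, acc t (run (ord t) (init t) (step t) b M le_rfl) := by
  constructor
  · rintro ⟨l, hl, hb⟩
    cases hl with
    | free he hw =>
      rcases he with ⟨t, _, h2, _⟩ | ⟨t, j, q, c, _, _, h3⟩ | ⟨t, q, _, h1, _, _⟩
      · exact ⟨t, uni_acc hw hb rfl t 0 _ h2 rfl⟩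
      · simp at h3
      · simp [uni] at h1
    | test x c he hw =>
      rcases he with ⟨t, _, _, h3⟩ | ⟨t, j, q, c', h1, _, _⟩ | ⟨t, q, _, _, _, h3⟩
      · simp at h3
      · simp [uni] at h1
      · simp at h3
  · rintro ⟨t, ht⟩
    obtain ⟨l, hl, hb⟩ := uni_walk (ord := ord) (init := init) (step := step) (acc := acc)
      b t M le_rfl
    refine ⟨l ++ [], walk_append hl ?_, by simpa using hb⟩
    exact Walk.free (Or.inr (Or.inr ⟨t, _, ht, rfl, rfl, rfl⟩)) (Walk.nil _)

end uni

theorem uListA {V Q : Type} {T M : ℕ} (hT : 0 < T) (L : Fin T → List V)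
    (hM : ∀ t, (L t).length = M) (hnd : ∀ t, (L t).Nodup) (init : Q)
    (st : Fin T → Q → V → Bool → Q) (acc : Fin T → Q → Prop) :
    ∃ G : NBP V ((Fin T × Fin (M + 1) × Q) ⊕ Bool), G.SyntacticReadOnce ∧ G.Ambiguity T ∧
      ∀ b, G.Accepts b ↔ ∃ t, acc t ((L t).foldl (fun q x => st t q x (b x)) init) := by
  refine ⟨uni (fun t i => (L t).get (Fin.cast (hM t).symm i)) (fun _ => init)
    (fun t i q c => st t q ((L t).get (Fin.cast (hM t).symm i)) c) acc, ?_, uni_ambiguity hT, ?_⟩
  · intro l hl
    refine (uni_nodup ?_ hl).2.2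
    intro t i j h
    have h1 := (List.nodup_iff_injective_get.1 (hnd t)) h
    exact Fin.cast_injective _ h1
  · intro b
    rw [uni_accepts b]
    refine exists_congr (fun t => ?_)
    rw [run_list (L t) (hM t) init (st t) b M le_rfl, List.take_of_length_le (hM t).le]

theorem stmtCompl : StmtCompl := by
  intro n hn
  obtain ⟨G, hG1, hG3, hG2⟩ := uListA (V := Var2 n) (Q := St n) (T := tt n)
    (M := n * (2 * kk n + 1) + 1) (tt_pos n) ordL length_ordL nodup_ordL
    ((fun _ _ => 0), false, 0)
    (fun _ => stp)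
    (fun _ q => q.2.2 = 1 ∨ ∑ l, q.1 l false * q.1 l true ≠ if q.2.1 then 1 else 0)
  refine ⟨_, inferInstance, G, hG1, ?_, ?_, ?_⟩
  · intro b u v
    refine (hG3 b u v).trans ?_
    have h4 := four_le_kk n hn
    have h2 : tt n ≤ n / 4 + 1 := by
      unfold tt
      have := Nat.div_le_div_left h4 (show 0 < 4 by norm_num) (a := n)
      omega
    have h3 : tt n ≤ n := by omega
    exact_mod_cast h3
  · intro v
    rw [hG2 v]
    have e : (!hardF2 n v) = (!QF (fun t l s i => v (vc t l s i)) (fun t => v (ve t))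
        (fun i => v (vb i))) := rfl
    beta_reduce
    rw [e, ← final_iff (tt_pos n)]
    refine exists_congr (fun t => ?_)
    rw [fold_ordL v t]
    rfl
  · rw [Fintype.card_sum, Fintype.card_prod, Fintype.card_prod, Fintype.card_prod,
      Fintype.card_prod, card_regs, ZMod.card, Fintype.card_fin, Fintype.card_fin,
      Fintype.card_bool]
    have hV : Fintype.card (Var2 n) = tt n * (kk n * (2 * n)) + tt n + n := by
      rw [Fintype.card_sum, Fintype.card_sum, Fintype.card_prod, Fintype.card_prod,
        Fintype.card_prod, Fintype.card_fin, Fintype.card_fin, Fintype.card_fin,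
        Fintype.card_bool]
    rw [hV]
    exact numU2 n (tt n) (kk n) hn (pow_kk n hn) (four_le_kk n hn) (le_tt_mul n hn) (tt_pos n)

end Pool.Agent.Lib_helper20.LG
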