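import Pool.Agent.Lib_helper20.LG.Defs2
import Pool.Agent.Lib_helper20.LG.Compl

/-!
Module ComplA: small syntactic read-once programs with one access pattern for the complement of
`avoidF`.   (helper25)
-/

namespace Pool.Agent.Lib_helper20.LG

open Finset Pool.Agent.Lib_helper20.SRO Pool.Agent.Lib_helper45.SRO

/-! ### automata with the same access pattern -/

/-- the variable of the second kind, if it is one -/
def rt {W X : Type} : W ⊕ X → Option X
  | Sum.inl _ => none
  | Sum.inr x => some x

theorem mem_rt {W X : Type} {l : List ((W ⊕ X) × Bool)} {x : X} :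
    (∃ c, (Sum.inr x, c) ∈ l) ↔ some x ∈ l.map (fun p => rt p.1) := by
  rw [List.mem_map]
  constructor
  · rintro ⟨c, h⟩
    exact ⟨_, h, rfl⟩
  · rintro ⟨⟨y, c⟩, h, e⟩
    rcases y with y | y
    · simp [rt] at e
    · simp only [rt, Option.some.injEq] at e
      subst e
      exact ⟨c, h⟩

theorem uListP {W X Q : Type} {T M : ℕ} (L : Fin T → List (W ⊕ X))
    (hM : ∀ t, (L t).length = M) (hnd : ∀ t, (L t).Nodup) (init : Q)
    (st : Fin T → Q → W ⊕ X → Bool → Q) (acc : Fin T → Q → Prop) (pat : List (Option X))
    (hpat : ∀ t, (L t).map rt = pat) :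
    ∃ G : NBP (W ⊕ X) ((Fin T × Fin (M + 1) × Q) ⊕ Bool), G.SyntacticReadOnce ∧
      G.AccessPatterns 1 ∧
      ∀ b, G.Accepts b ↔ ∃ t, acc t ((L t).foldl (fun q x => st t q x (b x)) init) := by
  refine ⟨uni (fun t i => (L t).get (Fin.cast (hM t).symm i)) (fun _ => init)
    (fun t i q c => st t q ((L t).get (Fin.cast (hM t).symm i)) c) acc, ?_, ?_, ?_⟩
  · intro l hl
    refine (uni_nodup ?_ hl).2.2
    intro t i j h
    have h1 := (List.nodup_iff_injective_get.1 (hnd t)) h
    exact Fin.cast_injective _ h1
  · intro b u v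
    have hfull : ∀ t, (full (fun t i => (L t).get (Fin.cast (hM t).symm i)) b t).map
        (fun p => rt p.1) = pat := by
      intro t
      rw [← hpat t, full, List.map_ofFn]
      have e : ((fun p : (W ⊕ X) × Bool => rt p.1) ∘ fun i : Fin M =>
          ((L t).get (Fin.cast (hM t).symm i), b ((L t).get (Fin.cast (hM t).symm i)))) =
          fun i : Fin M => rt ((L t).get (Fin.cast (hM t).symm i)) := rfl
      rw [e]
      apply List.ext_getElem
      · rw [List.length_ofFn, List.length_map, hM t]
      · intro i h1 h2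
        simp
    rw [Nat.cast_one, Set.encard_le_one_iff]
    have key : ∃ S0 : Set X, ∀ l, Walk (uni (fun t i => (L t).get (Fin.cast (hM t).symm i))
        (fun _ => init) (fun t i q c => st t q ((L t).get (Fin.cast (hM t).symm i)) c) acc) u v l →
        Agrees b l → {x | ∃ c, (Sum.inr x, c) ∈ l} = S0 := by
      rcases u with ⟨t, j, q⟩ | c
      · refine ⟨{x : X | ∃ c, (Sum.inr x, c) ∈ ((full (fun t i => (L t).get
          (Fin.cast (hM t).symm i)) b t).take (enNode v)).drop j.val}, fun l hl hb => ?_⟩
        rw [((uni_forced hl hb).1 t j q rfl).2]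
      · cases c
        · refine ⟨{x | some x ∈ pat.take (enNode v)}, fun l hl hb => ?_⟩
          have main : ∀ t : Fin T, {x : X | ∃ c, (Sum.inr x, c) ∈
              (full (fun t i => (L t).get (Fin.cast (hM t).symm i)) b t).take (enNode v)} =
              {x | some x ∈ pat.take (enNode v)} := by
            intro t
            ext x
            show (∃ c, _) ↔ some x ∈ pat.take (enNode v)
            rw [mem_rt, List.map_take, hfull t]
          cases hl with
          | nil =>
            ext x
            show (∃ c, (Sum.inr x, c) ∈ ([] : List ((W ⊕ X) × Bool))) ↔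
              some x ∈ pat.take (enNode (Sum.inr false : (Fin T × Fin (M + 1) × Q) ⊕ Bool))
            simp [enNode]
          | free he hw =>
            rcases he with ⟨t, _, h2, _⟩ | ⟨t, j, q, c, _, _, h3⟩ | ⟨t, q, _, h1, _, _⟩
            · have := ((uni_forced hw hb).1 t 0 _ h2).2
              rw [this]
              exact main t
            · simp at h3
            · simp at h1
          | test x c he hw =>
            rcases he with ⟨t, _, _, h3⟩ | ⟨t, j, q, c', h1, _, _⟩ | ⟨t, q, _, _, _, h3⟩
            · simp at h3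
            · simp at h1
            · simp at h3
        · refine ⟨∅, fun l hl hb => ?_⟩
          rw [((uni_forced hl hb).2 rfl).2]
          simp
    obtain ⟨S0, hS0⟩ := key
    rintro S S' ⟨l, h1, h2, rfl⟩ ⟨l', h1', h2', rfl⟩
    rw [hS0 l h1 h2, hS0 l' h1' h2']
  · intro b
    rw [uni_accepts b]
    refine exists_congr (fun t => ?_)
    rw [run_list (L t) (hM t) init (st t) b M le_rfl, List.take_of_length_le (hM t).le]

/-! ### the order -/

variable {n : ℕ}

abbrev pb (j : Fin n) : VarA n := Sum.inr j
abbrev pm (t : Fin (subs n)) (i : Fin (codim n)) (j : Fin n) : VarA n :=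
  Sum.inl (Sum.inl (t, i, j))
abbrev ps (t : Fin (subs n)) (i : Fin (codim n)) : VarA n := Sum.inl (Sum.inr (t, i))

/-- point variable and coefficients -/
def bkA (t : Fin (subs n)) (j : Fin n) : List (VarA n) :=
  pb j :: (List.finRange (codim n)).map (fun i => pm t i j)

/-- the order of the automaton `t` -/
def ordA (t : Fin (subs n)) : List (VarA n) :=
  (List.finRange (codim n)).map (fun i => ps t i) ++ (List.finRange n).flatMap (bkA t)

theorem length_ordA (t : Fin (subs n)) : (ordA t).length = codim n + n * (codim n + 1) := by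
  rw [ordA, List.length_append, List.length_map, List.length_finRange, List.length_flatMap]
  congr 1
  have : (fun j => (bkA t j).length) = fun _ : Fin n => codim n + 1 := by
    funext j
    simp [bkA]
  rw [this]
  simp

theorem mem_bkA {t : Fin (subs n)} {j : Fin n} {x : VarA n} :
    x ∈ bkA t j ↔ x = pb j ∨ ∃ i, x = pm t i j := by
  unfold bkA
  rw [List.mem_cons, List.mem_map]
  refine or_congr Iff.rfl ?_
  constructor
  · rintro ⟨i, _, rfl⟩
    exact ⟨i, rfl⟩
  · rintro ⟨i, rfl⟩
    exact ⟨i, List.mem_finRange _, rfl⟩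

theorem nodup_bkA (t : Fin (subs n)) (j : Fin n) : (bkA t j).Nodup := by
  unfold bkA
  rw [List.nodup_cons]
  refine ⟨?_, (List.nodup_finRange _).map ?_⟩
  · intro h
    obtain ⟨i, _, h⟩ := List.mem_map.1 h
    simp at h
  · intro i i' h
    simp only [Sum.inl.injEq, Prod.mk.injEq] at h
    exact h.2.1

theorem nodup_flat (t : Fin (subs n)) {J : List (Fin n)} (hJ : J.Nodup) :
    (J.flatMap (bkA t)).Nodup := by
  induction J with
  | nil => simp
  | cons j J ih =>
    rw [List.nodup_cons] at hJ
    rw [List.flatMap_cons, List.nodup_append]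
    refine ⟨nodup_bkA t j, ih hJ.2, ?_⟩
    intro x hx y hy hxy
    subst hxy
    obtain ⟨j', hj', hx'⟩ := List.mem_flatMap.1 hy
    rw [mem_bkA] at hx hx'
    rcases hx with rfl | ⟨i, rfl⟩
    · rcases hx' with h | ⟨i, h⟩
      · simp only [Sum.inr.injEq] at h
        rw [h] at hJ
        exact hJ.1 hj'
      · simp at h
    · rcases hx' with h | ⟨i', h⟩
      · simp at h
      · simp only [Sum.inl.injEq, Prod.mk.injEq] at h
        rw [h.2.2] at hJ
        exact hJ.1 hj'

theorem nodup_ordA (t : Fin (subs n)) : (ordA t).Nodup := by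
  rw [ordA, List.nodup_append]
  refine ⟨(List.nodup_finRange _).map ?_, nodup_flat t (List.nodup_finRange n), ?_⟩
  · intro i i' h
    simp only [Sum.inl.injEq, Sum.inr.injEq, Prod.mk.injEq] at h
    exact h.2
  · intro x hx y hy hxy
    subst hxy
    obtain ⟨i, _, rfl⟩ := List.mem_map.1 hx
    obtain ⟨j, _, hx'⟩ := List.mem_flatMap.1 hy
    rw [mem_bkA] at hx'
    rcases hx' with h | ⟨i', h⟩
    · simp at h
    · simp at h

theorem pat_bkA (t t' : Fin (subs n)) (j : Fin n) : (bkA t j).map rt = (bkA t' j).map rt := by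
  unfold bkA
  rw [List.map_cons, List.map_cons, List.map_map, List.map_map]
  rfl

theorem pat_ordA (t t' : Fin (subs n)) : (ordA t).map rt = (ordA t').map rt := by
  unfold ordA
  rw [List.map_append, List.map_append, List.map_map, List.map_map]
  have h : ∀ J : List (Fin n), (J.flatMap (bkA t)).map rt = (J.flatMap (bkA t')).map rt := by
    intro J
    induction J with
    | nil => rfl
    | cons j J ih =>
      rw [List.flatMap_cons, List.flatMap_cons, List.map_append, List.map_append, ih,
        pat_bkA t t' j]
  rw [h]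
  rfl

/-! ### the automata -/

/-- the states -/
abbrev StA (n : ℕ) : Type := (Fin (codim n) → ZMod 2) × ZMod 2

/-- a bit as an element of `ZMod 2` -/
def bz (c : Bool) : ZMod 2 := if c then 1 else 0

/-- the step of the automaton; `w` is `true` for the last automaton, which computes the parity of the
weight of the point -/
def stA (w : Bool) (q : StA n) (x : VarA n) (c : Bool) : StA n :=
  match x with
  | Sum.inr _ => (q.1, if w then q.2 + bz c else bz c)
  | Sum.inl (Sum.inl (_, i, _)) => (fun i' => if i' = i then q.1 i' + bz c * q.2 else q.1 i', q.2)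
  | Sum.inl (Sum.inr (_, i)) => (fun i' => if i' = i then q.1 i' + bz c else q.1 i', q.2)

theorem fold_s (w : Bool) (v : VarA n → Bool) (t : Fin (subs n)) {K : List (Fin (codim n))}
    (hK : K.Nodup) : ∀ (R : Fin (codim n) → ZMod 2) (p : ZMod 2),
    (K.map (fun i => ps t i)).foldl (fun q x => stA w q x (v x)) (R, p) =
      ((fun i => if i ∈ K then R i + bz (v (ps t i)) else R i), p) := by
  induction K with
  | nil => intro R p; simp
  | cons i0 K ih =>
    intro R p
    rw [List.nodup_cons] at hK
    rw [List.map_cons, List.foldl_cons]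
    have e : stA w (R, p) (ps t i0) (v (ps t i0)) =
      (fun i' => if i' = i0 then R i' + bz (v (ps t i0)) else R i', p) := rfl
    rw [e, ih hK.2]
    congr 1
    funext i
    by_cases hi : i = i0
    · subst hi
      rw [if_neg hK.1, if_pos List.mem_cons_self, if_pos rfl]
    · have h1 : (i ∈ i0 :: K) ↔ i ∈ K := by
        rw [List.mem_cons]
        exact ⟨fun h => h.resolve_left hi, Or.inr⟩
      simp only [hi, if_false, h1]

theorem fold_m (w : Bool) (v : VarA n → Bool) (t : Fin (subs n)) (j : Fin n)
    {K : List (Fin (codim n))} (hK : K.Nodup) : ∀ (R : Fin (codim n) → ZMod 2) (p : ZMod 2),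
    (K.map (fun i => pm t i j)).foldl (fun q x => stA w q x (v x)) (R, p) =
      ((fun i => if i ∈ K then R i + bz (v (pm t i j)) * p else R i), p) := by
  induction K with
  | nil => intro R p; simp
  | cons i0 K ih =>
    intro R p
    rw [List.nodup_cons] at hK
    rw [List.map_cons, List.foldl_cons]
    have e : stA w (R, p) (pm t i0 j) (v (pm t i0 j)) =
      (fun i' => if i' = i0 then R i' + bz (v (pm t i0 j)) * p else R i', p) := rfl
    rw [e, ih hK.2]
    congr 1
    funext i
    by_cases hi : i = i0
    · subst hi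
      rw [if_neg hK.1, if_pos List.mem_cons_self, if_pos rfl]
    · have h1 : (i ∈ i0 :: K) ↔ i ∈ K := by
        rw [List.mem_cons]
        exact ⟨fun h => h.resolve_left hi, Or.inr⟩
      simp only [hi, if_false, h1]

theorem fold_bkA (w : Bool) (v : VarA n → Bool) (t : Fin (subs n)) (j : Fin n)
    (R : Fin (codim n) → ZMod 2) (p : ZMod 2) :
    (bkA t j).foldl (fun q x => stA w q x (v x)) (R, p) =
      ((fun i => R i + bz (v (pm t i j)) * (if w then p + bz (v (pb j)) else bz (v (pb j)))),
        if w then p + bz (v (pb j)) else bz (v (pb j))) := by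
  unfold bkA
  rw [List.foldl_cons]
  have e : stA w (R, p) (pb j) (v (pb j)) =
      (R, if w then p + bz (v (pb j)) else bz (v (pb j))) := rfl
  rw [e, fold_m w v t j (List.nodup_finRange _)]
  simp only [List.mem_finRange, if_true]

theorem fold_false (v : VarA n → Bool) (t : Fin (subs n)) (J : List (Fin n)) :
    ∀ (R : Fin (codim n) → ZMod 2) (p : ZMod 2), ∃ p',
    (J.flatMap (bkA t)).foldl (fun q x => stA false q x (v x)) (R, p) =
      ((fun i => R i + (J.map (fun j => bz (v (pm t i j)) * bz (v (pb j)))).sum), p') := by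
  induction J with
  | nil => intro R p; exact ⟨p, by simp⟩
  | cons j J ih =>
    intro R p
    rw [List.flatMap_cons, List.foldl_append, fold_bkA]
    simp only [Bool.false_eq_true, if_false]
    obtain ⟨p', h⟩ := ih (fun i => R i + bz (v (pm t i j)) * bz (v (pb j))) (bz (v (pb j)))
    refine ⟨p', ?_⟩
    rw [h]
    simp only [List.map_cons, List.sum_cons, add_assoc]

theorem fold_true (v : VarA n → Bool) (t : Fin (subs n)) (J : List (Fin n)) :
    ∀ (R : Fin (codim n) → ZMod 2) (p : ZMod 2), ∃ R',
    (J.flatMap (bkA t)).foldl (fun q x => stA true q x (v x)) (R, p) =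
      (R', p + (J.map (fun j => bz (v (pb j)))).sum) := by
  induction J with
  | nil => intro R p; exact ⟨R, by simp⟩
  | cons j J ih =>
    intro R p
    rw [List.flatMap_cons, List.foldl_append, fold_bkA]
    simp only [if_true]
    obtain ⟨R', h⟩ := ih (fun i => R i + bz (v (pm t i j)) * (p + bz (v (pb j))))
      (p + bz (v (pb j)))
    refine ⟨R', ?_⟩
    rw [h]
    simp only [List.map_cons, List.sum_cons, add_assoc]

theorem bz_mul (a c : Bool) : bz a * bz c = if a && c then 1 else 0 := by
  cases a <;> cases c <;> simp [bz]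

theorem zmod2_add_eq_zero (x y : ZMod 2) : x + y = 0 ↔ y = x := by revert x y; decide

theorem accA_false (v : VarA n → Bool) (t : Fin (subs n)) :
    (((ordA t).foldl (fun q x => stA false q x (v x)) ((fun _ => 0), 0)).1 = fun _ => 0) ↔
      inSub (fun i j => v (pm t i j)) (fun i => v (ps t i)) (fun j => v (pb j)) = true := by
  rw [ordA, List.foldl_append, fold_s false v t (List.nodup_finRange _)]
  obtain ⟨p', h⟩ := fold_false v t (List.finRange n)
    (fun i => if i ∈ List.finRange (codim n) then 0 + bz (v (ps t i)) else 0) 0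
  rw [h, inSub, decide_eq_true_iff, funext_iff]
  refine forall_congr' fun i => ?_
  simp only [List.mem_finRange, if_true, zero_add]
  rw [zmod2_add_eq_zero]
  have e1 : dot (fun j => v (pm t i j)) (fun j => v (pb j)) =
      ((List.finRange n).map (fun j => bz (v (pm t i j)) * bz (v (pb j)))).sum := by
    unfold dot
    rw [Fin.sum_univ_def]
    congr 1
    refine List.map_congr_left fun j _ => ?_
    rw [bz_mul]
  rw [e1]
  rfl

theorem accA_true (v : VarA n → Bool) (t : Fin (subs n)) :
    (((ordA t).foldl (fun q x => stA true q x (v x)) ((fun _ => 0), 0)).2 = 1) ↔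
      evenWeight (fun j => v (pb j)) = false := by
  rw [ordA, List.foldl_append, fold_s true v t (List.nodup_finRange _)]
  obtain ⟨R', h⟩ := fold_true v t (List.finRange n)
    (fun i => if i ∈ List.finRange (codim n) then 0 + bz (v (ps t i)) else 0) 0
  rw [h]
  simp only [zero_add]
  have e1 : par (fun j => v (pb j)) = ((List.finRange n).map (fun j => bz (v (pb j)))).sum := by
    unfold par
    rw [Fin.sum_univ_def]
    rfl
  rw [← e1, zmod2_eq_one, ← Bool.not_eq_true, par_eq]

theorem subs_pos (hn : 16 ≤ n) : 0 < subs n := by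
  unfold subs
  positivity

theorem numA (n : ℕ) (hn : 16 ≤ n) :
    (subs n + 1) * ((codim n + n * (codim n + 1) + 1) * (2 ^ codim n * 2)) + 2 ≤
      (subs n * (codim n * n) + subs n * codim n + n) ^ 2 := by
  have hpow : 2 ^ codim n ≤ 4 * n ^ 2 := by
    have h1 : 2 ^ Nat.log 2 n ≤ n := Nat.pow_log_le_self 2 (by omega)
    calc 2 ^ codim n = 4 * (2 ^ Nat.log 2 n) ^ 2 := by
          unfold codim
          rw [← pow_mul, mul_add, pow_add]
          norm_num
          ring
      _ ≤ 4 * n ^ 2 := by gcongr
  have hd : 10 ≤ codim n := by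
    have h1 : Nat.log 2 16 ≤ Nat.log 2 n := Nat.log_mono_right hn
    have h2 : Nat.log 2 16 = 4 := by
      rw [show (16 : ℕ) = 2 ^ 4 by norm_num, Nat.log_pow (by norm_num)]
    unfold codim
    omega
  unfold subs
  set d := codim n with hdef
  set P := 5 * n ^ 2 * d * (n + 1) with hP
  have hA : P ≤ 5 * n ^ 2 * (d * n) + 5 * n ^ 2 * d + n := by
    have : 5 * n ^ 2 * (d * n) + 5 * n ^ 2 * d = P := by
      rw [hP]
      ring
    omega
  have hn1 : 1 ≤ n ^ 2 := Nat.one_le_pow _ _ (by omega)
  have h1 : (5 * n ^ 2 + 1) * (d + n * (d + 1) + 1) ≤ 3 * P := by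
    have e1 : d + n * (d + 1) + 1 = (n + 1) * (d + 1) := by ring
    rw [e1]
    calc (5 * n ^ 2 + 1) * ((n + 1) * (d + 1)) ≤ (6 * n ^ 2) * ((n + 1) * (2 * d)) := by
          gcongr
          · omega
          · omega
      _ = 12 * (n ^ 2 * d * (n + 1)) := by ring
      _ ≤ 15 * (n ^ 2 * d * (n + 1)) := by gcongr; norm_num
      _ = 3 * P := by rw [hP]; ring
  have h2 : 24 * n ^ 2 + 1 ≤ P := by
    have : 5 * n ^ 2 * 10 * 1 ≤ P := by
      rw [hP]
      gcongr
      omega
    omega
  calc (5 * n ^ 2 + 1) * ((d + n * (d + 1) + 1) * (2 ^ d * 2)) + 2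
      = ((5 * n ^ 2 + 1) * (d + n * (d + 1) + 1)) * (2 ^ d * 2) + 2 := by ring
    _ ≤ (3 * P) * ((4 * n ^ 2) * 2) + 2 := by gcongr
    _ = (24 * n ^ 2) * P + 2 := by ring
    _ ≤ (24 * n ^ 2) * P + P := by
        gcongr
        omega
    _ = (24 * n ^ 2 + 1) * P := by ring
    _ ≤ P * P := by gcongr
    _ = P ^ 2 := by ring
    _ ≤ (5 * n ^ 2 * (d * n) + 5 * n ^ 2 * d + n) ^ 2 := by gcongr

/-- **Module ComplA.** -/
theorem stmtComplA : StmtComplA := by
  intro n hn
  have hpos := subs_pos hn
  set ix : Fin (subs n + 1) → Fin (subs n) := fun t =>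
    if h : t.val < subs n then ⟨t.val, h⟩ else ⟨0, hpos⟩ with hix
  obtain ⟨G, hG1, hG3, hG2⟩ := uListP (T := subs n + 1) (Q := StA n)
    (M := codim n + n * (codim n + 1)) (fun t => ordA (ix t)) (fun t => length_ordA _)
    (fun t => nodup_ordA _) ((fun _ => 0), 0) (fun t => stA (decide (t.val = subs n)))
    (fun t q => if t.val = subs n then q.2 = 1 else q.1 = fun _ => 0)
    ((ordA (⟨0, hpos⟩ : Fin (subs n))).map rt) (fun t => pat_ordA _ _)
  refine ⟨_, inferInstance, G, hG1, hG3, ?_, ?_⟩
  · intro v
    rw [hG2 v]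
    have e : (!avoidF n v) = true ↔ evenWeight (fun j => v (pb j)) = false ∨
        ∃ t : Fin (subs n), inSub (fun i j => v (pm t i j)) (fun i => v (ps t i))
          (fun j => v (pb j)) = true := by
      rw [avoidF, avoid, Bool.not_and, Bool.or_eq_true, Bool.not_eq_true', Bool.not_eq_true',
        decide_eq_false_iff_not]
      push Not
      refine or_congr Iff.rfl (exists_congr fun t => ?_)
      simp
    rw [e]
    constructor
    · rintro ⟨t, ht⟩
      by_cases h : t.val = subs n
      · rw [if_pos h] at ht
        simp only [h, decide_true] at ht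
        exact Or.inl ((accA_true v _).1 ht)
      · rw [if_neg h] at ht
        simp only [h, decide_false] at ht
        exact Or.inr ⟨_, (accA_false v _).1 ht⟩
    · rintro (h | ⟨t, ht⟩)
      · refine ⟨Fin.last _, ?_⟩
        rw [if_pos (Fin.val_last _)]
        simp only [Fin.val_last, decide_true]
        exact (accA_true v _).2 h
      · refine ⟨t.castSucc, ?_⟩
        have h1 : (t.castSucc).val ≠ subs n := by
          rw [Fin.val_castSucc]
          exact t.2.ne
        have h2 : ix t.castSucc = t := by
          rw [hix]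
          simp
        rw [if_neg h1, h2]
        simp only [h1, decide_false]
        exact (accA_false v _).2 ht
  · rw [Fintype.card_sum, Fintype.card_prod, Fintype.card_prod, Fintype.card_prod,
      Fintype.card_fun, ZMod.card, Fintype.card_fin, Fintype.card_fin, Fintype.card_fin,
      Fintype.card_bool]
    have hV : Fintype.card (VarA n) = subs n * (codim n * n) + subs n * codim n + n := by
      rw [Fintype.card_sum, Fintype.card_sum, Fintype.card_prod, Fintype.card_prod,
        Fintype.card_prod, Fintype.card_fin, Fintype.card_fin, Fintype.card_fin]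
    rw [hV]
    exact numA n hn

end Pool.Agent.Lib_helper20.LG
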