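import Pool.Agent.Lib_helper20.LG.Seg
import Pool.Agent.Lib_helper20.LG.Choice

/-!
The core of the lower bound.
-/

namespace Pool.Agent.Lib_helper20.LG

open Finset Pool.Agent.Lib_helper20.SRO

variable {n r : ℕ}

lemma card_vars_le (l : List (Fin n × Bool)) : (vars l).card ≤ l.length := by
  have := List.toFinset_card_le (l.map Prod.fst)
  rwa [List.length_map] at this

lemma sum_seg (w : Fin r → List (Fin n × Bool)) : ∑ i, (seg w i).card = ∑ j, (vars (w j)).card := by
  have h1 : ∀ i, (seg w i).card = ∑ j : Fin r, if i ∈ vars (w j) then 1 else 0 := by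
    intro i
    rw [seg, Finset.card_filter]
  have h2 : ∀ j, (vars (w j)).card = ∑ i : Fin n, if i ∈ vars (w j) then 1 else 0 := by
    intro j
    rw [← Finset.card_filter, Finset.filter_mem_eq_inter, Finset.univ_inter]
  simp only [h1, h2]
  exact Finset.sum_comm

lemma count_seg (w : Fin r → List (Fin n × Bool)) (j : Fin r) :
    (univ.filter (fun i => j ∈ seg w i)).card = (vars (w j)).card := by
  congr 1
  ext i
  simp [mem_seg]

/-- the numerical end of the proof -/
lemma numeric {n q r L : ℕ} {a m N A : ℝ} (hq : 0 < q) (hL : 16 * q ≤ 2 ^ L)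
    (hn : 4 * q * (3 * r + 3) ≤ n) (ha : 1 ≤ a) (hN : 0 ≤ N) (hm : 0 ≤ m)
    (hm2 : m ≤ 2 ^ (1 / (8 * (q : ℝ) * (r + 3)) * n))
    (hA : (2 : ℝ) ^ n ≤ 2 ^ (1 / (8 * (q : ℝ) * (r + 3)) * n) * A)
    (hA2 : A ≤ N ^ (r + 1) * ((r + 1) * 4 ^ r * (2 * (m * (2 ^ n * a ^ r))) / 2 ^ (n / (2 * q)) *
      (1 / 2 ^ L + 1) ^ n)) : (2 : ℝ) ^ (1 / (8 * (q : ℝ) * (r + 3)) * n) ≤ a * N := by
  by_contra hcon
  rw [not_le] at hcon
  set c : ℝ := 1 / (8 * (q : ℝ) * (r + 3)) with hc
  have hq' : (0 : ℝ) < q := by exact_mod_cast hq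
  have hr0 : (0 : ℝ) ≤ r := Nat.cast_nonneg r
  have hn0 : (0 : ℝ) ≤ n := Nat.cast_nonneg n
  have h2c : (0 : ℝ) < 2 ^ (c * n) := Real.rpow_pos_of_pos (by norm_num) _
  have hcr : c * n * (r + 3) = n / (8 * q) := by
    rw [hc]
    field_simp
  -- the factor of the exceptional sets
  have h1 : (1 / 2 ^ L + 1 : ℝ) ^ n ≤ 2 ^ ((n : ℝ) / (8 * q)) := by
    have e1 : (1 / 2 ^ L + 1 : ℝ) ≤ Real.exp (1 / (16 * q)) := by
      refine le_trans ?_ (Real.add_one_le_exp _)
      have e2 : (16 * q : ℝ) ≤ 2 ^ L := by exact_mod_cast hL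
      have : (1 : ℝ) / 2 ^ L ≤ 1 / (16 * q) := one_div_le_one_div_of_le (by positivity) e2
      linarith
    have e3 : Real.exp (1 / (16 * q)) ≤ (2 : ℝ) ^ (1 / (8 * (q : ℝ))) := by
      rw [Real.rpow_def_of_pos (by norm_num)]
      apply Real.exp_le_exp.2
      have : (0.5 : ℝ) ≤ Real.log 2 := by
        have := Real.log_two_gt_d9
        linarith
      have e4 : (1 : ℝ) / (16 * q) = 0.5 * (1 / (8 * q)) := by
        field_simp
        norm_num
      rw [e4]
      apply mul_le_mul_of_nonneg_right this (by positivity)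
    calc (1 / 2 ^ L + 1 : ℝ) ^ n ≤ ((2 : ℝ) ^ (1 / (8 * (q : ℝ)))) ^ n :=
          pow_le_pow_left₀ (by positivity) (e1.trans e3) n
      _ = 2 ^ ((n : ℝ) / (8 * q)) := by
          rw [← Real.rpow_natCast, ← Real.rpow_mul (by norm_num)]
          congr 1
          field_simp
  -- powers
  have h2 : N ^ (r + 1) * a ^ r ≤ 2 ^ (c * n * (r + 1)) := by
    calc N ^ (r + 1) * a ^ r ≤ N ^ (r + 1) * a ^ (r + 1) := by
          apply mul_le_mul_of_nonneg_left _ (by positivity)
          exact pow_le_pow_right₀ ha (Nat.le_succ r)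
      _ = (a * N) ^ (r + 1) := by
          rw [mul_pow]
          ring
      _ ≤ ((2 : ℝ) ^ (c * n)) ^ (r + 1) := by
          apply pow_le_pow_left₀ _ hcon.le
          have : 0 ≤ a := by linarith
          positivity
      _ = 2 ^ (c * n * (r + 1)) := by
          rw [← Real.rpow_natCast, ← Real.rpow_mul (by norm_num)]
          push_cast
          rfl
  have h3 : ((r : ℝ) + 1) ≤ 2 ^ r := by
    have : r + 1 ≤ 2 ^ r := Nat.lt_two_pow_self
    exact_mod_cast this
  have h4 : (2 : ℝ) ^ ((n : ℝ) / (2 * q) - 1) ≤ 2 ^ (n / (2 * q)) := by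
    rw [← Real.rpow_natCast]
    apply Real.rpow_le_rpow_of_exponent_le (by norm_num)
    have h5 : (n : ℝ) / (2 * q) < (n / (2 * q) : ℕ) + 1 := by
      have := Nat.lt_floor_add_one ((n : ℝ) / ((2 * q : ℕ) : ℝ))
      rw [Nat.floor_div_eq_div] at this
      push_cast at this
      exact this
    linarith
  -- combine
  have hpos : (0 : ℝ) < 2 ^ (n / (2 * q)) := by positivity
  have h6 : (2 : ℝ) ^ n * 2 ^ (n / (2 * q)) ≤ 2 ^ n * (2 ^ (c * n) * (2 ^ (c * n * (r + 1)) *
      (2 ^ r * 4 ^ r * 2 * 2 ^ (c * n)) * 2 ^ ((n : ℝ) / (8 * q)))) := by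
    have h7 : (2 : ℝ) ^ n * 2 ^ (n / (2 * q)) ≤ 2 ^ (c * n) * (N ^ (r + 1) *
        ((r + 1) * 4 ^ r * (2 * (m * (2 ^ n * a ^ r))) * (1 / 2 ^ L + 1) ^ n)) := by
      calc (2 : ℝ) ^ n * 2 ^ (n / (2 * q)) ≤ 2 ^ (c * n) * (N ^ (r + 1) *
          ((r + 1) * 4 ^ r * (2 * (m * (2 ^ n * a ^ r))) / 2 ^ (n / (2 * q)) *
          (1 / 2 ^ L + 1) ^ n)) * 2 ^ (n / (2 * q)) :=
            mul_le_mul_of_nonneg_right (hA.trans (mul_le_mul_of_nonneg_left hA2 h2c.le)) hpos.le
        _ = _ := by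
            field_simp
    refine h7.trans ?_
    have h8 : (2 : ℝ) ^ (c * n) * (N ^ (r + 1) *
        ((r + 1) * 4 ^ r * (2 * (m * (2 ^ n * a ^ r))) * (1 / 2 ^ L + 1) ^ n)) =
        2 ^ n * (2 ^ (c * n) * ((N ^ (r + 1) * a ^ r) * ((r + 1) * 4 ^ r * 2 * m) *
          (1 / 2 ^ L + 1) ^ n)) := by ring
    rw [h8]
    apply mul_le_mul_of_nonneg_left _ (by positivity)
    apply mul_le_mul_of_nonneg_left _ h2c.le
    apply mul_le_mul _ h1 (by positivity) (by positivity)
    apply mul_le_mul h2 _ (by positivity) (by positivity)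
    apply mul_le_mul _ hm2 hm (by positivity)
    apply mul_le_mul_of_nonneg_right _ (by norm_num)
    exact mul_le_mul_of_nonneg_right h3 (by positivity)
  have h9 : (2 : ℝ) ^ (n / (2 * q)) ≤ 2 ^ (c * n) * (2 ^ (c * n * (r + 1)) *
      (2 ^ r * 4 ^ r * 2 * 2 ^ (c * n)) * 2 ^ ((n : ℝ) / (8 * q))) :=
    le_of_mul_le_mul_left h6 (by positivity)
  have h10 : (2 : ℝ) ^ (c * n) * (2 ^ (c * n * (r + 1)) *
      (2 ^ r * 4 ^ r * 2 * 2 ^ (c * n)) * 2 ^ ((n : ℝ) / (8 * q))) =
      2 ^ (c * n * (r + 3) + (3 * r + 1) + (n : ℝ) / (8 * q)) := by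
    have e4 : (2 : ℝ) ^ r * 4 ^ r * 2 = 2 ^ ((3 * r + 1 : ℝ)) := by
      have e5 : (3 * r + 1 : ℝ) = ((3 * r + 1 : ℕ) : ℝ) := by push_cast; rfl
      rw [e5, Real.rpow_natCast, ← mul_pow, pow_succ, pow_mul]
      norm_num
    rw [e4, ← Real.rpow_add (by norm_num), ← Real.rpow_add (by norm_num),
      ← Real.rpow_add (by norm_num), ← Real.rpow_add (by norm_num)]
    congr 1
    ring
  rw [h10] at h9
  have h11 := h4.trans h9
  have h12 := (Real.rpow_le_rpow_left_iff (by norm_num : (1 : ℝ) < 2)).1 h11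
  rw [hcr] at h12
  have h13 : (4 * q * (3 * r + 3) : ℝ) ≤ n := by exact_mod_cast hn
  have h14 : (3 * r + 3 : ℝ) ≤ n / (4 * q) := by
    rw [le_div_iff₀ (by positivity)]
    linarith
  have h15 : (n : ℝ) / (2 * q) = n / (4 * q) + n / (4 * q) := by
    field_simp
    ring
  have h16 : (n : ℝ) / (4 * q) = n / (8 * q) + n / (8 * q) := by
    field_simp
    ring
  linarith

/-- The lower bound for a dense rigid function without large rectangles. -/
theorem core {k n : ℕ} (hk : 1 ≤ k) (hn : bd k ≤ n) {N : Type} [Fintype N]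
    {G : NBP (Fin n) N} {f : (Fin n → Bool) → Bool} {m a : ℕ}
    (hamb : ∀ (b : Fin n → Bool) (u v : N),
      {V | ∃ l, Walk G u v l ∧ Agrees b l ∧ vars l = V}.encard ≤ a)
    (htests : ∀ b, G.Accepts b → ∃ l, Walk G G.source G.sink l ∧ Agrees b l ∧ l.length ≤ k * n)
    (hcomp : G.Computes f) (hrig : ∀ b x, f b = true → f (Function.update b x (!b x)) = false)
    (hm2 : (m : ℝ) ≤ 2 ^ ((n : ℝ) / bd k)) (hrect : RectFree f m)
    (hdense : (2 : ℝ) ^ n ≤ 2 ^ ((n : ℝ) / bd k) *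
      (univ.filter (fun b => f b = true)).card) :
    (2 : ℝ) ^ ((n : ℝ) / bd k) ≤ a * Fintype.card N := by
  classical
  obtain ⟨q, r, L, hq, hr, hL, hqr, hch⟩ := choice hk
  have hq' : (0 : ℝ) < q := by exact_mod_cast hq
  have hr' : (1 : ℝ) ≤ r := by exact_mod_cast hr
  have hbd : 1 ≤ bd k := Nat.one_le_pow _ _ (Nat.succ_pos k)
  have hn1 : 1 ≤ n := le_trans hbd hn
  have hn2 : 4 * q * (3 * r + 3) ≤ n := by
    refine le_trans (le_trans ?_ hqr) hn
    calc 4 * q * (3 * r + 3) ≤ 4 * q * (8 * r) := Nat.mul_le_mul_left _ (by omega)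
      _ = 32 * q * r := by ring
  have hn3 : r ≤ n := by
    refine le_trans (le_trans ?_ hqr) hn
    exact Nat.le_mul_of_pos_left _ (by positivity)
  have hn0 : (0 : ℝ) ≤ n := Nat.cast_nonneg n
  have hc : (n : ℝ) / bd k ≤ 1 / (8 * (q : ℝ) * (r + 3)) * n := by
    rw [one_div_mul_eq_div]
    apply div_le_div_of_nonneg_left hn0 (by positivity)
    calc 8 * (q : ℝ) * (r + 3) ≤ 8 * q * (4 * r) := by
          apply mul_le_mul_of_nonneg_left _ (by positivity)
          linarith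
      _ = 32 * q * r := by ring
      _ ≤ bd k := by exact_mod_cast hqr
  have hc2 : (2 : ℝ) ^ ((n : ℝ) / bd k) ≤
      2 ^ (1 / (8 * (q : ℝ) * (r + 3)) * n) :=
    Real.rpow_le_rpow_of_exponent_le one_le_two hc
  have ha : 1 ≤ a := by
    have h1 := hamb (fun _ => false) G.source G.source
    have h2 : ({∅} : Set (Finset (Fin n))).encard ≤ a := by
      refine le_trans (Set.encard_le_encard ?_) h1
      rintro l rfl
      exact ⟨[], Walk.nil _, fun t ht => by simp at ht, rfl⟩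
    rw [Set.encard_singleton] at h2
    exact_mod_cast h2
  have hacc : ∀ b, f b = true ↔ G.Accepts b := fun b => (hcomp b).symm
  set h : ℕ := k * n / r + 1 with hh
  have hh1 : h * r ≤ (k + 1) * n := by
    have h1 : k * n / r * r ≤ k * n := Nat.div_mul_le_self _ _
    rw [hh]
    calc (k * n / r + 1) * r = k * n / r * r + r := by ring
      _ ≤ k * n + n := by omega
      _ = (k + 1) * n := by ring
  have hh2 : k * n ≤ r * h := by
    have h1 : k * n < (k * n / r + 1) * r := by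
      have h2 := Nat.div_add_mod (k * n) r
      have h3 := Nat.mod_lt (k * n) hr
      have h4 : (k * n / r + 1) * r = r * (k * n / r) + r := by ring
      omega
    rw [hh, mul_comm r]
    exact h1.le
  -- the walks
  have hex : ∀ x : Fin n → Bool, ∃ (p : Fin (r + 1) → N) (w : Fin r → List (Fin n × Bool)),
      f x = true → p 0 = G.source ∧ Walk G (p (Fin.last r)) G.sink [] ∧
        (∀ j : Fin r, Walk G (p j.castSucc) (p j.succ) (w j)) ∧ (∀ j, (w j).length ≤ h) ∧
        (∀ j, Agrees x (w j)) ∧ (∀ i, (seg w i).Nonempty) ∧ ∑ j, (w j).length ≤ k * n := by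
    intro x
    by_cases hx : f x = true
    · obtain ⟨l, hl, hag, hlen⟩ := htests x ((hacc x).1 hx)
      obtain ⟨p, s, hp0, hpr, hs, hmem, hsum⟩ := cut h r G.source G.sink l hl
        (hlen.trans hh2)
      refine ⟨fun j => p j, fun j => s j, fun _ => ⟨hp0, hpr, ?_, ?_, ?_, ?_, ?_⟩⟩
      · intro j
        exact (hs j j.2).1
      · intro j
        exact (hs j j.2).2
      · intro j t ht
        exact hag t ((hmem t).2 ⟨j, j.2, ht⟩)
      · intro i
        have h1 := complete2 (G := G) (f := f) (fun b hb => (hacc b).2 hb)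
          (fun b x hb => hrig b x hb) hl hag i
        obtain ⟨t, ht, hti⟩ := List.mem_map.1 h1
        obtain ⟨j, hj, htj⟩ := (hmem t).1 ht
        exact ⟨⟨j, hj⟩, mem_seg.2 (mem_vars.2 ⟨t.2, by rw [← hti]; exact htj⟩)⟩
      · rw [Finset.sum_range] at hsum
        rw [hsum]
        exact hlen
    · exact ⟨fun _ => G.source, fun _ => [], fun h => absurd h hx⟩
  choose p w hw using hex
  set A := univ.filter (fun b => f b = true) with hA
  have hAf : ∀ x, x ∈ A → f x = true := fun x hx => (mem_filter.1 hx).2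
  have key : ∀ P : Fin (r + 1) → N, ((A.filter (fun x => p x = P)).card : ℝ) ≤
      (r + 1) * 4 ^ r * (2 * (m * (2 ^ n * (a : ℝ) ^ r))) / 2 ^ (n / (2 * q)) *
      (1 / 2 ^ L + 1) ^ n := by
    intro P
    rcases (A.filter (fun x => p x = P)).eq_empty_or_nonempty with h0 | ⟨x0, hx0⟩
    · rw [h0, card_empty]
      push_cast
      positivity
    have hmemP : ∀ x ∈ A.filter (fun x => p x = P), f x = true ∧ p x = P := by
      intro x hx
      rw [mem_filter] at hx
      exact ⟨hAf x hx.1, hx.2⟩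
    apply fiber_bound (w := w) (S := fun j => {l | Walk G (P j.castSucc) (P j.succ) l}) (f := f) hq
    · intro x hx j
      exact (hw x (hmemP x hx).1).2.2.2.2.1 j
    · intro x hx j
      have h1 := (hw x (hmemP x hx).1).2.2.1 j
      rwa [(hmemP x hx).2] at h1
    · intro z j
      refine le_trans (Set.encard_le_encard ?_) (hamb z (P j.castSucc) (P j.succ))
      rintro V ⟨l, hl, hz, hV⟩
      exact ⟨l, hl, hz, hV⟩
    · intro z hz
      obtain ⟨l, hl, hzl⟩ := glue P hz r le_rfl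
      have h1 := hw x0 (hmemP x0 hx0).1
      rw [(hmemP x0 hx0).2] at h1
      rw [h1.1] at hl
      have h2 := Pool.Agent.Lib_helper45.SRO.walk_append hl h1.2.1
      rw [List.append_nil] at h2
      exact (hacc z).2 ⟨l, h2, hzl⟩
    · intro x hx i
      exact (hw x (hmemP x hx).1).2.2.2.2.2.1 i
    · exact hrect
    · exact ha
    · intro x hx
      have h1 := hw x (hmemP x hx).1
      apply hch n hn1 h hh1 (seg (w x)) h1.2.2.2.2.2.1
      · rw [sum_seg]
        exact (Finset.sum_le_sum (fun j _ => card_vars_le _)).trans h1.2.2.2.2.2.2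
      · intro j
        rw [count_seg]
        exact (card_vars_le _).trans (h1.2.2.2.1 j)
  have hcard : (A.card : ℝ) ≤ (Fintype.card N : ℝ) ^ (r + 1) *
      ((r + 1) * 4 ^ r * (2 * (m * (2 ^ n * (a : ℝ) ^ r))) / 2 ^ (n / (2 * q)) *
      (1 / 2 ^ L + 1) ^ n) := by
    have h1 : A.card = ∑ P : Fin (r + 1) → N, (A.filter (fun x => p x = P)).card :=
      Finset.card_eq_sum_card_fiberwise (f := p) (t := univ) (fun x _ => mem_coe.2 (mem_univ _))
    calc (A.card : ℝ) = ∑ P : Fin (r + 1) → N, ((A.filter (fun x => p x = P)).card : ℝ) := by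
          rw [h1]
          push_cast
          rfl
      _ ≤ ∑ _P : Fin (r + 1) → N, ((r + 1) * 4 ^ r * (2 * (m * (2 ^ n * (a : ℝ) ^ r))) /
          2 ^ (n / (2 * q)) * (1 / 2 ^ L + 1) ^ n) := Finset.sum_le_sum (fun P _ => key P)
      _ = _ := by
          rw [Finset.sum_const, nsmul_eq_mul, card_univ, Fintype.card_fun, Fintype.card_fin]
          push_cast
          rfl
  refine hc2.trans (numeric hq hL hn2 (by exact_mod_cast ha) (Nat.cast_nonneg _)
    (Nat.cast_nonneg m) (hm2.trans hc2) (hdense.trans ?_) hcard)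
  exact mul_le_mul_of_nonneg_right hc2 (Nat.cast_nonneg _)

end Pool.Agent.Lib_helper20.LG
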