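import Pool.Agent.Lib_helper20.SRO.Defs5
import Pool.Agent.Lib_helper20.SRO.Model3
import Pool.Agent.Lib_helper20.LG.Model

/-!
# Nondeterministic branching programs of bounded ambiguity

The further definitions used in the statements, and the interfaces of the modules.
-/

namespace Pool.Agent.Lib_helper20.SRO

open Finset

/-- Ambiguity at most `a`: for every input and any two nodes, the walks between them all of whose
tests the input passes have at most `a` different lists of tests. -/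
def NBP.Ambiguity {V N : Type} (G : NBP V N) (a : ℕ) : Prop :=
  ∀ (b : V → Bool) (u v : N), {l | Walk G u v l ∧ Agrees b l}.encard ≤ a

end Pool.Agent.Lib_helper20.SRO

namespace Pool.Agent.Lib_helper20.LG

open Finset Pool.Agent.Lib_helper20.SRO

/-- the coordinates with `ℓ` segments, all in `F` -/
def Lv {n r : ℕ} (R : Fin n → Finset (Fin r)) (ℓ : ℕ) (F : Finset (Fin r)) : Finset (Fin n) :=
  univ.filter (fun i => (R i).card = ℓ ∧ R i ⊆ F)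

/-- the coordinates with all segments in `F`, but not exactly `ℓ` segments -/
def Ex {n r : ℕ} (R : Fin n → Finset (Fin r)) (ℓ : ℕ) (F : Finset (Fin r)) : Finset (Fin n) :=
  univ.filter (fun i => (R i).card ≠ ℓ ∧ R i ⊆ F)

/-- Module Choice. -/
def StmtChoice : Prop := ∀ k : ℕ, 1 ≤ k → ∃ q r L : ℕ, 0 < q ∧ 0 < r ∧ 16 * q ≤ 2 ^ L ∧
    ∃ n0 : ℕ, ∀ n ≥ n0, ∀ h : ℕ, h * r ≤ (k + 1) * n → ∀ R : Fin n → Finset (Fin r),
      (∀ i, (R i).Nonempty) → ∑ i, (R i).card ≤ k * n →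
      (∀ j, (univ.filter (fun i => j ∈ R i)).card ≤ h) →
      ∃ (ℓ : ℕ) (F1 F2 : Finset (Fin r)), ℓ ≤ r ∧ Disjoint F1 F2 ∧
        n ≤ q * (Lv R ℓ F1).card ∧ n ≤ q * (Lv R ℓ F2).card ∧
        2 * L * (Ex R ℓ (F1 ∪ F2)).card ≤ (Lv R ℓ F1).card ∧
        2 * L * (Ex R ℓ (F1 ∪ F2)).card ≤ (Lv R ℓ F2).card

/-- Module Level (pure numbers): `m j` is the number of coordinates with `j` segments. -/
def StmtLevel : Prop := ∀ (r K w : ℕ) (n : ℝ) (m : ℕ → ℝ), 1 ≤ K → K ≤ r → 2 * K < w → 0 < n →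
    (∀ j, 0 ≤ m j) → (∀ j, m j ≤ n) → n / 2 ≤ ∑ j ∈ Finset.Icc 1 K, m j →
    ∃ t ℓ : ℕ, 1 ≤ t ∧ t ≤ K ∧ 1 ≤ ℓ ∧ ℓ ≤ K ∧
      n / (2 * K) / ((w : ℝ) ^ (2 * t + 1)) ^ K ≤ m ℓ / ((w : ℝ) ^ (2 * t + 1)) ^ ℓ ∧
      (∀ j, ℓ < j → j ≤ r → m j / ((w : ℝ) ^ (2 * t + 1)) ^ j ≤
        m ℓ / ((w : ℝ) ^ (2 * t + 1)) ^ ℓ / (w : ℝ) ^ (j - ℓ)) ∧
      (∀ j, 1 ≤ j → j < ℓ → m j / ((w : ℝ) ^ (2 * t + 1)) ^ j ≤
        m ℓ / ((w : ℝ) ^ (2 * t + 1)) ^ ℓ / (w : ℝ) ^ (ℓ - j))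

/-- Module Random: a random assignment of the `r` segments to `s` groups, of which the groups `0`
and `1` are taken. `x = m_ℓ / s ^ ℓ` is the expected size of the levels, `y` bounds the expected size
of the exceptional set. -/
def StmtRandom : Prop := ∀ (n r s h ℓ : ℕ) (R : Fin n → Finset (Fin r)) (x y : ℝ), 2 ≤ s →
    1 ≤ ℓ → (∀ j, (univ.filter (fun i => j ∈ R i)).card ≤ h) → 0 < x → 0 < y →
    ((univ.filter (fun i => (R i).card = ℓ)).card : ℝ) / (s : ℝ) ^ ℓ = x →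
    ∑ i ∈ univ.filter (fun i => (R i).card ≠ ℓ), (2 / (s : ℝ)) ^ (R i).card ≤ y →
    32 * (ℓ : ℝ) * h ≤ x →
    ∃ F1 F2 : Finset (Fin r), Disjoint F1 F2 ∧ x / 2 ≤ (Lv R ℓ F1).card ∧
      x / 2 ≤ (Lv R ℓ F2).card ∧ ((Ex R ℓ (F1 ∪ F2)).card : ℝ) ≤ 4 * y

/-- Core: lower bound for a dense rigid function without large rectangles. -/
def StmtCore : Prop := ∀ k : ℕ, ∃ c : ℝ, 0 < c ∧ ∃ n0 : ℕ, ∀ n ≥ n0, ∀ (N : Type) [Fintype N]
    (G : NBP (Fin n) N) (f : (Fin n → Bool) → Bool) (m a : ℕ), G.Ambiguity a →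
    (∀ b, G.Accepts b → ∃ l, Walk G G.source G.sink l ∧ Agrees b l ∧ l.length ≤ k * n) →
    G.Computes f → (∀ b x, f b = true → f (Function.update b x (!b x)) = false) →
    1 ≤ m → (m : ℝ) ≤ 2 ^ (c * n) → RectFree f m →
    (2 : ℝ) ^ n ≤ 2 ^ (c * n) * (univ.filter (fun b => f b = true)).card →
    (2 : ℝ) ^ (c * n) ≤ a * Fintype.card N

/-- Module Complement: the complement of the hard function, with small ambiguity. -/
def StmtCompl : Prop := ∀ n : ℕ, 16 ≤ n → ∃ (N : Type) (_ : Fintype N) (G : NBP (Var2 n) N),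
    G.SyntacticReadOnce ∧ G.Ambiguity n ∧ G.Computes (fun v => !hardF2 n v) ∧
    Fintype.card N ≤ 5 * Fintype.card (Var2 n) ^ 2

end Pool.Agent.Lib_helper20.LG
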