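import Pool.Agent.Lib_helper20.LG.Defs2
import Pool.Agent.Lib_helper20.SRO.Stmts3

/-!
Interface of the module PPA.
-/

namespace Pool.Agent.Lib_helper20.LG

open Finset Pool.Agent.Lib_helper20.SRO

/-- Module PPA: the majority is in the PP mode. -/
def StmtPPA : Prop := ∀ n : ℕ, 16 ≤ n → ∃ (Q : Type) (_ : Fintype Q)
    (A : Fin (2 * subs n + 1) → Obl (VarM n) Q), Fintype.card Q ≤ 16 * n ^ 2 ∧
      ∀ v, majA n v = true ↔ PPMode A v

end Pool.Agent.Lib_helper20.LG
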