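import Pool.Agent.Lib_helper20.LG.Defs

/-!
The sharper exceptional sets.
-/

namespace Pool.Agent.Lib_helper20.LG

open Finset Pool.Agent.Lib_helper20.SRO

/-- The exceptional coordinates: all segments in one of the two groups, but not exactly `ℓ`
segments; or all segments in the two groups, some in each, and exactly `ℓ` in one of them. -/
def Ex2 {n r : ℕ} (R : Fin n → Finset (Fin r)) (ℓ : ℕ) (F1 F2 : Finset (Fin r)) :
    Finset (Fin n) :=
  univ.filter (fun i => ((R i).card ≠ ℓ ∧ (R i ⊆ F1 ∨ R i ⊆ F2)) ∨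
    (R i ⊆ F1 ∪ F2 ∧ ¬ R i ⊆ F1 ∧ ¬ R i ⊆ F2 ∧ ((R i ∩ F1).card = ℓ ∨ (R i ∩ F2).card = ℓ)))

/-- Module Random2: a random assignment of the `r` segments to `s` groups, of which the groups `0`
and `1` are taken. `x = m_ℓ / s ^ ℓ` is the expected size of the levels, `y` bounds the expected size
of the exceptional set. -/
def StmtRandom2 : Prop := ∀ (n r s h ℓ : ℕ) (R : Fin n → Finset (Fin r)) (x y : ℝ), 2 ≤ s →
    1 ≤ ℓ → (∀ j, (univ.filter (fun i => j ∈ R i)).card ≤ h) → 0 < x → 0 < y →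
    ((univ.filter (fun i => (R i).card = ℓ)).card : ℝ) / (s : ℝ) ^ ℓ = x →
    ∑ i ∈ univ.filter (fun i => (R i).card ≠ ℓ),
      2 * (1 + ((R i).card.choose ℓ : ℝ)) / (s : ℝ) ^ (R i).card ≤ y →
    32 * (ℓ : ℝ) * h ≤ x →
    ∃ F1 F2 : Finset (Fin r), Disjoint F1 F2 ∧ x / 2 ≤ (Lv R ℓ F1).card ∧
      x / 2 ≤ (Lv R ℓ F2).card ∧ ((Ex2 R ℓ F1 F2).card : ℝ) ≤ 4 * y

end Pool.Agent.Lib_helper20.LG
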