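import Pool.Agent.Lib_helper20.LG.Cls

/-!
The number of accepted inputs whose walks pass through fixed nodes.
-/

namespace Pool.Agent.Lib_helper20.LG

open Finset Pool.Agent.Lib_helper20.SRO

variable {n r : ℕ}

/-- The choice of the level and of the two groups. -/
def Ch (n q r L : ℕ) (R : Fin n → Finset (Fin r)) : Prop :=
  ∃ (ℓ : ℕ) (F1 F2 : Finset (Fin r)), ℓ ≤ r ∧ Disjoint F1 F2 ∧
    n ≤ q * (Lv R ℓ F1).card ∧ n ≤ q * (Lv R ℓ F2).card ∧
    2 * L * (Ex2 R ℓ F1 F2).card ≤ (Lv R ℓ F1).card ∧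
    2 * L * (Ex2 R ℓ F1 F2).card ≤ (Lv R ℓ F2).card

lemma half_le {n q A e L : ℕ} (hq : 0 < q) (h1 : n ≤ q * A) (h2 : 2 * L * e ≤ A) :
    n / (2 * q) + L * e ≤ A := by
  have h3 : n / (2 * q) * (2 * q) ≤ n := Nat.div_mul_le_self n (2 * q)
  have h4 : q * (2 * (n / (2 * q))) ≤ q * A := by
    calc q * (2 * (n / (2 * q))) = n / (2 * q) * (2 * q) := by ring
      _ ≤ n := h3
      _ ≤ q * A := h1
  have h5 := Nat.le_of_mul_le_mul_left h4 hq
  have h6 : 2 * L * e = 2 * (L * e) := by ring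
  omega

theorem fiber_bound {Q : Finset (Fin n → Bool)}
    {w : (Fin n → Bool) → Fin r → List (Fin n × Bool)} {S : Fin r → Set (List (Fin n × Bool))}
    {f : (Fin n → Bool) → Bool} {a m q L : ℕ} (hq : 0 < q)
    (hag : ∀ x ∈ Q, ∀ j, Agrees x (w x j)) (hmem : ∀ x ∈ Q, ∀ j, w x j ∈ S j)
    (hamb : ∀ (z : Fin n → Bool) (j : Fin r),
      {V | ∃ l ∈ S j, Agrees z l ∧ vars l = V}.encard ≤ a)
    (hsound : ∀ z, (∀ j, ∃ l ∈ S j, Agrees z l) → f z = true)
    (hne : ∀ x ∈ Q, ∀ i, (seg (w x) i).Nonempty) (hf : RectFree f m) (ha : 1 ≤ a)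
    (hch : ∀ x ∈ Q, Ch n q r L (seg (w x))) :
    (Q.card : ℝ) ≤ (r + 1) * 4 ^ r * (2 * (m * (2 ^ n * (a : ℝ) ^ r))) / 2 ^ (n / (2 * q)) *
      (1 / 2 ^ L + 1) ^ n := by
  classical
  have hch' : ∀ x : Fin n → Bool, ∃ t : Fin (r + 1) × Finset (Fin r) × Finset (Fin r), x ∈ Q →
      Disjoint t.2.1 t.2.2 ∧ n ≤ q * (Lv (seg (w x)) t.1 t.2.1).card ∧
      n ≤ q * (Lv (seg (w x)) t.1 t.2.2).card ∧
      2 * L * (Ex2 (seg (w x)) t.1 t.2.1 t.2.2).card ≤ (Lv (seg (w x)) t.1 t.2.1).card ∧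
      2 * L * (Ex2 (seg (w x)) t.1 t.2.1 t.2.2).card ≤ (Lv (seg (w x)) t.1 t.2.2).card := by
    intro x
    by_cases hx : x ∈ Q
    · obtain ⟨ℓ, F1, F2, h0, h1⟩ := hch x hx
      exact ⟨(⟨ℓ, Nat.lt_succ_of_le h0⟩, F1, F2), fun _ => h1⟩
    · exact ⟨(0, ∅, ∅), fun h => absurd h hx⟩
  choose T hT using hch'
  set Ee : (Fin n → Bool) → Finset (Fin n) := fun x =>
    Ex2 (seg (w x)) (T x).1 (T x).2.1 (T x).2.2 with hEe
  set B : ℝ := 2 * (m * (2 ^ n * (a : ℝ) ^ r)) / 2 ^ (n / (2 * q)) with hB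
  have hB0 : 0 ≤ B := by positivity
  -- one class
  have key : ∀ (t : Fin (r + 1) × Finset (Fin r) × Finset (Fin r)) (E : Finset (Fin n)),
      ((Q.filter (fun x => T x = t ∧ Ee x = E)).card : ℝ) ≤ B * (1 / 2 ^ L) ^ E.card := by
    intro t E
    set P := Q.filter (fun x => T x = t ∧ Ee x = E) with hP
    have hPQ : ∀ x ∈ P, x ∈ Q := fun x hx => (mem_filter.1 hx).1
    have hPT : ∀ x ∈ P, T x = t := fun x hx => (mem_filter.1 hx).2.1
    have hPE : ∀ x ∈ P, Ee x = E := fun x hx => (mem_filter.1 hx).2.2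
    rcases P.eq_empty_or_nonempty with h | ⟨x0, hx0⟩
    · rw [h, card_empty]
      push_cast
      positivity
    have hD : Dat P w S t.1 t.2.1 t.2.2 E := by
      refine ⟨fun x hx => hag x (hPQ x hx), ?_, ?_, fun x hx => hne x (hPQ x hx),
        fun x hx => hmem x (hPQ x hx)⟩
      · have := (hT x0 (hPQ x0 hx0)).1
        rwa [hPT x0 hx0] at this
      · intro x hx
        have := hPE x hx
        simp only [hEe] at this
        rwa [hPT x hx] at this
    have hu : ∀ x ∈ P, n / (2 * q) + L * E.card ≤ (Lv (seg (w x)) t.1 t.2.1).card ∧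
        n / (2 * q) + L * E.card ≤ (Lv (seg (w x)) t.1 t.2.2).card := by
      intro x hx
      have h1 := hT x (hPQ x hx)
      rw [hPT x hx] at h1
      have h2 := hD.ex x hx
      rw [h2] at h1
      exact ⟨half_le hq h1.2.1 h1.2.2.2.1, half_le hq h1.2.2.1 h1.2.2.2.2⟩
    have h1 := card_P hD hsound hf ha hamb
      (fun x hx => (hu x hx).1) (fun x hx => (hu x hx).2)
    have h2 : (P.card : ℝ) * 2 ^ (n / (2 * q) + L * E.card) ≤
        2 * (m * (2 ^ n * (a : ℝ) ^ r)) := by exact_mod_cast h1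
    rw [hB]
    have h3 : (0 : ℝ) < 2 ^ (n / (2 * q) + L * E.card) := by positivity
    rw [← le_div_iff₀ h3] at h2
    refine h2.trans (le_of_eq ?_)
    rw [pow_add, pow_mul, one_div, inv_pow]
    field_simp
  -- sums
  have hs1 : Q.card = ∑ t : Fin (r + 1) × Finset (Fin r) × Finset (Fin r),
      ∑ E : Finset (Fin n), (Q.filter (fun x => T x = t ∧ Ee x = E)).card := by
    rw [Finset.card_eq_sum_card_fiberwise (f := T) (t := univ) (fun x _ => mem_coe.2 (mem_univ _))]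
    refine Finset.sum_congr rfl (fun t _ => ?_)
    rw [Finset.card_eq_sum_card_fiberwise (f := Ee) (t := univ) (fun x _ => mem_coe.2 (mem_univ _))]
    refine Finset.sum_congr rfl (fun E _ => ?_)
    rw [Finset.filter_filter]
  have hs2 : ∑ E : Finset (Fin n), B * (1 / 2 ^ L : ℝ) ^ E.card = B * (1 / 2 ^ L + 1) ^ n := by
    rw [← Finset.mul_sum]
    have := Fintype.sum_pow_mul_eq_add_pow (Fin n) (1 / 2 ^ L : ℝ) 1
    simp only [one_pow, mul_one, Fintype.card_fin] at this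
    rw [this]
  have hcardT : (Fintype.card (Fin (r + 1) × Finset (Fin r) × Finset (Fin r)) : ℝ) =
      (r + 1) * 4 ^ r := by
    rw [Fintype.card_prod, Fintype.card_prod, Fintype.card_fin, Fintype.card_finset,
      Fintype.card_fin]
    push_cast
    rw [← mul_pow]
    norm_num
  calc (Q.card : ℝ) = ∑ t : Fin (r + 1) × Finset (Fin r) × Finset (Fin r),
      ∑ E : Finset (Fin n), ((Q.filter (fun x => T x = t ∧ Ee x = E)).card : ℝ) := by
        rw [hs1]
        push_cast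
        rfl
    _ ≤ ∑ _t : Fin (r + 1) × Finset (Fin r) × Finset (Fin r),
        ∑ E : Finset (Fin n), B * (1 / 2 ^ L : ℝ) ^ E.card :=
        Finset.sum_le_sum (fun t _ => Finset.sum_le_sum (fun E _ => key t E))
    _ = (r + 1) * 4 ^ r * (B * (1 / 2 ^ L + 1) ^ n) := by
        rw [hs2, Finset.sum_const, nsmul_eq_mul, card_univ, hcardT]
    _ = _ := by
        rw [hB]
        ring

end Pool.Agent.Lib_helper20.LG
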