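import Pool.Agent.Lib_helper20.LG.Defs

/-!
# Module Level: choice of a scale and a level (pure real numbers)
-/

set_option autoImplicit false

namespace Pool.Agent.Lib_helper20.LG

open Finset

theorem stmtLevel : StmtLevel := by
  intro r K w n m hK hKr hw hn hm0 hmn hsum
  have hW1 : (1 : ℝ) < w := by
    have : 1 < w := by omega
    exact_mod_cast this
  have hW0 : (0 : ℝ) < w := by linarith
  have hKpos : (0 : ℝ) < K := by exact_mod_cast hK
  have h2K : (2 : ℝ) * K < w := by exact_mod_cast hw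
  -- the argmax
  have hne : (Icc 1 r).Nonempty := ⟨1, mem_Icc.2 ⟨le_rfl, hK.trans hKr⟩⟩
  have hex : ∀ t : ℕ, ∃ l ∈ Icc 1 r, ∀ j ∈ Icc 1 r,
      m j / ((w : ℝ) ^ (2 * t)) ^ j ≤ m l / ((w : ℝ) ^ (2 * t)) ^ l := fun t =>
    exists_max_image (Icc 1 r) (fun j => m j / ((w : ℝ) ^ (2 * t)) ^ j) hne
  choose l hl hmax using hex
  have hl1 : ∀ t, 1 ≤ l t := fun t => (mem_Icc.1 (hl t)).1
  -- the pigeonhole
  obtain ⟨j0, hj0, hj0m⟩ : ∃ j0 ∈ Icc 1 K, n / (2 * K) ≤ m j0 := by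
    by_contra hcon
    push Not at hcon
    have h1 : ∑ j ∈ Icc 1 K, m j < ∑ _j ∈ Icc 1 K, n / (2 * K) :=
      sum_lt_sum_of_nonempty ⟨1, mem_Icc.2 ⟨le_rfl, hK⟩⟩ hcon
    rw [sum_const, Nat.card_Icc, nsmul_eq_mul] at h1
    have h2 : ((K + 1 - 1 : ℕ) : ℝ) * (n / (2 * K)) = n / 2 := by
      rw [Nat.add_sub_cancel]
      field_simp
    rw [h2] at h1
    linarith
  have hj01 := (mem_Icc.1 hj0).1
  have hj0K := (mem_Icc.1 hj0).2
  -- lower bound of the maximum
  have hlow : ∀ t, n / (2 * K) / ((w : ℝ) ^ (2 * t)) ^ K ≤ m (l t) / ((w : ℝ) ^ (2 * t)) ^ l t := by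
    intro t
    have hs1 : (1 : ℝ) ≤ (w : ℝ) ^ (2 * t) := one_le_pow₀ hW1.le
    refine le_trans ?_ (hmax t j0 (mem_Icc.2 ⟨hj01, hj0K.trans hKr⟩))
    refine div_le_div₀ (hm0 _) hj0m (by positivity) (pow_le_pow_right₀ hs1 hj0K)
  have hpos : ∀ t, 0 < m (l t) := by
    intro t
    have h1 : 0 < m (l t) / ((w : ℝ) ^ (2 * t)) ^ l t :=
      lt_of_lt_of_le (by positivity) (hlow t)
    have h2 : (0 : ℝ) < ((w : ℝ) ^ (2 * t)) ^ l t := by positivity
    rcases (hm0 (l t)).eq_or_lt with h | h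
    · rw [← h, zero_div] at h1
      exact absurd h1 (lt_irrefl _)
    · exact h
  -- (1)
  have hlK : ∀ t, 1 ≤ t → l t ≤ K := by
    intro t ht
    by_contra hcon
    push Not at hcon
    set s : ℝ := (w : ℝ) ^ (2 * t) with hs
    have hs1 : (1 : ℝ) ≤ s := one_le_pow₀ hW1.le
    have hs0 : 0 < s := by linarith
    have hsw : (w : ℝ) ≤ s := by
      calc (w : ℝ) = (w : ℝ) ^ 1 := (pow_one _).symm
        _ ≤ s := pow_le_pow_right₀ hW1.le (by omega)
    have h1 := hlow t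
    have h2 : m (l t) / s ^ l t ≤ n / s ^ (K + 1) :=
      div_le_div₀ hn.le (hmn _) (by positivity) (pow_le_pow_right₀ hs1 hcon)
    have h3 : n / s ^ (K + 1) < n / (2 * K) / s ^ K := by
      rw [pow_succ, div_div, mul_comm (2 * (K : ℝ)), ]
      refine div_lt_div_of_pos_left hn (by positivity) ?_
      exact mul_lt_mul_of_pos_left (by linarith) (by positivity)
    linarith
  -- (2)
  have hmono : ∀ t, l (t + 1) ≤ l t := by
    intro t
    by_contra hcon
    push Not at hcon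
    set s : ℝ := (w : ℝ) ^ (2 * t) with hs
    have hs0 : 0 < s := by positivity
    have hs' : (w : ℝ) ^ (2 * (t + 1)) = s * w ^ 2 := by rw [hs, ← pow_add]; ring_nf
    have h1 := hmax t (l (t + 1)) (hl (t + 1))
    have h2 := hmax (t + 1) (l t) (hl t)
    rw [hs', mul_pow, mul_pow, ← div_div, ← div_div] at h2
    have hw2 : (1 : ℝ) < (w : ℝ) ^ 2 := by nlinarith
    have hp : 0 < m (l t) / s ^ l t := div_pos (hpos t) (by positivity)
    have h3 : m (l (t + 1)) / s ^ l (t + 1) / ((w : ℝ) ^ 2) ^ l (t + 1) ≤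
        m (l t) / s ^ l t / ((w : ℝ) ^ 2) ^ l (t + 1) :=
      div_le_div_of_nonneg_right h1 (by positivity)
    have h4 : m (l t) / s ^ l t / ((w : ℝ) ^ 2) ^ l (t + 1) <
        m (l t) / s ^ l t / ((w : ℝ) ^ 2) ^ l t :=
      div_lt_div_of_pos_left hp (by positivity) (pow_lt_pow_right₀ hw2 hcon)
    linarith
  -- (3)
  obtain ⟨t, ht1, htK, htl⟩ : ∃ t, 1 ≤ t ∧ t ≤ K ∧ l (t + 1) = l t := by
    by_contra hcon
    push Not at hcon
    have h1 : ∀ t, t ≤ K → l (t + 1) + t ≤ l 1 := by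
      intro t
      induction t with
      | zero => intro _; simp
      | succ t ih =>
        intro ht
        have h2 := ih (by omega)
        have h3 := hcon (t + 1) (by omega) ht
        have h4 := hmono (t + 1)
        omega
    have h2 := h1 K le_rfl
    have h3 := hlK 1 le_rfl
    have h4 := hl1 (K + 1)
    omega
  -- (4)
  set s : ℝ := (w : ℝ) ^ (2 * t) with hs
  have hs0 : 0 < s := by positivity
  have hst : (w : ℝ) ^ (2 * t + 1) = s * w := by rw [hs, pow_succ]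
  have hs2 : (w : ℝ) ^ (2 * (t + 1)) = s * w * w := by rw [hs, ← pow_succ, ← pow_succ]; ring_nf
  have hlt := hlK t ht1
  have hscale : ∀ j, m j / (s * w) ^ j = m j / s ^ j / (w : ℝ) ^ j := by
    intro j
    rw [mul_pow, div_div]
  refine ⟨t, l t, ht1, htK, hl1 t, hlt, ?_, ?_, ?_⟩
  · rw [hst, hscale, mul_pow, ← div_div]
    calc n / (2 * K) / s ^ K / (w : ℝ) ^ K ≤ m (l t) / s ^ l t / (w : ℝ) ^ K :=
          div_le_div_of_nonneg_right (hlow t) (by positivity)
      _ ≤ m (l t) / s ^ l t / (w : ℝ) ^ l t :=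
          div_le_div_of_nonneg_left (div_nonneg (hm0 _) (by positivity)) (by positivity)
            (pow_le_pow_right₀ hW1.le hlt)
  · intro j hj hjr
    rw [hst, hscale, hscale, div_div _ _ ((w : ℝ) ^ (j - l t)), ← pow_add,
      Nat.add_sub_cancel' hj.le]
    exact div_le_div_of_nonneg_right (hmax t j (mem_Icc.2 ⟨(hl1 t).trans hj.le, hjr⟩))
      (by positivity)
  · intro j hj1 hj
    have hjr : j ≤ r := hj.le.trans (hlt.trans hKr)
    have h1 := hmax (t + 1) j (mem_Icc.2 ⟨hj1, hjr⟩)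
    rw [htl, hs2, mul_pow (s * (w : ℝ)) (w : ℝ) j, mul_pow (s * (w : ℝ)) (w : ℝ) (l t),
      ← div_div, ← div_div] at h1
    rw [hst]
    have h2 : (w : ℝ) ^ l t = (w : ℝ) ^ (l t - j) * (w : ℝ) ^ j := by
      rw [← pow_add, Nat.sub_add_cancel hj.le]
    rw [h2, ← div_div] at h1
    exact (div_le_div_iff_of_pos_right (by positivity)).1 h1

end Pool.Agent.Lib_helper20.LG
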