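import Pool.Agent.Lib_helper20.LG.Defs3

/-!
Module PPA: the majority of the affine conditions is in the PP mode.
-/

namespace Pool.Agent.Lib_helper20.LG

open Finset Pool.Agent.Lib_helper20.SRO

namespace PPA

variable {n : ℕ}

/-- the variables -/
abbrev wb (j : Fin n) : VarM n := Sum.inr j
abbrev wm (t : Fin (2 * subs n + 1)) (i : Fin (codim n)) (j : Fin n) : VarM n :=
  Sum.inl (Sum.inl (Sum.inl (t, i, j)))
abbrev wr (t : Fin (2 * subs n + 1)) (i : Fin (codim n)) : VarM n :=
  Sum.inl (Sum.inl (Sum.inr (t, i)))
abbrev we (t : Fin (2 * subs n + 1)) : VarM n := Sum.inl (Sum.inr t)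

/-- the coefficients of the variable `j` in the equations in `K` -/
def blk (t : Fin (2 * subs n + 1)) (j : Fin n) (K : List (Fin (codim n))) : List (VarM n) :=
  K.map (fun i => wm t i j)

/-- the right sides of the equations in `K` -/
def rhs (t : Fin (2 * subs n + 1)) (K : List (Fin (codim n))) : List (VarM n) :=
  K.map (fun i => wr t i)

/-- the variables for the points in `J` -/
def blks (t : Fin (2 * subs n + 1)) (J : List (Fin n)) : List (VarM n) :=
  J.flatMap (fun j => wb j :: blk t j (List.finRange (codim n)))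

/-- the order of the program `t` -/
def ordL (t : Fin (2 * subs n + 1)) : List (VarM n) :=
  blks t (List.finRange n) ++ (rhs t (List.finRange (codim n)) ++ [we t])

theorem mem_blk {t : Fin (2 * subs n + 1)} {j : Fin n} {K : List (Fin (codim n))} {x : VarM n} :
    x ∈ blk t j K ↔ ∃ i ∈ K, x = wm t i j := by
  unfold blk
  rw [List.mem_map]
  exact exists_congr (fun i => and_congr_right (fun _ => eq_comm))

theorem mem_rhs {t : Fin (2 * subs n + 1)} {K : List (Fin (codim n))} {x : VarM n} :
    x ∈ rhs t K ↔ ∃ i ∈ K, x = wr t i := by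
  unfold rhs
  rw [List.mem_map]
  exact exists_congr (fun i => and_congr_right (fun _ => eq_comm))

theorem nodup_blk (t : Fin (2 * subs n + 1)) (j : Fin n) {K : List (Fin (codim n))} (hK : K.Nodup) :
    (blk t j K).Nodup := by
  refine hK.map (fun i i' h => ?_)
  simp only [Sum.inl.injEq, Prod.mk.injEq] at h
  exact h.2.1

theorem nodup_rhs (t : Fin (2 * subs n + 1)) {K : List (Fin (codim n))} (hK : K.Nodup) :
    (rhs t K).Nodup := by
  refine hK.map (fun i i' h => ?_)
  simp only [Sum.inl.injEq, Sum.inr.injEq, Prod.mk.injEq] at h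
  exact h.2

theorem mem_blks {t : Fin (2 * subs n + 1)} {J : List (Fin n)} {x : VarM n} :
    x ∈ blks t J ↔ ∃ j ∈ J, x = wb j ∨ ∃ i, x = wm t i j := by
  unfold blks
  rw [List.mem_flatMap]
  refine exists_congr (fun i => and_congr_right (fun _ => ?_))
  rw [List.mem_cons, mem_blk]
  simp [List.mem_finRange]

theorem nodup_blks (t : Fin (2 * subs n + 1)) {J : List (Fin n)} (hJ : J.Nodup) :
    (blks t J).Nodup := by
  induction J with
  | nil => simp [blks]
  | cons j J ih =>
    rw [List.nodup_cons] at hJ
    have e : blks t (j :: J) = (wb j :: blk t j (List.finRange (codim n))) ++ blks t J := rfl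
    rw [e, List.nodup_append]
    refine ⟨?_, ih hJ.2, ?_⟩
    · rw [List.nodup_cons]
      refine ⟨?_, nodup_blk t j (List.nodup_finRange _)⟩
      intro h
      obtain ⟨i, _, h'⟩ := mem_blk.1 h
      simp at h'
    · intro x hx y hy hxy
      subst hxy
      obtain ⟨j', hj', h'⟩ := mem_blks.1 hy
      rw [List.mem_cons, mem_blk] at hx
      rcases hx with hx | ⟨i, _, hx⟩
      · rcases h' with h' | ⟨i', h'⟩
        · rw [hx] at h'
          simp only [Sum.inr.injEq] at h'
          rw [h'] at hJ
          exact hJ.1 hj'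
        · rw [hx] at h'
          simp at h'
      · rcases h' with h' | ⟨i', h'⟩
        · rw [hx] at h'
          simp at h'
        · rw [hx] at h'
          simp only [Sum.inl.injEq, Prod.mk.injEq] at h'
          rw [h'.2.2] at hJ
          exact hJ.1 hj'

theorem nodup_ordL (t : Fin (2 * subs n + 1)) : (ordL t).Nodup := by
  rw [ordL, List.nodup_append]
  refine ⟨nodup_blks t (List.nodup_finRange n), ?_, ?_⟩
  · rw [List.nodup_append]
    refine ⟨nodup_rhs t (List.nodup_finRange _), by simp, ?_⟩
    intro x hx y hy hxy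
    subst hxy
    rw [List.mem_singleton] at hy
    subst hy
    obtain ⟨i, _, h⟩ := mem_rhs.1 hx
    simp at h
  · intro x hx y hy hxy
    subst hxy
    rw [List.mem_append, List.mem_singleton, mem_rhs] at hy
    obtain ⟨j, _, h | ⟨i, h⟩⟩ := mem_blks.1 hx
    · subst h
      rcases hy with ⟨i, _, h⟩ | h
      · simp at h
      · simp at h
    · subst h
      rcases hy with ⟨i, _, h⟩ | h
      · simp at h
      · simp at h

/-- the states -/
abbrev St (n : ℕ) : Type := (Fin (codim n) → ZMod 2) × Bool

/-- the step of the program -/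
def stp (q : St n) (x : VarM n) (c : Bool) : St n :=
  match x with
  | Sum.inr _ => (q.1, c)
  | Sum.inl (Sum.inl (Sum.inl (_, i, _))) =>
      (fun i' => if i' = i then q.1 i' + (if c && q.2 then 1 else 0) else q.1 i', q.2)
  | Sum.inl (Sum.inl (Sum.inr (_, i))) =>
      (fun i' => if i' = i then q.1 i' + (if c then 1 else 0) else q.1 i', q.2)
  | Sum.inl (Sum.inr _) => (q.1, c)

theorem stp_wm (q : St n) (t : Fin (2 * subs n + 1)) (i : Fin (codim n)) (j : Fin n) (c : Bool) :
    stp q (wm t i j) c =
      (fun i' => if i' = i then q.1 i' + (if c && q.2 then 1 else 0) else q.1 i', q.2) := rfl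

theorem stp_wr (q : St n) (t : Fin (2 * subs n + 1)) (i : Fin (codim n)) (c : Bool) :
    stp q (wr t i) c =
      (fun i' => if i' = i then q.1 i' + (if c then 1 else 0) else q.1 i', q.2) := rfl

theorem fold_blk (v : VarM n → Bool) (t : Fin (2 * subs n + 1)) (j : Fin n) (cur : Bool)
    {K : List (Fin (codim n))} (hK : K.Nodup) : ∀ (R : Fin (codim n) → ZMod 2),
    (blk t j K).foldl (fun q x => stp q x (v x)) (R, cur) =
      ((fun i => if i ∈ K then R i + (if v (wm t i j) && cur then 1 else 0) else R i), cur) := by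
  induction K with
  | nil => intro R; simp [blk]
  | cons l0 K ih =>
    intro R
    rw [List.nodup_cons] at hK
    have e : blk t j (l0 :: K) = wm t l0 j :: blk t j K := rfl
    rw [e, List.foldl_cons, stp_wm, ih hK.2]
    congr 1
    funext l
    by_cases hl : l = l0
    · subst hl
      rw [if_neg hK.1, if_pos List.mem_cons_self, if_pos rfl]
    · have h1 : (l ∈ l0 :: K) ↔ l ∈ K := by
        rw [List.mem_cons]
        exact ⟨fun h => h.resolve_left hl, Or.inr⟩
      simp only [hl, if_false, h1]

theorem fold_rhs (v : VarM n → Bool) (t : Fin (2 * subs n + 1)) (cur : Bool)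
    {K : List (Fin (codim n))} (hK : K.Nodup) : ∀ (R : Fin (codim n) → ZMod 2),
    (rhs t K).foldl (fun q x => stp q x (v x)) (R, cur) =
      ((fun i => if i ∈ K then R i + (if v (wr t i) then 1 else 0) else R i), cur) := by
  induction K with
  | nil => intro R; simp [rhs]
  | cons l0 K ih =>
    intro R
    rw [List.nodup_cons] at hK
    have e : rhs t (l0 :: K) = wr t l0 :: rhs t K := rfl
    rw [e, List.foldl_cons, stp_wr, ih hK.2]
    congr 1
    funext l
    by_cases hl : l = l0
    · subst hl
      rw [if_neg hK.1, if_pos List.mem_cons_self, if_pos rfl]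
    · have h1 : (l ∈ l0 :: K) ↔ l ∈ K := by
        rw [List.mem_cons]
        exact ⟨fun h => h.resolve_left hl, Or.inr⟩
      simp only [hl, if_false, h1]

theorem fold_blks (v : VarM n → Bool) (t : Fin (2 * subs n + 1)) (J : List (Fin n)) :
    ∀ (R : Fin (codim n) → ZMod 2) (cur : Bool), ∃ cur',
    (blks t J).foldl (fun q x => stp q x (v x)) (R, cur) =
      ((fun i => R i + (J.map (fun j =>
        if v (wm t i j) && v (wb j) then (1 : ZMod 2) else 0)).sum), cur') := by
  induction J with
  | nil => intro R cur; exact ⟨cur, by simp [blks]⟩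
  | cons j J ih =>
    intro R cur
    have e : blks t (j :: J) = (wb j :: blk t j (List.finRange (codim n))) ++ blks t J := rfl
    rw [e, List.foldl_append, List.foldl_cons]
    have e2 : stp (R, cur) (wb j) (v (wb j)) = (R, v (wb j)) := rfl
    rw [e2, fold_blk v t j _ (List.nodup_finRange _)]
    obtain ⟨cur', h⟩ := ih (fun i => if i ∈ List.finRange (codim n) then
      R i + (if v (wm t i j) && v (wb j) then 1 else 0) else R i) (v (wb j))
    refine ⟨cur', ?_⟩
    rw [h]
    simp only [List.mem_finRange, if_true, List.map_cons, List.sum_cons, add_assoc]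

theorem fold_ordL (v : VarM n → Bool) (t : Fin (2 * subs n + 1)) :
    (ordL t).foldl (fun q x => stp q x (v x)) ((fun _ => 0), false) =
      ((fun i => dot (fun j => v (wm t i j)) (fun j => v (wb j)) + (if v (wr t i) then 1 else 0)),
        v (we t)) := by
  rw [ordL, List.foldl_append]
  obtain ⟨cur', h⟩ := fold_blks v t (List.finRange n) (fun _ => 0) false
  rw [h, List.foldl_append, fold_rhs v t _ (List.nodup_finRange _), List.foldl_cons, List.foldl_nil]
  simp only [stp, zero_add, dot, Fin.sum_univ_def, List.mem_finRange, if_true]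

/-- the program of the condition `t` -/
def prog (t : Fin (2 * subs n + 1)) : Obl (VarM n) (St n) where
  order := ordL t
  nodup := nodup_ordL t
  init := ((fun _ => 0), false)
  step := stp
  acc := fun q => decide (decide (∀ i, q.1 i = 0) ≠ q.2)

theorem prog_out (t : Fin (2 * subs n + 1)) (v : VarM n → Bool) :
    (prog t).out v = decide (inSub (fun i j => v (Sum.inl (Sum.inl (Sum.inl (t, i, j)))))
      (fun i => v (Sum.inl (Sum.inl (Sum.inr (t, i))))) (fun j => v (Sum.inr j)) ≠
        v (Sum.inl (Sum.inr t))) := by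
  have h : (prog t).out v = decide (decide (∀ i, ((ordL t).foldl (fun q x => stp q x (v x))
      ((fun _ => 0), false)).1 i = 0) ≠ ((ordL t).foldl (fun q x => stp q x (v x))
      ((fun _ => 0), false)).2) := rfl
  rw [h, fold_ordL]
  simp only [CharTwo.add_eq_zero]
  rfl

theorem card_St (n : ℕ) (hn : 16 ≤ n) : Fintype.card (St n) ≤ 16 * n ^ 2 := by
  rw [Fintype.card_prod, Fintype.card_fun, Fintype.card_bool, ZMod.card, Fintype.card_fin]
  have h1 : 2 ^ Nat.log 2 n ≤ n := Nat.pow_log_le_self 2 (by omega)
  have h2 : (2 : ℕ) ^ codim n = 4 * (2 ^ Nat.log 2 n) ^ 2 := by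
    unfold codim
    ring
  rw [h2]
  nlinarith [Nat.pow_le_pow_left h1 2]

end PPA

theorem stmtPPA : StmtPPA := by
  intro n hn
  refine ⟨PPA.St n, inferInstance, PPA.prog, PPA.card_St n hn, ?_⟩
  intro v
  unfold majA PPMode
  rw [decide_eq_true_iff]
  have h : (univ.filter (fun t : Fin (2 * subs n + 1) => (PPA.prog t).out v = true)) =
      (univ.filter (fun t : Fin (2 * subs n + 1) =>
        inSub (fun i j => v (Sum.inl (Sum.inl (Sum.inl (t, i, j)))))
          (fun i => v (Sum.inl (Sum.inl (Sum.inr (t, i))))) (fun j => v (Sum.inr j)) ≠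
            v (Sum.inl (Sum.inr t)))) := by
    refine Finset.filter_congr (fun t _ => ?_)
    rw [PPA.prog_out, decide_eq_true_iff]
  rw [h]

end Pool.Agent.Lib_helper20.LG
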