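import Pool.Agent.Lib_helper20.LG.Fiber
import Pool.Agent.Lib_helper20.SRO.E2

/-!
Cutting walks in segments.
-/

namespace Pool.Agent.Lib_helper20.LG

open Finset Pool.Agent.Lib_helper20.SRO

/-- cutting a walk -/
theorem cut {V N : Type} {G : NBP V N} (h : ℕ) : ∀ (r : ℕ) (u v : N) (l : List (V × Bool)),
    Walk G u v l → l.length ≤ r * h →
    ∃ (p : ℕ → N) (s : ℕ → List (V × Bool)), p 0 = u ∧ Walk G (p r) v [] ∧
      (∀ j < r, Walk G (p j) (p (j + 1)) (s j) ∧ (s j).length ≤ h) ∧
      (∀ t, t ∈ l ↔ ∃ j < r, t ∈ s j) ∧ ∑ j ∈ range r, (s j).length = l.length := by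
  intro r
  induction r with
  | zero =>
    intro u v l hl hlen
    have h0 : l = [] := List.length_eq_zero_iff.1 (by omega)
    subst h0
    exact ⟨fun _ => u, fun _ => [], rfl, hl, fun j hj => absurd hj (Nat.not_lt_zero j), by simp,
      by simp⟩
  | succ r ih =>
    intro u v l hl hlen
    obtain ⟨y, h1, h2⟩ := Pool.Agent.Lib_helper45.SRO.walk_split hl (l.take h) (l.drop h)
      (List.take_append_drop h l).symm
    obtain ⟨p, s, hp0, hpr, hs, hmem, hsum⟩ := ih y v (l.drop h) h2 (by
      rw [List.length_drop]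
      rw [add_mul, one_mul] at hlen
      omega)
    refine ⟨fun j => Nat.casesOn j u p, fun j => Nat.casesOn j (l.take h) s, rfl, hpr, ?_, ?_, ?_⟩
    · intro j hj
      cases j with
      | zero =>
        refine ⟨?_, ?_⟩
        · show Walk G u (p 0) (l.take h)
          rw [hp0]
          exact h1
        · show (l.take h).length ≤ h
          rw [List.length_take]
          omega
      | succ j => exact hs j (by omega)
    · intro t
      have e : t ∈ l ↔ t ∈ l.take h ∨ t ∈ l.drop h := by
        rw [← List.mem_append, List.take_append_drop]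
      rw [e, hmem]
      constructor
      · rintro (h3 | ⟨j, hj, h3⟩)
        · exact ⟨0, by omega, h3⟩
        · exact ⟨j + 1, by omega, h3⟩
      · rintro ⟨j, hj, h3⟩
        cases j with
        | zero => exact Or.inl h3
        | succ j => exact Or.inr ⟨j, by omega, h3⟩
    · rw [Finset.sum_range_succ']
      show ∑ j ∈ range r, (s j).length + (l.take h).length = l.length
      rw [hsum, List.length_take, List.length_drop]
      omega

/-- gluing walks -/
theorem glue {V N : Type} {G : NBP V N} {r : ℕ} (p : Fin (r + 1) → N) {z : V → Bool}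
    (h : ∀ j : Fin r, ∃ l, Walk G (p j.castSucc) (p j.succ) l ∧ Agrees z l) :
    ∀ (m : ℕ) (hm : m ≤ r), ∃ l, Walk G (p 0) (p ⟨m, Nat.lt_succ_of_le hm⟩) l ∧ Agrees z l := by
  intro m
  induction m with
  | zero =>
    intro _
    exact ⟨[], Walk.nil _, fun t ht => by simp at ht⟩
  | succ m ih =>
    intro hm
    obtain ⟨l, hl, hz⟩ := ih (Nat.le_of_succ_le hm)
    obtain ⟨l', hl', hz'⟩ := h ⟨m, hm⟩
    refine ⟨l ++ l', Pool.Agent.Lib_helper45.SRO.walk_append hl hl', ?_⟩
    intro t ht
    rcases List.mem_append.1 ht with h1 | h1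
    · exact hz t h1
    · exact hz' t h1

end Pool.Agent.Lib_helper20.LG
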